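import Mathlib

/-! Cuts in multigraphs: a multigraph is given by two maps `s t : E → V`, a finite set `vs` of
vertices and a finite set `es` of edges. -/

set_option autoImplicit false

namespace OddSix

open Finset Classical

variable {V E : Type*}

/-- the edge `e` crosses the vertex set `X` -/
def cr (s t : E → V) (X : Finset V) (e : E) : Prop := ¬ (s e ∈ X ↔ t e ∈ X)

/-- indicator of crossing -/
noncomputable def ci (s t : E → V) (X : Finset V) (e : E) : ℕ := if cr s t X e then 1 else 0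

/-- number of edges in `A` crossing `X` -/
noncomputable def cn (s t : E → V) (A : Finset E) (X : Finset V) : ℕ := ∑ e ∈ A, ci s t X e

lemma ci_le_one (s t : E → V) (X : Finset V) (e : E) : ci s t X e ≤ 1 := by
  unfold ci; split_ifs <;> omega

lemma ci_eq_one {s t : E → V} {X : Finset V} {e : E} : ci s t X e = 1 ↔ cr s t X e := by
  unfold ci; split_ifs with h <;> simp [h]

lemma ci_eq_zero {s t : E → V} {X : Finset V} {e : E} : ci s t X e = 0 ↔ ¬ cr s t X e := by
  unfold ci; split_ifs with h <;> simp [h]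

lemma cn_eq_card (s t : E → V) (A : Finset E) (X : Finset V) :
    cn s t A X = (A.filter (cr s t X)).card := by
  unfold cn ci
  rw [Finset.card_filter]

lemma cn_eq_zero {s t : E → V} {A : Finset E} {X : Finset V} :
    cn s t A X = 0 ↔ ∀ e ∈ A, ¬ cr s t X e := by
  unfold cn
  rw [Finset.sum_eq_zero_iff]
  exact forall₂_congr fun e _ => ci_eq_zero

lemma cn_mono {s t : E → V} {A B : Finset E} (h : A ⊆ B) (X : Finset V) :
    cn s t A X ≤ cn s t B X := Finset.sum_le_sum_of_subset h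

lemma cn_union {s t : E → V} {A B : Finset E} (h : Disjoint A B) (X : Finset V) :
    cn s t (A ∪ B) X = cn s t A X + cn s t B X := Finset.sum_union h

lemma cn_filter_add (s t : E → V) (A : Finset E) (p : E → Prop) [DecidablePred p]
    (X : Finset V) :
    cn s t A X = cn s t (A.filter p) X + cn s t (A.filter fun e => ¬ p e) X :=
  (Finset.sum_filter_add_sum_filter_not A p _).symm

/-- number of edges with both ends in `X` -/
noncomputable def inn (s t : E → V) (A : Finset E) (X : Finset V) : ℕ :=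
  ∑ e ∈ A, if (s e ∈ X ∧ t e ∈ X) then 1 else 0

lemma sum_ci_singleton {s t : E → V} {e : E} (he : s e ≠ t e) (X : Finset V) :
    ∑ v ∈ X, ci s t {v} e = ci s t X e + 2 * (if (s e ∈ X ∧ t e ∈ X) then 1 else 0) := by
  have h1 : ∀ v, ci s t {v} e = (if v = s e then 1 else 0) + (if v = t e then 1 else 0) := by
    intro v
    unfold ci cr
    simp only [mem_singleton]
    by_cases h1 : s e = v
    · have h2 : ¬ t e = v := fun h => he (h1.trans h.symm)
      simp [h1, h2, Ne.symm h2]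
    · by_cases h2 : t e = v
      · simp [h1, h2, Ne.symm h1]
      · simp [h1, h2, Ne.symm h1, Ne.symm h2]
  simp only [h1]
  rw [Finset.sum_add_distrib, Finset.sum_ite_eq' X (s e), Finset.sum_ite_eq' X (t e)]
  unfold ci cr
  by_cases h1 : s e ∈ X <;> by_cases h2 : t e ∈ X <;> simp [h1, h2]

lemma sum_cn {s t : E → V} {A : Finset E} (hA : ∀ e ∈ A, s e ≠ t e) (X : Finset V) :
    ∑ v ∈ X, cn s t A {v} = cn s t A X + 2 * inn s t A X := by
  unfold cn inn
  rw [Finset.sum_comm, Finset.mul_sum, ← Finset.sum_add_distrib]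
  exact Finset.sum_congr rfl fun e he => sum_ci_singleton (hA e he) X

lemma odd_cn {s t : E → V} {A : Finset E} (hA : ∀ e ∈ A, s e ≠ t e) {X : Finset V}
    (h : ∀ v ∈ X, Odd (cn s t A {v})) : Odd (cn s t A X) ↔ Odd X.card := by
  have h1 := sum_cn hA X
  have h2 : Odd (∑ v ∈ X, cn s t A {v}) ↔ Odd X.card := by
    rw [Finset.odd_sum_iff_odd_card_odd]
    have : X.filter (fun v => Odd (cn s t A {v})) = X := Finset.filter_true_of_mem h
    rw [this]
  rw [← h2, h1]
  rw [Nat.odd_add]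
  simp

/-- submodularity -/
lemma cn_submod (s t : E → V) (A : Finset E) (X Z : Finset V) :
    cn s t A (X ∩ Z) + cn s t A (X ∪ Z) ≤ cn s t A X + cn s t A Z := by
  unfold cn
  rw [← Finset.sum_add_distrib, ← Finset.sum_add_distrib]
  refine Finset.sum_le_sum fun e _ => ?_
  unfold ci cr
  by_cases h1 : s e ∈ X <;> by_cases h2 : t e ∈ X <;> by_cases h3 : s e ∈ Z <;>
    by_cases h4 : t e ∈ Z <;> simp [h1, h2, h3, h4]

lemma cn_posimod (s t : E → V) (A : Finset E) (X Z : Finset V) :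
    cn s t A (X \ Z) + cn s t A (Z \ X) ≤ cn s t A X + cn s t A Z := by
  unfold cn
  rw [← Finset.sum_add_distrib, ← Finset.sum_add_distrib]
  refine Finset.sum_le_sum fun e _ => ?_
  unfold ci cr
  by_cases h1 : s e ∈ X <;> by_cases h2 : t e ∈ X <;> by_cases h3 : s e ∈ Z <;>
    by_cases h4 : t e ∈ Z <;> simp [h1, h2, h3, h4]

lemma cr_compl {s t : E → V} {vs : Finset V} {e : E} (h1 : s e ∈ vs) (h2 : t e ∈ vs)
    (X : Finset V) : cr s t (vs \ X) e ↔ cr s t X e := by
  unfold cr
  simp only [mem_sdiff, h1, h2, true_and]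
  tauto

lemma cn_compl {s t : E → V} {vs : Finset V} {A : Finset E} (h : ∀ e ∈ A, s e ∈ vs ∧ t e ∈ vs)
    (X : Finset V) : cn s t A (vs \ X) = cn s t A X := by
  unfold cn
  refine Finset.sum_congr rfl fun e he => ?_
  unfold ci
  rw [if_congr (cr_compl (h e he).1 (h e he).2 X) rfl rfl]

/-- hypotheses on the graph and on the join `F` -/
structure Hyp (s t : E → V) (vs : Finset V) (es F : Finset E) : Prop where
  ends : ∀ e ∈ es, s e ∈ vs ∧ t e ∈ vs
  noloop : ∀ e ∈ es, s e ≠ t e
  cubic : ∀ v ∈ vs, cn s t es {v} = 3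
  oddcut : ∀ X ⊆ vs, Odd X.card → 3 ≤ cn s t es X
  sub : F ⊆ es
  join : ∀ v ∈ vs, Odd (cn s t F {v})
  seven : ¬ ∃ Z : Fin 7 → Finset V, (∀ i, Z i ⊆ vs ∧ Odd (Z i).card ∧
    ∀ g ∈ es, cr s t (Z i) g → g ∈ F) ∧ ∀ i j, i ≠ j → Disjoint (Z i) (Z j)

/-- a perfect matching containing `e` whose intersection with `F` contains no odd cut -/
def Concl (s t : E → V) (vs : Finset V) (es F : Finset E) (e : E) : Prop :=
  ∃ M ⊆ es, e ∈ M ∧ (∀ v ∈ vs, cn s t M {v} = 1) ∧
    ∀ Z ⊆ vs, Odd Z.card → ∃ g ∈ es, cr s t Z g ∧ ¬ (g ∈ M ∧ g ∈ F)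

variable {s t : E → V} {vs : Finset V} {es F : Finset E}

lemma Hyp.even_card (h : Hyp s t vs es F) : Even vs.card := by
  have h1 : cn s t es vs = 0 := by
    rw [cn_eq_zero]
    intro e he hc
    exact hc ⟨fun _ => (h.ends e he).2, fun _ => (h.ends e he).1⟩
  by_contra h2
  rw [Nat.not_even_iff_odd] at h2
  have := h.oddcut vs (Finset.Subset.refl _) h2
  omega

lemma Hyp.odd_es (h : Hyp s t vs es F) {X : Finset V} (hX : X ⊆ vs) (ho : Odd X.card) :
    Odd (cn s t es X) := by
  rw [odd_cn h.noloop]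
  · exact ho
  · intro v hv
    rw [h.cubic v (hX hv)]
    decide

lemma Hyp.odd_F (h : Hyp s t vs es F) {X : Finset V} (hX : X ⊆ vs) (ho : Odd X.card) :
    Odd (cn s t F X) := by
  rw [odd_cn fun e he => h.noloop e (h.sub he)]
  · exact ho
  · intro v hv
    exact h.join v (hX hv)

/-- for odd sets, it is impossible that exactly one crossing edge is outside `M ∩ F` -/
lemma Hyp.ne_one (h : Hyp s t vs es F) {M : Finset E} (hM : M ⊆ es)
    (hM1 : ∀ v ∈ vs, cn s t M {v} = 1) {X : Finset V} (hX : X ⊆ vs) (ho : Odd X.card)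
    (hle : cn s t (es.filter fun g => ¬ (g ∈ M ∧ g ∈ F)) X ≤ 1) :
    cn s t (es.filter fun g => ¬ (g ∈ M ∧ g ∈ F)) X = 0 := by
  have e1 := cn_filter_add s t es (fun g => g ∈ M ∧ g ∈ F) X
  have o1 := h.odd_es hX ho
  have o2 := h.odd_F hX ho
  have o3 : Odd (cn s t M X) := by
    rw [odd_cn fun e he => h.noloop e (hM he)]
    · exact ho
    · intro v hv
      rw [hM1 v (hX hv)]
      decide
  by_contra h0
  have h1 : cn s t (es.filter fun g => ¬ (g ∈ M ∧ g ∈ F)) X = 1 := by omega
  set I := es.filter fun g => g ∈ M ∧ g ∈ F with hI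
  have hev : Even (cn s t I X) := by
    rw [h1] at e1
    rw [e1] at o1
    by_contra hc
    rw [Nat.not_even_iff_odd] at hc
    have := hc.add_odd (show Odd 1 by decide)
    rw [← Nat.not_even_iff_odd] at o1
    exact o1 this
  have eM := cn_filter_add s t M (fun g => g ∈ F) X
  have eF := cn_filter_add s t F (fun g => g ∈ M) X
  have i1 : M.filter (fun g => g ∈ F) = I := by
    ext g
    simp only [hI, mem_filter]
    exact ⟨fun h => ⟨hM h.1, h⟩, fun h => h.2⟩
  have i2 : F.filter (fun g => g ∈ M) = I := by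
    ext g
    simp only [hI, mem_filter]
    exact ⟨fun h' => ⟨h.sub h'.1, h'.2, h'.1⟩, fun h => ⟨h.2.2, h.2.1⟩⟩
  rw [i1] at eM
  rw [i2] at eF
  have p1 : Odd (cn s t (M.filter fun g => ¬ g ∈ F) X) := by
    by_contra hc
    rw [Nat.not_odd_iff_even] at hc
    rw [eM, ← Nat.not_even_iff_odd] at o3
    exact o3 (hev.add hc)
  have p2 : Odd (cn s t (F.filter fun g => ¬ g ∈ M) X) := by
    by_contra hc
    rw [Nat.not_odd_iff_even] at hc
    rw [eF, ← Nat.not_even_iff_odd] at o2
    exact o2 (hev.add hc)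
  have hd : Disjoint (M.filter fun g => ¬ g ∈ F) (F.filter fun g => ¬ g ∈ M) := by
    rw [Finset.disjoint_left]
    intro g h1 h2
    exact (mem_filter.1 h1).2 (mem_filter.1 h2).1
  have hsub : (M.filter fun g => ¬ g ∈ F) ∪ (F.filter fun g => ¬ g ∈ M) ⊆
      es.filter fun g => ¬ (g ∈ M ∧ g ∈ F) := by
    intro g hg
    rw [mem_union, mem_filter, mem_filter] at hg
    rw [mem_filter]
    rcases hg with hg | hg
    · exact ⟨hM hg.1, fun h' => hg.2 h'.2⟩
    · exact ⟨h.sub hg.1, fun h' => hg.2 h'.1⟩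
  have hle2 := cn_mono (s := s) (t := t) hsub X
  rw [cn_union hd, h1] at hle2
  obtain ⟨a, ha⟩ := p1
  obtain ⟨b, hb⟩ := p2
  omega

end OddSix
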