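import Pool.Agent.Lib.OddSix.Stk
import Pool.Agent.Lib.EdP.Main

/-! The case of eight odd components without even circuits: the six vertices around the prescribed
edge and two more odd components. -/

set_option autoImplicit false

namespace OddSix

open Finset Classical

variable {V E : Type*} {s t : E → V} {vs : Finset V} {es F : Finset E}

/-- Edmonds' theorem for a finite set of edges -/
lemma b8_lp (ends : ∀ e ∈ es, s e ∈ vs ∧ t e ∈ vs) (noloop : ∀ e ∈ es, s e ≠ t e) {w : E → ℝ}
    (nn : ∀ e ∈ es, 0 ≤ w e)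
    (deg : ∀ v ∈ vs, ∑ e ∈ es, (ci s t {v} e : ℝ) * w e = 1)
    (odd : ∀ X ⊆ vs, Odd X.card → 1 ≤ ∑ e ∈ es, (ci s t X e : ℝ) * w e) (c : E → ℝ) :
    ∃ M ⊆ es, (∀ v ∈ vs, cn s t M {v} = 1) ∧ ∑ e ∈ M, c e ≤ ∑ e ∈ es, w e * c e := by
  let s' : {e // e ∈ es} → V := fun e => s e
  let t' : {e // e ∈ es} → V := fun e => t e
  let w' : {e // e ∈ es} → ℝ := fun e => w e
  have hwt : ∀ X, EdP.wt s' t' w' X = ∑ e ∈ es, (ci s t X e : ℝ) * w e := by
    intro X
    unfold EdP.wt
    rw [← Finset.sum_coe_sort es]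
    refine Finset.sum_congr rfl fun e _ => ?_
    have h1 : OddFour.cr s' t' X e ↔ cr s t X (e : E) := Iff.rfl
    unfold ci
    by_cases hc : cr s t X (e : E)
    · rw [if_pos (h1.2 hc), if_pos hc, Nat.cast_one, one_mul]
    · rw [if_neg (fun h => hc (h1.1 h)), if_neg hc, Nat.cast_zero, zero_mul]
  have hF : EdP.Frac s' t' vs w' :=
    { nn := fun e => nn e e.2
      ends := fun e _ => ⟨(ends e e.2).1, (ends e e.2).2, noloop e e.2⟩
      deg := fun v hv => by rw [hwt]; exact deg v hv
      odd := fun X hX ho => by rw [hwt]; exact odd X hX ho }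
  obtain ⟨M, hM, hc⟩ := EdP.edm _ s' t' vs w' rfl hF (fun e => c e)
  refine ⟨M.map (Function.Embedding.subtype _), ?_, ?_, ?_⟩
  · intro e he
    rw [mem_map] at he
    obtain ⟨x, _, rfl⟩ := he
    exact x.2
  · intro v hv
    have h1 := hM.one v hv
    rw [← h1]
    unfold cn OddFour.cn
    rw [sum_map]
    rfl
  · rw [sum_map]
    refine le_trans hc (le_of_eq ?_)
    rw [← Finset.sum_coe_sort es]

lemma b8_sum {e : E} (he : s e ≠ t e) {W : Finset V} (h1 : s e ∈ W)
    (h2 : t e ∈ W) (c : V → ZMod 2) :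
    ∑ v ∈ W, c v * (ci s t {v} e : ZMod 2) = c (s e) + c (t e) := by
  have h3 : ∀ v, (ci s t {v} e : ZMod 2) = (if v = s e then 1 else 0) +
      (if v = t e then 1 else 0) := by
    intro v
    unfold ci cr
    simp only [mem_singleton]
    by_cases k1 : s e = v
    · have k2 : ¬ t e = v := fun h => he (k1.trans h.symm)
      simp [k1, k2, Ne.symm k2]
    · by_cases k2 : t e = v
      · simp [k1, k2, Ne.symm k1]
      · simp [k1, k2, Ne.symm k1, Ne.symm k2]
  simp only [h3, mul_add, mul_ite, mul_one, mul_zero]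
  rw [Finset.sum_add_distrib, Finset.sum_ite_eq' W (s e), Finset.sum_ite_eq' W (t e), if_pos h1,
    if_pos h2]

/-- joins in a connected graph -/
lemma b8_join {W : Finset V} {D : Finset E} {x : V}
    (hend : ∀ e ∈ D, s e ∈ W ∧ t e ∈ W) (hloop : ∀ e ∈ D, s e ≠ t e)
    (hmin : ∀ Z ⊆ W, (∀ e ∈ D, ¬ cr s t Z e) → Even (Z.erase x).card) :
    ∃ N ⊆ D, ∀ v ∈ W, (cn s t N {v} : ZMod 2) = if v = x then 0 else 1 := by
  let A : (D → ZMod 2) →ₗ[ZMod 2] (W → ZMod 2) :=
    { toFun := fun x v => ∑ e : D, (ci s t {(v : V)} (e : E) : ZMod 2) * x e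
      map_add' := by
        intro x y
        ext v
        simp only [Pi.add_apply, mul_add, Finset.sum_add_distrib]
      map_smul' := by
        intro r x
        ext v
        simp only [Pi.smul_apply, smul_eq_mul, RingHom.id_apply, Finset.mul_sum]
        exact Finset.sum_congr rfl fun e _ => by ring }
  have hA : ∀ x v, A x v = ∑ e : D, (ci s t {(v : V)} (e : E) : ZMod 2) * x e := fun _ _ => rfl
  by_cases hb : (fun v => if (v : V) = x then 0 else 1 : W → ZMod 2) ∈ LinearMap.range A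
  · obtain ⟨y, hy⟩ := hb
    let N : Finset E := D.filter fun e => ∃ h : e ∈ D, y ⟨e, h⟩ = 1
    refine ⟨N, filter_subset _ _, fun v hv => ?_⟩
    have h1 : A y ⟨v, hv⟩ = if v = x then 0 else 1 := by rw [hy]
    rw [hA] at h1
    have h2 : ∑ e : D, (ci s t {v} (e : E) : ZMod 2) * y e = (cn s t N {v} : ZMod 2) := by
      unfold cn
      rw [Nat.cast_sum, Finset.sum_filter]
      rw [← Finset.sum_coe_sort D]
      refine Finset.sum_congr rfl fun e _ => ?_
      by_cases h3 : y e = 1
      · have h4 : ∃ h : (e : E) ∈ D, y ⟨(e : E), h⟩ = 1 := ⟨e.2, h3⟩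
        rw [if_pos h4, h3, mul_one]
      · have h4 : ¬ ∃ h : (e : E) ∈ D, y ⟨(e : E), h⟩ = 1 := fun ⟨_, h5⟩ => h3 h5
        have h6 : y e = 0 := by
          have : ∀ z : ZMod 2, z ≠ 1 → z = 0 := by decide
          exact this _ h3
        rw [if_neg h4, h6, mul_zero]
    rw [← h2]
    exact h1
  · exfalso
    obtain ⟨f, hf, hle⟩ := Submodule.exists_le_ker_of_notMem hb
    have hf0 : ∀ x, f (A x) = 0 := fun x => hle (LinearMap.mem_range_self A x)
    let c : V → ZMod 2 := fun v => if h : v ∈ W then f (Pi.single ⟨v, h⟩ 1) else 0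
    have hfc : ∀ y : W → ZMod 2, f y = ∑ v : W, c v * y v := by
      intro y
      have h1 : y = ∑ v : W, y v • (Pi.single v (1 : ZMod 2) : W → ZMod 2) := by
        ext w
        simp [Finset.sum_apply, Pi.single_apply]
      conv_lhs => rw [h1]
      rw [map_sum]
      refine Finset.sum_congr rfl fun v _ => ?_
      rw [map_smul, smul_eq_mul, mul_comm]
      congr 1
      simp only [c]
      rw [dif_pos v.2]
    let Z : Finset V := W.filter fun v => c v = 1
    have hZ : ∀ v ∈ W, (v ∈ Z ↔ c v = 1) := fun v hv => by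
      simp only [Z, mem_filter, hv, true_and]
    have h01 : ∀ z : ZMod 2, z ≠ 1 → z = 0 := by decide
    have hcr : ∀ e ∈ D, ¬ cr s t Z e := by
      intro e he
      obtain ⟨h1, h2⟩ := hend e he
      have h3 := hf0 (Pi.single ⟨e, he⟩ 1)
      rw [hfc] at h3
      have h4 : ∀ v : W, A (Pi.single ⟨e, he⟩ 1) v = (ci s t {(v : V)} e : ZMod 2) := by
        intro v
        rw [hA]
        rw [Finset.sum_eq_single (⟨e, he⟩ : D)]
        · rw [Pi.single_eq_same, mul_one]
        · intro b _ hb'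
          rw [Pi.single_eq_of_ne hb', mul_zero]
        · intro h5
          exact absurd (mem_univ _) h5
      simp only [h4] at h3
      rw [Finset.sum_coe_sort W (fun v => c v * (ci s t {v} e : ZMod 2))] at h3
      rw [b8_sum (hloop e he) h1 h2] at h3
      unfold cr
      rw [not_not, hZ _ h1, hZ _ h2]
      constructor
      · intro h5
        by_contra h6
        rw [h5, h01 _ h6] at h3
        exact absurd h3 (by decide)
      · intro h5
        by_contra h6
        rw [h5, h01 _ h6] at h3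
        exact absurd h3 (by decide)
    have hev := hmin Z (filter_subset _ _) hcr
    apply hf
    rw [hfc]
    rw [Finset.sum_coe_sort W (fun v => c v * (if v = x then (0 : ZMod 2) else 1))]
    have h5 : ∑ v ∈ W, c v * (if v = x then (0 : ZMod 2) else 1) = ((Z.erase x).card : ZMod 2) := by
      have e1 : Z.erase x = W.filter fun v => c v = 1 ∧ v ≠ x := by
        ext v
        simp only [Z, mem_erase, mem_filter]
        tauto
      rw [e1, card_filter, Nat.cast_sum]
      refine Finset.sum_congr rfl fun v hv => ?_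
      by_cases h7 : v = x
      · rw [if_pos h7, mul_zero, if_neg (fun h => h.2 h7), Nat.cast_zero]
      · rw [if_neg h7, mul_one]
        by_cases h6 : c v = 1
        · rw [if_pos ⟨h6, h7⟩, h6, Nat.cast_one]
        · rw [if_neg (fun h => h6 h.1), h01 _ h6, Nat.cast_zero]
    rw [h5]
    obtain ⟨k, hk⟩ := hev
    rw [hk, Nat.cast_add]
    have : ∀ z : ZMod 2, z + z = 0 := by decide
    exact this _

/-- an odd circuit has a matching that misses exactly the vertex `x` -/
lemma b8_near {W : Finset V} {D : Finset E} {x : V} (hx : x ∈ W) (ho : Odd W.card)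
    (hend : ∀ e ∈ D, s e ∈ W ∧ t e ∈ W) (hloop : ∀ e ∈ D, s e ≠ t e)
    (hdeg : ∀ v ∈ W, cn s t D {v} = 2)
    (hmin : ∀ Z ⊆ W, (∀ e ∈ D, ¬ cr s t Z e) → Z = ∅ ∨ Z = W) :
    ∃ N ⊆ D, cn s t N {x} = 0 ∧ ∀ v ∈ W, v ≠ x → cn s t N {v} = 1 := by
  obtain ⟨N, hN, hN1⟩ := b8_join (s := s) (t := t) (W := W) (D := D) (x := x) hend hloop (by
    intro Z hZ hc
    rcases hmin Z hZ hc with rfl | rfl
    · simp
    · rw [card_erase_of_mem hx]
      obtain ⟨k, hk⟩ := ho
      exact ⟨k, by omega⟩)
  have hle : ∀ v ∈ W, cn s t N {v} ≤ 2 := by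
    intro v hv
    rw [← hdeg v hv]
    exact cn_mono hN _
  have hsplit : ∀ v ∈ W, cn s t (D \ N) {v} + cn s t N {v} = 2 := by
    intro v hv
    rw [← hdeg v hv, ← cn_union sdiff_disjoint, sdiff_union_of_subset hN]
  have hone : ∀ v ∈ W, v ≠ x → cn s t N {v} = 1 := by
    intro v hv hvx
    have h1 := hN1 v hv
    rw [if_neg hvx] at h1
    have h2 := hle v hv
    have h4 : cn s t N {v} = 0 ∨ cn s t N {v} = 1 ∨ cn s t N {v} = 2 := by omega
    rcases h4 with h4 | h4 | h4
    · rw [h4] at h1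
      exact absurd h1 (by decide)
    · exact h4
    · rw [h4] at h1
      exact absurd h1 (by decide)
  have h1 := hN1 x hx
  rw [if_pos rfl] at h1
  have h2 := hle x hx
  have h4 : cn s t N {x} = 0 ∨ cn s t N {x} = 1 ∨ cn s t N {x} = 2 := by omega
  rcases h4 with h4 | h4 | h4
  · exact ⟨N, hN, h4, hone⟩
  · rw [h4] at h1
    exact absurd h1 (by decide)
  · refine ⟨D \ N, sdiff_subset, ?_, fun v hv hvx => ?_⟩
    · have := hsplit x hx
      omega
    · have := hsplit v hv
      have := hone v hv hvx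
      omega

/-- the hypotheses on the graph, without the bound on the number of odd components -/
structure HypB (s t : E → V) (vs : Finset V) (es F : Finset E) : Prop where
  ends : ∀ e ∈ es, s e ∈ vs ∧ t e ∈ vs
  noloop : ∀ e ∈ es, s e ≠ t e
  cubic : ∀ v ∈ vs, cn s t es {v} = 3
  oddcut : ∀ X ⊆ vs, Odd X.card → 3 ≤ cn s t es X
  sub : F ⊆ es
  join : ∀ v ∈ vs, Odd (cn s t F {v})
  hcut : ∀ X ⊆ vs, Odd X.card → 3 ≤ X.card → X.card + 3 ≤ vs.card → cn s t es X ≠ 3

lemma HypB.odd_es (h : HypB s t vs es F) {X : Finset V} (hX : X ⊆ vs) (ho : Odd X.card) :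
    Odd (cn s t es X) := by
  rw [odd_cn h.noloop]
  · exact ho
  · intro v hv
    rw [h.cubic v (hX hv)]
    decide

lemma HypB.odd_M (h : HypB s t vs es F) {M : Finset E} (hM : M ⊆ es)
    (hM1 : ∀ v ∈ vs, cn s t M {v} = 1) {X : Finset V} (hX : X ⊆ vs) (ho : Odd X.card) :
    Odd (cn s t M X) := by
  rw [odd_cn fun e he => h.noloop e (hM he)]
  · exact ho
  · intro v hv
    rw [hM1 v (hX hv)]
    decide

/-- more edges cross than matching edges -/
lemma b8_lt {M : Finset E} {X : Finset V} (h : cn s t M X < cn s t es X) :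
    ∃ g ∈ es, cr s t X g ∧ g ∉ M := by
  by_contra hcon
  have : cn s t es X ≤ cn s t M X := by
    rw [cn_eq_card, cn_eq_card]
    refine card_le_card fun g hg => ?_
    rw [mem_filter] at hg ⊢
    refine ⟨?_, hg.2⟩
    by_contra hn
    exact hcon ⟨g, hg.1, hg.2, hn⟩
  omega

lemma b8_le_sum {M : Finset E} (hM : ∀ e ∈ M, s e ≠ t e) (X : Finset V) :
    cn s t M X ≤ ∑ v ∈ X, cn s t M {v} := by
  rw [sum_cn hM X]
  omega

/-- the weight `1/3` -/
lemma HypB.third (h : HypB s t vs es F) (c : E → ℝ) :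
    ∃ M ⊆ es, (∀ v ∈ vs, cn s t M {v} = 1) ∧ ∑ e ∈ M, c e ≤ (∑ e ∈ es, c e) / 3 := by
  have hs : ∀ X, ∑ e ∈ es, (ci s t X e : ℝ) * (1 / 3) = (cn s t es X : ℝ) / 3 := by
    intro X
    rw [← Finset.sum_mul]
    unfold cn
    push_cast
    ring
  obtain ⟨M, hM, h1, h2⟩ := b8_lp (s := s) (t := t) (vs := vs) (es := es) h.ends h.noloop
    (w := fun _ => 1 / 3) (fun _ _ => by norm_num)
    (fun v hv => by
      rw [hs, h.cubic v hv]
      norm_num)
    (fun X hX ho => by
      rw [hs]
      have : (3 : ℝ) ≤ cn s t es X := by exact_mod_cast h.oddcut X hX ho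
      linarith) c
  refine ⟨M, hM, h1, le_trans h2 (le_of_eq ?_)⟩
  rw [← Finset.mul_sum]
  ring

/-- the weights `(3 + h) / 9` -/
lemma HypB.ninth (h : HypB s t vs es F) {N : Finset E} {g : E} (hg : g ∈ F)
    (hN : N ⊆ es \ F)
    (hdeg : ∀ v ∈ vs, cn s t (es \ F) {v} = 2 * cn s t N {v} + 2 * ci s t {v} g) (c : E → ℝ) :
    ∃ M ⊆ es, (∀ v ∈ vs, cn s t M {v} = 1) ∧ ∑ e ∈ M, c e ≤
      ∑ e ∈ es, ((3 - 2 * (if e = g then 1 else 0) + (if e ∈ es \ F then 1 else 0) -
        2 * (if e ∈ N then 1 else 0)) / 9) * c e := by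
  have hges : g ∈ es := h.sub hg
  have hsum : ∀ (A : Finset E), A ⊆ es → ∀ X, ∑ e ∈ es, (ci s t X e : ℝ) *
      (if e ∈ A then 1 else 0) = cn s t A X := by
    intro A hA X
    unfold cn
    rw [Nat.cast_sum, ← Finset.sum_subset hA (f := fun e => (ci s t X e : ℝ) *
      (if e ∈ A then 1 else 0))]
    · refine Finset.sum_congr rfl fun e he => ?_
      rw [if_pos he, mul_one]
    · intro e _ he
      rw [if_neg he, mul_zero]
  have hs : ∀ X, ∑ e ∈ es, (ci s t X e : ℝ) *
      ((3 - 2 * (if e = g then 1 else 0) + (if e ∈ es \ F then 1 else 0) -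
        2 * (if e ∈ N then 1 else 0)) / 9) =
      (3 * (cn s t es X : ℝ) - 2 * ci s t X g + cn s t (es \ F) X - 2 * cn s t N X) / 9 := by
    intro X
    have e1 := hsum es (Subset.refl _) X
    have e2 := hsum (es \ F) sdiff_subset X
    have e3 := hsum N (hN.trans sdiff_subset) X
    have e4 := hsum {g} (singleton_subset_iff.2 hges) X
    have e5 : cn s t {g} X = ci s t X g := by
      unfold cn
      rw [sum_singleton]
    rw [← e1, ← e2, ← e3, ← e5, ← e4, Finset.mul_sum, Finset.mul_sum, Finset.mul_sum,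
      ← Finset.sum_sub_distrib, ← Finset.sum_add_distrib, ← Finset.sum_sub_distrib,
      Finset.sum_div]
    refine Finset.sum_congr rfl fun e he => ?_
    simp only [mem_singleton, if_pos he]
    ring
  have hcle : ∀ X, cn s t (es \ F) X + ci s t X g ≤ cn s t es X := by
    intro X
    have h1 : g ∉ es \ F := fun h' => (mem_sdiff.1 h').2 hg
    rw [add_comm, ← cn_insert h1]
    exact cn_mono (insert_subset hges sdiff_subset) X
  have hdeg' : ∀ v ∈ vs, ∑ e ∈ es, (ci s t {v} e : ℝ) *
      ((3 - 2 * (if e = g then 1 else 0) + (if e ∈ es \ F then 1 else 0) -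
        2 * (if e ∈ N then 1 else 0)) / 9) = 1 := by
    intro v hv
    rw [hs, h.cubic v hv, hdeg v hv]
    push_cast
    ring
  refine b8_lp h.ends h.noloop ?_ hdeg' ?_ c
  · intro e _
    have h1 : e = g → e ∉ N := by
      rintro rfl h'
      exact (mem_sdiff.1 (hN h')).2 hg
    by_cases k1 : e = g
    · rw [if_pos k1, if_neg (h1 k1)]
      split_ifs <;> norm_num
    · rw [if_neg k1]
      split_ifs <;> norm_num
  · intro X hX ho
    have hodd := h.odd_es hX ho
    have h3 := h.oddcut X hX ho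
    by_cases h5 : 5 ≤ cn s t es X
    · rw [hs]
      have k1 : (5 : ℝ) ≤ cn s t es X := by exact_mod_cast h5
      have k2 : (cn s t (es \ F) X : ℝ) + ci s t X g ≤ cn s t es X := by exact_mod_cast hcle X
      have k3 : (cn s t N X : ℝ) ≤ cn s t (es \ F) X := by exact_mod_cast cn_mono hN X
      have k4 : (ci s t X g : ℝ) ≤ 1 := by exact_mod_cast ci_le_one s t X g
      linarith
    · have h33 : cn s t es X = 3 := by
        obtain ⟨k, hk⟩ := hodd
        omega
      have hcomp : ∑ e ∈ es, (ci s t X e : ℝ) *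
          ((3 - 2 * (if e = g then 1 else 0) + (if e ∈ es \ F then 1 else 0) -
            2 * (if e ∈ N then 1 else 0)) / 9) = ∑ e ∈ es, (ci s t (vs \ X) e : ℝ) *
          ((3 - 2 * (if e = g then 1 else 0) + (if e ∈ es \ F then 1 else 0) -
            2 * (if e ∈ N then 1 else 0)) / 9) := by
        refine Finset.sum_congr rfl fun e he => ?_
        have : ci s t (vs \ X) e = ci s t X e := by
          unfold ci
          rw [if_congr (cr_compl (h.ends e he).1 (h.ends e he).2 X) rfl rfl]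
        rw [this]
      have hev : Even vs.card := by
        have h1 : cn s t es vs = 0 := by
          rw [cn_eq_zero]
          intro e he hc
          exact hc ⟨fun _ => (h.ends e he).2, fun _ => (h.ends e he).1⟩
        by_contra h2
        rw [Nat.not_even_iff_odd] at h2
        have := h.oddcut vs (Finset.Subset.refl _) h2
        omega
      have hle := card_le_card hX
      have hcs := card_sdiff_of_subset hX
      have hlt : X.card < 3 ∨ vs.card < X.card + 3 := by
        by_contra hcon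
        rw [not_or, not_lt, not_lt] at hcon
        exact h.hcut X hX ho hcon.1 hcon.2 h33
      rcases hlt with h1 | h1
      · have h2 : X.card = 1 := by
          obtain ⟨k, hk⟩ := ho
          omega
        obtain ⟨v, rfl⟩ := card_eq_one.1 h2
        rw [hdeg' v (hX (mem_singleton_self v))]
      · have h2 : (vs \ X).card = 1 := by
          obtain ⟨k, hk⟩ := ho
          obtain ⟨l, hl⟩ := hev
          omega
        obtain ⟨v, hv⟩ := card_eq_one.1 h2
        have hvv : v ∈ vs := by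
          have : v ∈ vs \ X := by rw [hv]; exact mem_singleton_self v
          exact (mem_sdiff.1 this).1
        rw [hcomp, hv, hdeg' v hvv]

/-- two different edges of `M` at one vertex -/
lemma b8_uniq {M : Finset E} {v : V} (h : cn s t M {v} = 1) {g g' : E} (hg : g ∈ M) (hg' : g' ∈ M)
    (hc : cr s t {v} g) (hc' : cr s t {v} g') : g = g' := by
  obtain ⟨g0, -, -, h0⟩ := cn_eq_one_unique' h
  rw [h0 g hg hc, h0 g' hg' hc']

lemma b8_ends_cr {g : E} {x y : V} (h : Ends s t g x y) (hxy : x ≠ y) :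
    cr s t {x} g ∧ cr s t {y} g := by
  rw [h.cr, h.cr]
  simp [hxy, hxy.symm]

/-- a set of three vertices -/
lemma HypB.tri (h : HypB s t vs es F) {M : Finset E} (hM : M ⊆ es)
    (hM1 : ∀ v ∈ vs, cn s t M {v} = 1) {A : Finset V} (hA : A ⊆ vs) (h3 : A.card = 3)
    (h6 : 6 ≤ vs.card) : ∃ g ∈ es, cr s t A g ∧ g ∉ M := by
  refine b8_lt ?_
  have h1 := h.oddcut A hA (by rw [h3]; decide)
  have h2 := h.hcut A hA (by rw [h3]; decide) (by omega) (by omega)
  have h4 := b8_le_sum (fun e he => h.noloop e (hM he)) A (M := M)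
  rw [sum_congr rfl fun v hv => hM1 v (hA hv), sum_const, smul_eq_mul, mul_one, h3] at h4
  omega

/-- the two remaining odd components are not full: enough for the conclusion -/
lemma HypB.concl (h : HypB s t vs es F) {R : Tree V E}
    (nd : [R.a, R.b, R.p, R.q, R.p', R.q'].Nodup) (sub : R.T ⊆ vs)
    (E0 : Ends s t R.e R.a R.b) (E1 : Ends s t R.e1 R.a R.p) (E2 : Ends s t R.e2 R.a R.q)
    (E3 : Ends s t R.e3 R.b R.p') (E4 : Ends s t R.e4 R.b R.q')
    (m1 : R.e1 ∈ es) (m2 : R.e2 ∈ es) (m3 : R.e3 ∈ es) (m4 : R.e4 ∈ es)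
    {O1 O2 : Finset V} (o1 : Odd O1.card) (o2 : Odd O2.card)
    (d12 : Disjoint O1 O2) (d1 : Disjoint O1 R.T) (d2 : Disjoint O2 R.T)
    (hvs : ∀ v ∈ vs, v ∈ R.T ∨ v ∈ O1 ∨ v ∈ O2)
    (min1 : ∀ X, Cl s t vs es F X → O1 ⊆ X ∨ Disjoint O1 X)
    (min2 : ∀ X, Cl s t vs es F X → O2 ⊆ X ∨ Disjoint O2 X)
    {M : Finset E} (hM : M ⊆ es) (heM : R.e ∈ M) (hM1 : ∀ v ∈ vs, cn s t M {v} = 1)
    (f1 : ∃ g ∈ es, cr s t O1 g ∧ g ∉ M) (f2 : ∃ g ∈ es, cr s t O2 g ∧ g ∉ M) :
    Concl s t vs es F R.e := by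
  have hT : ∀ v, v ∈ R.T ↔ v = R.a ∨ v = R.b ∨ v = R.p ∨ v = R.q ∨ v = R.p' ∨ v = R.q' := by
    intro v
    unfold Tree.T
    simp only [mem_insert, mem_singleton]
  simp only [List.nodup_cons, List.mem_cons, List.not_mem_nil, or_false, not_or,
    not_false_eq_true, List.nodup_nil, and_true] at nd
  obtain ⟨⟨ab, ap, aq, ap', aq'⟩, ⟨bp, bq, bp', bq'⟩, ⟨pq, pp', pq'⟩, ⟨qp', qq'⟩, p'q'⟩ := nd
  have va : R.a ∈ vs := sub ((hT _).2 (by simp))
  have vb : R.b ∈ vs := sub ((hT _).2 (by simp))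
  set A : Finset V := {R.a, R.p, R.q} with hA
  set B : Finset V := {R.b, R.p', R.q'} with hB
  have hmA : ∀ v, v ∈ A ↔ v = R.a ∨ v = R.p ∨ v = R.q := by
    intro v
    rw [hA]
    simp only [mem_insert, mem_singleton]
  have hmB : ∀ v, v ∈ B ↔ v = R.b ∨ v = R.p' ∨ v = R.q' := by
    intro v
    rw [hB]
    simp only [mem_insert, mem_singleton]
  have cA : A.card = 3 := card_eq_three.2 ⟨_, _, _, ap, aq, pq, rfl⟩
  have cB : B.card = 3 := card_eq_three.2 ⟨_, _, _, bp', bq', p'q', rfl⟩
  have sA : A ⊆ vs := by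
    intro v hv
    refine sub ((hT v).2 ?_)
    rcases (hmA v).1 hv with k | k | k <;> simp [k]
  have sB : B ⊆ vs := by
    intro v hv
    refine sub ((hT v).2 ?_)
    rcases (hmB v).1 hv with k | k | k <;> simp [k]
  have dAB : Disjoint A B := by
    rw [disjoint_left]
    intro v h1 h2
    rcases (hmA v).1 h1 with k | k | k <;> rcases (hmB v).1 h2 with k' | k' | k' <;>
      rw [k] at k' <;>
      first
        | exact ab k' | exact ap' k' | exact aq' k' | exact bp k'.symm | exact pp' k'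
        | exact pq' k' | exact bq k'.symm | exact qp' k' | exact qq' k'
  have hAB : ∀ v ∈ vs, v ∈ A ∨ v ∈ B ∨ v ∈ O1 ∨ v ∈ O2 := by
    intro v hv
    rw [hmA, hmB]
    rcases hvs v hv with k | k | k
    · rw [hT] at k
      tauto
    · tauto
    · tauto
  have dAT : ∀ v ∈ A, v ∈ R.T := by
    intro v hv
    rw [hT]
    rcases (hmA v).1 hv with k | k | k <;> simp [k]
  have dBT : ∀ v ∈ B, v ∈ R.T := by
    intro v hv
    rw [hT]
    rcases (hmB v).1 hv with k | k | k <;> simp [k]
  have h6 : 6 ≤ vs.card := by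
    have k1 := card_le_card (union_subset sA sB)
    rw [card_union_of_disjoint dAB, cA, cB] at k1
    exact k1
  refine ⟨M, hM, heM, hM1, ?_⟩
  intro Z hZ hZo
  by_contra hcon
  have hall : ∀ g ∈ es, cr s t Z g → g ∈ M ∧ g ∈ F := by
    intro g hg hc
    by_contra hn
    exact hcon ⟨g, hg, hc, hn⟩
  have hCl : Cl s t vs es F Z := ⟨hZ, fun g hg hc => (hall g hg hc).2⟩
  -- the sides of the tree
  have same : ∀ {g : E} {x y : V}, g ∈ es → Ends s t g x y → x ∈ vs → x ≠ y → cr s t {x} R.e →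
      g ≠ R.e → (y ∈ Z ↔ x ∈ Z) := by
    intro g x y hg hE hx hxy hce hne
    by_contra hn
    have h1 : cr s t Z g := by
      rw [hE.cr]
      exact fun h' => hn h'.symm
    exact hne (b8_uniq (hM1 x hx) (hall g hg h1).1 heM (b8_ends_cr hE hxy).1 hce)
  have eca : cr s t {R.a} R.e := (b8_ends_cr E0 ab).1
  have ecb : cr s t {R.b} R.e := (b8_ends_cr E0 ab).2
  have ncp : ∀ {g : E} {x : V}, x ≠ R.a → x ≠ R.b → (∀ y, y = R.a ∨ y = R.b →
      Ends s t g y x → y ≠ x → g ≠ R.e) := by
    intro g x h1 h2 y _ hE hyx hge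
    have h3 := (b8_ends_cr hE hyx).2
    rw [hge, E0.cr] at h3
    simp [Ne.symm h1, Ne.symm h2] at h3
  have zA : ∀ v ∈ A, (v ∈ Z ↔ R.a ∈ Z) := by
    intro v hv
    rcases (hmA v).1 hv with k | k | k
    · rw [k]
    · rw [k]
      exact same m1 E1 va ap eca (ncp (Ne.symm ap) (Ne.symm bp) _ (Or.inl rfl) E1 ap)
    · rw [k]
      exact same m2 E2 va aq eca (ncp (Ne.symm aq) (Ne.symm bq) _ (Or.inl rfl) E2 aq)
  have zB : ∀ v ∈ B, (v ∈ Z ↔ R.b ∈ Z) := by
    intro v hv
    rcases (hmB v).1 hv with k | k | k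
    · rw [k]
    · rw [k]
      exact same m3 E3 vb bp' ecb (ncp (Ne.symm ap') (Ne.symm bp') _ (Or.inr rfl) E3 bp')
    · rw [k]
      exact same m4 E4 vb bq' ecb (ncp (Ne.symm aq') (Ne.symm bq') _ (Or.inr rfl) E4 bq')
  have z1 : ∀ v ∈ O1, (v ∈ Z ↔ O1 ⊆ Z) := by
    intro v hv
    rcases min1 Z hCl with k | k
    · exact ⟨fun _ => k, fun _ => k hv⟩
    · exact ⟨fun h' => absurd h' (disjoint_left.1 k hv), fun h' => h' hv⟩
  have z2 : ∀ v ∈ O2, (v ∈ Z ↔ O2 ⊆ Z) := by
    intro v hv
    rcases min2 Z hCl with k | k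
    · exact ⟨fun _ => k, fun _ => k hv⟩
    · exact ⟨fun h' => absurd h' (disjoint_left.1 k hv), fun h' => h' hv⟩
  -- disjointness as membership
  have nA1 : ∀ v ∈ A, v ∉ O1 := fun v hv h' => disjoint_left.1 d1 h' (dAT v hv)
  have nA2 : ∀ v ∈ A, v ∉ O2 := fun v hv h' => disjoint_left.1 d2 h' (dAT v hv)
  have nB1 : ∀ v ∈ B, v ∉ O1 := fun v hv h' => disjoint_left.1 d1 h' (dBT v hv)
  have nB2 : ∀ v ∈ B, v ∉ O2 := fun v hv h' => disjoint_left.1 d2 h' (dBT v hv)
  have nAB : ∀ v ∈ A, v ∉ B := fun v hv h' => disjoint_left.1 dAB hv h'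
  have n12 : ∀ v ∈ O1, v ∉ O2 := fun v hv h' => disjoint_left.1 d12 hv h'
  -- the number of vertices
  have hcard : Z.card = (if R.a ∈ Z then 3 else 0) + (if R.b ∈ Z then 3 else 0) +
      (if O1 ⊆ Z then O1.card else 0) + (if O2 ⊆ Z then O2.card else 0) := by
    have part : ∀ (Y : Finset V) (P : Prop) (n : ℕ), (∀ v ∈ Y, (v ∈ Z ↔ P)) → Y.card = n →
        (Z ∩ Y).card = if P then n else 0 := by
      intro Y P n h1 h2
      by_cases hP : P
      · rw [if_pos hP, ← h2]
        congr 1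
        ext v
        rw [mem_inter]
        exact ⟨fun h' => h'.2, fun h' => ⟨(h1 v h').2 hP, h'⟩⟩
      · rw [if_neg hP, card_eq_zero]
        ext v
        rw [mem_inter]
        exact ⟨fun h' => absurd ((h1 v h'.2).1 h'.1) hP, fun h' => absurd h' (notMem_empty v)⟩
    have e1 : Z = Z ∩ A ∪ Z ∩ B ∪ Z ∩ O1 ∪ Z ∩ O2 := by
      ext v
      simp only [mem_union, mem_inter]
      constructor
      · intro h'
        have := hAB v (hZ h')
        tauto
      · tauto
    have c1 : Disjoint (Z ∩ A) (Z ∩ B) := by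
      rw [disjoint_left]
      intro v k1 k2
      exact nAB v (mem_inter.1 k1).2 (mem_inter.1 k2).2
    have c2 : Disjoint (Z ∩ A ∪ Z ∩ B) (Z ∩ O1) := by
      rw [disjoint_left]
      intro v k1 k2
      rw [mem_union, mem_inter, mem_inter] at k1
      rcases k1 with k1 | k1
      · exact nA1 v k1.2 (mem_inter.1 k2).2
      · exact nB1 v k1.2 (mem_inter.1 k2).2
    have c3 : Disjoint (Z ∩ A ∪ Z ∩ B ∪ Z ∩ O1) (Z ∩ O2) := by
      rw [disjoint_left]
      intro v k1 k2
      rw [mem_union, mem_union, mem_inter, mem_inter, mem_inter] at k1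
      rcases k1 with (k1 | k1) | k1
      · exact nA2 v k1.2 (mem_inter.1 k2).2
      · exact nB2 v k1.2 (mem_inter.1 k2).2
      · exact n12 v k1.2 (mem_inter.1 k2).2
    have e2 : Z.card = (Z ∩ A).card + (Z ∩ B).card + (Z ∩ O1).card + (Z ∩ O2).card := by
      conv_lhs => rw [e1]
      rw [card_union_of_disjoint c3, card_union_of_disjoint c2, card_union_of_disjoint c1]
    rw [e2, part A _ 3 zA cA, part B _ 3 zB cB, part O1 _ _ z1 rfl, part O2 _ _ z2 rfl]
    split_ifs <;> rfl
  -- `Z` or its complement is one of four sets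
  have fin : ∀ Y : Finset V, (∃ g ∈ es, cr s t Y g ∧ g ∉ M) →
      ((∀ v ∈ vs, (v ∈ Z ↔ v ∈ Y)) ∨ (∀ v ∈ vs, (v ∈ Z ↔ v ∉ Y))) → False := by
    rintro Y ⟨g, hg, hc, hgM⟩ hY
    have he := h.ends g hg
    have : cr s t Z g := by
      unfold cr at hc ⊢
      rcases hY with hY | hY
      · rw [hY _ he.1, hY _ he.2]
        exact hc
      · rw [hY _ he.1, hY _ he.2]
        tauto
    exact hgM (hall g hg this).1
  have fA := h.tri hM hM1 sA cA h6
  have fB := h.tri hM hM1 sB cB h6
  obtain ⟨k0, hk0⟩ := hZo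
  obtain ⟨k3, hk3⟩ := o1
  obtain ⟨k4, hk4⟩ := o2
  by_cases ka : R.a ∈ Z <;> by_cases kb : R.b ∈ Z <;> by_cases k1 : O1 ⊆ Z <;>
    by_cases k2 : O2 ⊆ Z <;>
    simp only [ka, kb, k1, k2, if_true, if_false, iff_true, iff_false] at hcard zA zB z1 z2
  · omega
  · refine fin O2 f2 (Or.inr fun v hv => ?_)
    rcases hAB v hv with k | k | k | k
    · exact ⟨fun _ => nA2 v k, fun _ => zA v k⟩
    · exact ⟨fun _ => nB2 v k, fun _ => zB v k⟩
    · exact ⟨fun _ => n12 v k, fun _ => z1 v k⟩
    · exact ⟨fun h' => absurd h' (z2 v k), fun h' => absurd k h'⟩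
  · refine fin O1 f1 (Or.inr fun v hv => ?_)
    rcases hAB v hv with k | k | k | k
    · exact ⟨fun _ => nA1 v k, fun _ => zA v k⟩
    · exact ⟨fun _ => nB1 v k, fun _ => zB v k⟩
    · exact ⟨fun h' => absurd h' (z1 v k), fun h' => absurd k h'⟩
    · exact ⟨fun _ h' => n12 v h' k, fun _ => z2 v k⟩
  · omega
  · refine fin B fB (Or.inr fun v hv => ?_)
    rcases hAB v hv with k | k | k | k
    · exact ⟨fun _ => nAB v k, fun _ => zA v k⟩
    · exact ⟨fun h' => absurd h' (zB v k), fun h' => absurd k h'⟩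
    · exact ⟨fun _ h' => nB1 v h' k, fun _ => z1 v k⟩
    · exact ⟨fun _ h' => nB2 v h' k, fun _ => z2 v k⟩
  · omega
  · omega
  · refine fin A fA (Or.inl fun v hv => ?_)
    rcases hAB v hv with k | k | k | k
    · exact ⟨fun _ => k, fun _ => zA v k⟩
    · exact ⟨fun h' => absurd h' (zB v k), fun h' => absurd k (nAB v h')⟩
    · exact ⟨fun h' => absurd h' (z1 v k), fun h' => absurd k (nA1 v h')⟩
    · exact ⟨fun h' => absurd h' (z2 v k), fun h' => absurd k (nA2 v h')⟩
  · refine fin A fA (Or.inr fun v hv => ?_)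
    rcases hAB v hv with k | k | k | k
    · exact ⟨fun h' => absurd h' (zA v k), fun h' => absurd k h'⟩
    · exact ⟨fun _ h' => nAB v h' k, fun _ => zB v k⟩
    · exact ⟨fun _ h' => nA1 v h' k, fun _ => z1 v k⟩
    · exact ⟨fun _ h' => nA2 v h' k, fun _ => z2 v k⟩
  · omega
  · omega
  · refine fin B fB (Or.inl fun v hv => ?_)
    rcases hAB v hv with k | k | k | k
    · exact ⟨fun h' => absurd h' (zA v k), fun h' => absurd h' (nAB v k)⟩
    · exact ⟨fun _ => k, fun _ => zB v k⟩
    · exact ⟨fun h' => absurd h' (z1 v k), fun h' => absurd k (nB1 v h')⟩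
    · exact ⟨fun h' => absurd h' (z2 v k), fun h' => absurd k (nB2 v h')⟩
  · omega
  · refine fin O1 f1 (Or.inl fun v hv => ?_)
    rcases hAB v hv with k | k | k | k
    · exact ⟨fun h' => absurd h' (zA v k), fun h' => absurd h' (nA1 v k)⟩
    · exact ⟨fun h' => absurd h' (zB v k), fun h' => absurd h' (nB1 v k)⟩
    · exact ⟨fun _ => k, fun _ => z1 v k⟩
    · exact ⟨fun h' => absurd h' (z2 v k), fun h' => absurd k (n12 v h')⟩
  · refine fin O2 f2 (Or.inl fun v hv => ?_)
    rcases hAB v hv with k | k | k | k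
    · exact ⟨fun h' => absurd h' (zA v k), fun h' => absurd h' (nA2 v k)⟩
    · exact ⟨fun h' => absurd h' (zB v k), fun h' => absurd h' (nB2 v k)⟩
    · exact ⟨fun h' => absurd h' (z1 v k), fun h' => absurd h' (n12 v k)⟩
    · exact ⟨fun _ => k, fun _ => z2 v k⟩
  · omega

/-- a single vertex is never full -/
lemma HypB.single (h : HypB s t vs es F) {M : Finset E} (hM1 : ∀ v ∈ vs, cn s t M {v} = 1)
    {O : Finset V} (hO : O ⊆ vs) (h1 : O.card = 1) : ∃ g ∈ es, cr s t O g ∧ g ∉ M := by
  obtain ⟨v, rfl⟩ := card_eq_one.1 h1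
  have hv := hO (mem_singleton_self v)
  refine b8_lt ?_
  rw [hM1 v hv, h.cubic v hv]
  decide

/-- a perfect matching with `e` that does not contain all edges leaving `O` -/
lemma HypB.cost (h : HypB s t vs es F) {e : E} (he : e ∈ es) {O : Finset V} (hO : O ⊆ vs)
    (ho : Odd O.card) : ∃ M ⊆ es, e ∈ M ∧ (∀ v ∈ vs, cn s t M {v} = 1) ∧
      ∃ g ∈ es, cr s t O g ∧ g ∉ M := by
  set d : ℕ := cn s t es O with hd
  have hd3 : 3 ≤ d := h.oddcut O hO ho
  obtain ⟨M, hM, hM1, hc⟩ := h.third (fun g => (ci s t O g : ℝ) - (if g = e then (d : ℝ) - 1 else 0))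
  have e1 : ∀ A : Finset E, ∑ g ∈ A, ((ci s t O g : ℝ) - (if g = e then (d : ℝ) - 1 else 0)) =
      (cn s t A O : ℝ) - (if e ∈ A then (d : ℝ) - 1 else 0) := by
    intro A
    rw [Finset.sum_sub_distrib, Finset.sum_ite_eq' A e]
    unfold cn
    push_cast
    rfl
  rw [e1, e1, if_pos he, ← hd] at hc
  have hodd := h.odd_M hM hM1 hO ho
  by_cases heM : e ∈ M
  · rw [if_pos heM] at hc
    refine ⟨M, hM, heM, hM1, b8_lt ?_⟩
    rw [← hd]
    by_contra hcon
    have : (d : ℝ) ≤ cn s t M O := by exact_mod_cast (not_lt.1 hcon)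
    linarith
  · exfalso
    rw [if_neg heM] at hc
    obtain ⟨k, hk⟩ := hodd
    have : (1 : ℝ) ≤ cn s t M O := by
      have : 1 ≤ cn s t M O := by omega
      exact_mod_cast this
    linarith

/-- a perfect matching with `e` and without `g` -/
lemma HypB.avoid (h : HypB s t vs es F) {e g : E} (he : e ∈ F) (hg : g ∈ F) (hne : e ≠ g)
    {N : Finset E} (hN : N ⊆ es \ F)
    (hdeg : ∀ v ∈ vs, cn s t (es \ F) {v} = 2 * cn s t N {v} + 2 * ci s t {v} g) :
    ∃ M ⊆ es, e ∈ M ∧ (∀ v ∈ vs, cn s t M {v} = 1) ∧ g ∉ M := by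
  obtain ⟨M, hM, hM1, hc⟩ := h.ninth hg hN hdeg
    (fun x => (if x = g then (1 : ℝ) else 0) - (if x = e then 1 else 0))
  have hes : e ∈ es := h.sub he
  have hgs : g ∈ es := h.sub hg
  have n1 : e ∉ es \ F := fun h' => (mem_sdiff.1 h').2 he
  have n2 : g ∉ es \ F := fun h' => (mem_sdiff.1 h').2 hg
  have n3 : e ∉ N := fun h' => n1 (hN h')
  have n4 : g ∉ N := fun h' => n2 (hN h')
  simp only [mul_sub, mul_ite, mul_one, mul_zero] at hc
  rw [Finset.sum_sub_distrib, Finset.sum_sub_distrib, Finset.sum_ite_eq' M g,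
    Finset.sum_ite_eq' M e, Finset.sum_ite_eq' es g, Finset.sum_ite_eq' es e, if_pos hes,
    if_pos hgs, if_neg n1, if_neg n2, if_neg n3, if_neg n4, if_neg hne, if_pos rfl] at hc
  by_cases k1 : e ∈ M
  · by_cases k2 : g ∈ M
    · exfalso
      rw [if_pos k1, if_pos k2] at hc
      norm_num at hc
    · exact ⟨M, hM, k1, hM1, k2⟩
  · exfalso
    rw [if_neg k1] at hc
    split_ifs at hc <;> norm_num at hc

/-- **the base case** -/
theorem base8 (h : HypB s t vs es F) {R : Tree V E}
    (nd : [R.a, R.b, R.p, R.q, R.p', R.q'].Nodup) (sub : R.T ⊆ vs)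
    (E0 : Ends s t R.e R.a R.b) (E1 : Ends s t R.e1 R.a R.p) (E2 : Ends s t R.e2 R.a R.q)
    (E3 : Ends s t R.e3 R.b R.p') (E4 : Ends s t R.e4 R.b R.q')
    (m0 : R.e ∈ es) (m1 : R.e1 ∈ es) (m2 : R.e2 ∈ es) (m3 : R.e3 ∈ es) (m4 : R.e4 ∈ es)
    (full : ∀ v ∈ R.T, ∀ g ∈ es, cr s t {v} g → g ∈ F)
    {O1 O2 : Finset V} (s1 : O1 ⊆ vs) (s2 : O2 ⊆ vs) (o1 : Odd O1.card) (o2 : Odd O2.card)
    (d12 : Disjoint O1 O2) (d1 : Disjoint O1 R.T) (d2 : Disjoint O2 R.T)
    (hvs : ∀ v ∈ vs, v ∈ R.T ∨ v ∈ O1 ∨ v ∈ O2)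
    (c1 : ∀ g ∈ es, cr s t O1 g → g ∈ F) (c2 : ∀ g ∈ es, cr s t O2 g → g ∈ F)
    (min1 : ∀ X, Cl s t vs es F X → O1 ⊆ X ∨ Disjoint O1 X)
    (min2 : ∀ X, Cl s t vs es F X → O2 ⊆ X ∨ Disjoint O2 X) :
    Concl s t vs es F R.e := by
  have fin : ∀ M ⊆ es, R.e ∈ M → (∀ v ∈ vs, cn s t M {v} = 1) →
      (∃ g ∈ es, cr s t O1 g ∧ g ∉ M) → (∃ g ∈ es, cr s t O2 g ∧ g ∉ M) →
      Concl s t vs es F R.e := fun M hM heM hM1 f1 f2 =>
    h.concl nd sub E0 E1 E2 E3 E4 m1 m2 m3 m4 o1 o2 d12 d1 d2 hvs min1 min2 hM heM hM1 f1 f2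
  have hab : R.a ≠ R.b := by
    simp only [List.nodup_cons, List.mem_cons, not_or] at nd
    exact nd.1.1
  have aT : R.a ∈ R.T := by
    unfold Tree.T
    simp
  have bT : R.b ∈ R.T := by
    unfold Tree.T
    simp
  have eca : cr s t {R.a} R.e := (b8_ends_cr E0 hab).1
  have heF : R.e ∈ F := full _ aT _ m0 eca
  have d1' : ∀ v ∈ R.T, v ∉ O1 := fun v hv h' => disjoint_left.1 d1 h' hv
  have d2' : ∀ v ∈ R.T, v ∉ O2 := fun v hv h' => disjoint_left.1 d2 h' hv
  have d12' : ∀ v ∈ O1, v ∉ O2 := fun v hv h' => disjoint_left.1 d12 hv h'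
  have hT6 : R.T.card = 6 := by
    have h1 := List.toFinset_card_of_nodup nd
    have h2 : ([R.a, R.b, R.p, R.q, R.p', R.q'] : List V).toFinset = R.T := by
      ext v
      unfold Tree.T
      simp only [List.mem_toFinset, List.mem_cons, List.not_mem_nil, or_false, mem_insert,
        mem_singleton]
    rw [← h2, h1]
    rfl
  have hbig : ∀ O ⊆ vs, Odd O.card → Disjoint O R.T → O.card ≠ 1 → 5 ≤ cn s t es O := by
    intro O hO ho hd h1
    have k1 := h.oddcut O hO ho
    have k2 := h.odd_es hO ho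
    have k3 := card_le_card (union_subset hO sub)
    rw [card_union_of_disjoint hd, hT6] at k3
    have k4 : cn s t es O ≠ 3 := h.hcut O hO ho (by obtain ⟨k, hk⟩ := ho; omega) (by omega)
    obtain ⟨k, hk⟩ := k2
    omega
  by_cases hg : ∃ g ∈ es, cr s t O1 g ∧ cr s t O2 g
  · obtain ⟨g, hges, hg1, hg2⟩ := hg
    by_cases k1 : O1.card = 1
    · obtain ⟨M, hM, heM, hM1, f2⟩ := h.cost m0 s2 o2
      exact fin M hM heM hM1 (h.single hM1 s1 k1) f2
    · by_cases k2 : O2.card = 1
      · obtain ⟨M, hM, heM, hM1, f1⟩ := h.cost m0 s1 o1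
        exact fin M hM heM hM1 f1 (h.single hM1 s2 k2)
      · -- two circuits joined by `g`
        have hgF : g ∈ F := c1 g hges hg1
        -- the ends of `g`
        obtain ⟨x, y, hx, hy, hE⟩ : ∃ x y, x ∈ O1 ∧ y ∈ O2 ∧ Ends s t g x y := by
          unfold cr at hg1 hg2
          by_cases a1 : s g ∈ O1
          · have a2 : t g ∉ O1 := fun a2 => hg1 ⟨fun _ => a2, fun _ => a1⟩
            have a3 : s g ∉ O2 := d12' _ a1
            have a4 : t g ∈ O2 := by
              by_contra a4
              exact hg2 ⟨fun a => absurd a a3, fun a => absurd a a4⟩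
            exact ⟨s g, t g, a1, a4, Or.inl ⟨rfl, rfl⟩⟩
          · have a2 : t g ∈ O1 := by
              by_contra a2
              exact hg1 ⟨fun a => absurd a a1, fun a => absurd a a2⟩
            have a3 : t g ∉ O2 := d12' _ a2
            have a4 : s g ∈ O2 := by
              by_contra a4
              exact hg2 ⟨fun a => absurd a a4, fun a => absurd a a3⟩
            exact ⟨t g, s g, a2, a4, Or.inr ⟨rfl, rfl⟩⟩
        have hxy : x ≠ y := fun h' => d12' x hx (h' ▸ hy)
        have hne : R.e ≠ g := by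
          intro h'
          rw [← h', E0.cr] at hg1
          have a1 := d1' _ aT
          have a2 := d1' _ bT
          exact hg1 ⟨fun a => absurd a a1, fun a => absurd a a2⟩
        -- degrees in `D`
        set D := es \ F with hD
        have hsplit : ∀ v ∈ vs, cn s t D {v} + cn s t F {v} = 3 := by
          intro v hv
          rw [← h.cubic v hv, ← cn_union sdiff_disjoint, sdiff_union_of_subset h.sub]
        have hDT : ∀ v ∈ R.T, cn s t D {v} = 0 := by
          intro v hv
          rw [cn_eq_zero]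
          intro g' hg' hc
          exact (mem_sdiff.1 hg').2 (full v hv g' (mem_sdiff.1 hg').1 hc)
        have hD2 : ∀ O ⊆ vs, O.card ≠ 1 → (∀ X, Cl s t vs es F X → O ⊆ X ∨ Disjoint O X) →
            ∀ v ∈ O, cn s t D {v} = 2 := by
          intro O hO h1 hmin v hv
          have a1 := hsplit v (hO hv)
          obtain ⟨k, hk⟩ := h.join v (hO hv)
          have a2 : cn s t D {v} ≠ 0 := by
            intro a2
            rw [cn_eq_zero] at a2
            rcases hmin {v} ⟨singleton_subset_iff.2 (hO hv), fun g' hg' hc => by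
                by_contra hn
                exact a2 g' (mem_sdiff.2 ⟨hg', hn⟩) hc⟩ with a3 | a3
            · apply h1
              rw [card_eq_one]
              exact ⟨v, Subset.antisymm a3 (singleton_subset_iff.2 hv)⟩
            · exact (disjoint_left.1 a3) hv (mem_singleton_self v)
          omega
        -- the matching on an odd circuit
        have near : ∀ (O : Finset V) (x : V), O ⊆ vs → x ∈ O → Odd O.card → O.card ≠ 1 →
            (∀ g ∈ es, cr s t O g → g ∈ F) →
            (∀ X, Cl s t vs es F X → O ⊆ X ∨ Disjoint O X) →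
            ∃ N ⊆ D, (∀ e ∈ N, s e ∈ O ∧ t e ∈ O) ∧ cn s t N {x} = 0 ∧
              ∀ v ∈ O, v ≠ x → cn s t N {v} = 1 := by
          intro O x hO hxO ho h1 hcl hmin
          have hin : ∀ g' ∈ D, (s g' ∈ O ↔ t g' ∈ O) := by
            intro g' hg'
            by_contra hn
            exact (mem_sdiff.1 hg').2 (hcl g' (mem_sdiff.1 hg').1 hn)
          have hloc : ∀ X ⊆ O, cn s t (D.filter fun e => s e ∈ O) X = cn s t D X := by
            intro X hX
            unfold cn
            refine Finset.sum_filter_of_ne fun g' hg' hc => ?_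
            have hc' : cr s t X g' := by
              by_contra hn
              exact hc (ci_eq_zero.2 hn)
            unfold cr at hc'
            by_contra hn
            have hn2 : t g' ∉ O := fun a => hn ((hin g' hg').2 a)
            exact hc' ⟨fun a => absurd (hX a) hn, fun a => absurd (hX a) hn2⟩
          obtain ⟨N, hN, hN0, hN1⟩ := b8_near (s := s) (t := t) (W := O)
            (D := D.filter fun e => s e ∈ O) hxO ho
            (fun e he => by
              rw [mem_filter] at he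
              exact ⟨he.2, (hin e he.1).1 he.2⟩)
            (fun e he => h.noloop e (mem_sdiff.1 (mem_filter.1 he).1).1)
            (fun v hv => by
              rw [hloc _ (singleton_subset_iff.2 hv)]
              exact hD2 O hO h1 hmin v hv)
            (fun Z hZ hc => by
              have hcl' : Cl s t vs es F Z := by
                refine ⟨hZ.trans hO, fun g' hg' hc' => ?_⟩
                by_contra hn
                have hz : cn s t (D.filter fun e => s e ∈ O) Z = 0 := cn_eq_zero.2 hc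
                rw [hloc Z hZ, cn_eq_zero] at hz
                exact hz g' (mem_sdiff.2 ⟨hg', hn⟩) hc'
              rcases hmin Z hcl' with a | a
              · exact Or.inr (Subset.antisymm hZ a)
              · left
                rw [eq_empty_iff_forall_notMem]
                intro v hv
                exact (disjoint_left.1 a) (hZ hv) hv)
          refine ⟨N, hN.trans (filter_subset _ _), fun e he => ?_, hN0, hN1⟩
          have := mem_filter.1 (hN he)
          exact ⟨this.2, (hin e this.1).1 this.2⟩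
        obtain ⟨N1, hN1, i1, z1, w1⟩ := near O1 x s1 hx o1 k1 c1 min1
        obtain ⟨N2, hN2, i2, z2, w2⟩ := near O2 y s2 hy o2 k2 c2 min2
        have hloopD : ∀ e ∈ D, s e ≠ t e := fun e he => h.noloop e (mem_sdiff.1 he).1
        have hd : Disjoint N1 N2 := by
          rw [disjoint_left]
          intro e a1 a2
          exact d12' _ (i1 e a1).1 (i2 e a2).1
        have zero : ∀ (N : Finset E) (O : Finset V) (v : V), (∀ e ∈ N, s e ∈ O ∧ t e ∈ O) →
            v ∉ O → cn s t N {v} = 0 := by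
          intro N O v hi hv
          rw [cn_eq_zero]
          intro e he hc
          unfold cr at hc
          simp only [mem_singleton] at hc
          have a1 : s e ≠ v := fun a => hv (a ▸ (hi e he).1)
          have a2 : t e ≠ v := fun a => hv (a ▸ (hi e he).2)
          exact hc ⟨fun a => absurd a a1, fun a => absurd a a2⟩
        have cig : ∀ v, ci s t {v} g = if v = x ∨ v = y then 1 else 0 := by
          intro v
          unfold ci
          rw [if_congr (hE.cr {v}) rfl rfl]
          simp only [mem_singleton]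
          by_cases a1 : v = x
          · have a2 : ¬ y = v := fun a => hxy (a1.symm.trans a.symm)
            simp [a1, Ne.symm hxy]
          · by_cases a2 : v = y
            · simp [a2, hxy]
            · simp [a1, a2, Ne.symm a1, Ne.symm a2]
        obtain ⟨M, hM, heM, hM1, hgM⟩ := h.avoid heF hgF hne (N := N1 ∪ N2)
          (union_subset hN1 hN2) (fun v hv => by
            rw [cn_union hd, cig, ← hD]
            rcases hvs v hv with a | a | a
            · rw [hDT v a, zero N1 O1 v i1 (d1' v a), zero N2 O2 v i2 (d2' v a), if_neg]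
              rintro (b | b)
              · exact d1' v a (b ▸ hx)
              · exact d2' v a (b ▸ hy)
            · rw [hD2 O1 s1 k1 min1 v a, zero N2 O2 v i2 (d12' v a)]
              by_cases b : v = x
              · rw [b, z1, if_pos (Or.inl rfl)]
              · rw [w1 v a b, if_neg]
                rintro (b' | b')
                · exact b b'
                · exact d12' v a (b' ▸ hy)
            · have a' : v ∉ O1 := fun a' => d12' v a' a
              rw [hD2 O2 s2 k2 min2 v a, zero N1 O1 v i1 a']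
              by_cases b : v = y
              · rw [b, z2, if_pos (Or.inr rfl)]
              · rw [w2 v a b, if_neg]
                rintro (b' | b')
                · exact a' (b' ▸ hx)
                · exact b b')
        exact fin M hM heM hM1 ⟨g, hges, hg1, hgM⟩ ⟨g, hges, hg2, hgM⟩
  · -- no edge between `O1` and `O2`
    obtain ⟨M, hM, heM, hM1, f1⟩ := h.cost m0 s1 o1
    refine fin M hM heM hM1 f1 ?_
    by_cases k2 : O2.card = 1
    · exact h.single hM1 s2 k2
    refine b8_lt ?_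
    have k3 := hbig O2 s2 o2 d2 k2
    have k4 : cn s t M O2 ≤ cn s t M R.T := by
      rw [cn_eq_card, cn_eq_card]
      refine card_le_card fun g' hg' => ?_
      rw [mem_filter] at hg' ⊢
      refine ⟨hg'.1, ?_⟩
      have a0 := h.ends g' (hM hg'.1)
      have a1 : ¬ cr s t O1 g' := fun a => hg ⟨g', hM hg'.1, a, hg'.2⟩
      have a2 := hg'.2
      unfold cr at a1 a2 ⊢
      rw [not_not] at a1
      have b1 := hvs _ a0.1
      have b2 := hvs _ a0.2
      by_cases c : s g' ∈ O2
      · have c' : t g' ∉ O2 := fun c' => a2 ⟨fun _ => c', fun _ => c⟩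
        have e1 : s g' ∉ R.T := fun e1 => d2' _ e1 c
        have e2 : s g' ∉ O1 := fun e2 => d12' _ e2 c
        have e3 : t g' ∉ O1 := fun e3 => e2 (a1.2 e3)
        have e4 : t g' ∈ R.T := by tauto
        exact fun e5 => e1 (e5.2 e4)
      · have c' : t g' ∈ O2 := by
          by_contra c'
          exact a2 ⟨fun a => absurd a c, fun a => absurd a c'⟩
        have e1 : t g' ∉ R.T := fun e1 => d2' _ e1 c'
        have e2 : t g' ∉ O1 := fun e2 => d12' _ e2 c'
        have e3 : s g' ∉ O1 := fun e3 => e2 (a1.1 e3)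
        have e4 : s g' ∈ R.T := by tauto
        exact fun e5 => e1 (e5.1 e4)
    have k5 := sum_cn (fun e he => h.noloop e (hM he)) R.T (A := M)
    rw [sum_congr rfl fun v hv => hM1 v (sub hv), sum_const, smul_eq_mul, mul_one, hT6] at k5
    have k6 : 1 ≤ inn s t M R.T := by
      unfold inn
      rw [← card_filter]
      refine card_pos.2 ⟨R.e, mem_filter.2 ⟨heM, ?_⟩⟩
      rcases E0 with ⟨a, b⟩ | ⟨a, b⟩ <;> rw [a, b]
      · exact ⟨aT, bT⟩
      · exact ⟨bT, aT⟩
    omega

end OddSix
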