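import Pool.Agent.Lib.OddSix.Stk

/-! The class of the graph obtained from the stuck situation by deleting half of a circuit, and the
classification of its bridges. -/

set_option autoImplicit false
set_option linter.unusedSectionVars false

namespace OddSix

open Finset Classical

variable {V E : Type*} {s t : E → V} {vs : Finset V} {es F N : Finset E} {R : Tree V E}

lemma even_cn {A : Finset E} {X : Finset V} (hA : ∀ e ∈ A, s e ≠ t e)
    (h : ∀ v ∈ X, Even (cn s t A {v})) : Even (cn s t A X) := by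
  have h1 := sum_cn hA X
  have h2 : Even (∑ v ∈ X, cn s t A {v}) := Finset.even_sum _ h
  rw [h1] at h2
  exact (Nat.even_add.1 h2).2 (even_two_mul _)

lemma cn_congr' {s' t' : E → V} {A : Finset E} (h : ∀ g ∈ A, s' g = s g ∧ t' g = t g)
    (X : Finset V) : cn s' t' A X = cn s t A X := by
  unfold cn
  refine Finset.sum_congr rfl fun g hg => ?_
  unfold ci cr
  rw [(h g hg).1, (h g hg).2]

lemma cr_sing_mem {v : V} {g : E} (hc : cr s t {v} g) : s g = v ∨ t g = v := by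
  unfold cr at hc
  simp only [mem_singleton] at hc
  by_contra h
  rw [not_or] at h
  exact hc ⟨fun h1 => absurd h1 h.1, fun h1 => absurd h1 h.2⟩

lemma cn_sing_zero {A : Finset E} {v : V} (h : ∀ g ∈ A, s g ≠ v ∧ t g ≠ v) :
    cn s t A {v} = 0 := by
  rw [cn_eq_zero]
  intro g hg hc
  rcases cr_sing_mem hc with h1 | h1
  · exact (h g hg).1 h1
  · exact (h g hg).2 h1

/-- edges outside `F` and outside the circuit -/
noncomputable def eO (s : E → V) (es F : Finset E) (C : Finset V) : Finset E :=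
  es.filter fun g => g ∉ F ∧ s g ∉ C

/-- admissible changes of the ends of the edges of `N` in the circuit -/
structure Adm (s t s' t' : E → V) (es N : Finset E) (C : Finset V) : Prop where
  ag : ∀ g ∈ es, g ∉ eP s N C → s' g = s g ∧ t' g = t g
  pe : ∀ g ∈ eP s N C, s' g ∈ C ∧ t' g ∈ C
  nl : ∀ g ∈ eP s N C, s' g ≠ t' g
  one : ∀ v ∈ C, cn s' t' (eP s N C) {v} = 1

section

variable {C : Finset V} (S : Stk s t vs es F N R) (hC : Cl s t vs es F C)

include S hC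

lemma Stk.both {g : E} (hg : g ∈ es) (hF : g ∉ F) : s g ∈ C ↔ t g ∈ C := by
  by_contra h
  exact hF (hC.2 g hg h)

lemma Stk.eH_eq : eH s es F N C = F ∪ (eP s N C ∪ eO s es F C) := by
  ext g
  unfold eH eP eO
  rw [mem_filter, mem_union, mem_union, mem_filter, mem_filter]
  constructor
  · rintro ⟨h1, h2 | h2 | h2⟩
    · exact Or.inl h2
    · by_cases h3 : s g ∈ C
      · exact Or.inr (Or.inl ⟨h2, h3⟩)
      · exact Or.inr (Or.inr ⟨h1, fun h4 => (disjoint_left.1 S.NF) h2 h4, h3⟩)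
    · by_cases h3 : g ∈ F
      · exact Or.inl h3
      · exact Or.inr (Or.inr ⟨h1, h3, h2⟩)
  · rintro (h1 | h1 | h1)
    · exact ⟨S.h.sub h1, Or.inl h1⟩
    · exact ⟨S.Nsub h1.1, Or.inr (Or.inl h1.1)⟩
    · exact ⟨h1.1, Or.inr (Or.inr h1.2.2)⟩

omit hC in
lemma Stk.dis1 : Disjoint F (eP s N C ∪ eO s es F C) := by
  rw [disjoint_left]
  intro g h1 h2
  rcases mem_union.1 h2 with h3 | h3
  · exact (disjoint_left.1 S.NF) (mem_filter.1 h3).1 h1
  · exact (mem_filter.1 h3).2.1 h1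

omit S hC in
lemma Stk.dis2 : Disjoint (eP s N C) (eO s es F C) := by
  rw [disjoint_left]
  intro g h1 h2
  exact (mem_filter.1 h2).2.2 (mem_filter.1 h1).2

lemma Stk.cn_eH {s' t' : E → V} (A : Adm s t s' t' es N C) (X : Finset V) :
    cn s' t' (eH s es F N C) X = cn s t F X + (cn s' t' (eP s N C) X + cn s t (eO s es F C) X) := by
  rw [S.eH_eq hC, cn_union S.dis1, cn_union Stk.dis2]
  congr 1
  · refine cn_congr' (fun g hg => A.ag g (S.h.sub hg) fun h => ?_) X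
    exact (disjoint_left.1 S.NF) (mem_filter.1 h).1 hg
  · congr 1
    refine cn_congr' (fun g hg => A.ag g (mem_filter.1 hg).1 fun h => ?_) X
    exact (mem_filter.1 hg).2.2 (mem_filter.1 h).2

/-- degrees outside `F` -/
lemma Stk.deg_split (v : V) :
    cn s t es {v} = cn s t F {v} + cn s t (es \ F) {v} := by
  have h1 : es = F ∪ (es \ F) := by rw [union_sdiff_of_subset S.h.sub]
  conv_lhs => rw [h1]
  exact cn_union disjoint_sdiff {v}

lemma Stk.eO_in {v : V} (hv : v ∈ C) : cn s t (eO s es F C) {v} = 0 := by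
  refine cn_sing_zero fun g hg => ?_
  have h1 := mem_filter.1 hg
  refine ⟨fun h2 => h1.2.2 (h2 ▸ hv), fun h2 => h1.2.2 ?_⟩
  rw [S.both hC h1.1 h1.2.1, h2]
  exact hv

lemma Stk.eO_out {v : V} (hvC : v ∉ C) : cn s t (eO s es F C) {v} = cn s t (es \ F) {v} := by
  rw [cn_eq_card, cn_eq_card]
  congr 1
  ext g
  unfold eO
  rw [mem_filter, mem_filter, mem_filter, mem_sdiff]
  constructor
  · exact fun h => ⟨⟨h.1.1, h.1.2.1⟩, h.2⟩
  · rintro ⟨⟨h1, h2⟩, h3⟩
    refine ⟨⟨h1, h2, fun h4 => hvC ?_⟩, h3⟩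
    rcases cr_sing_mem h3 with h5 | h5
    · exact h5 ▸ h4
    · exact h5 ▸ (S.both hC h1 h2).1 h4

omit hC in
lemma Stk.T_zero {v : V} (hv : v ∈ R.T) : cn s t (es \ F) {v} = 0 := by
  rw [cn_eq_zero]
  intro g hg hc
  exact (mem_sdiff.1 hg).2 (S.full v hv g (mem_sdiff.1 hg).1 hc)

omit hC in
lemma Stk.D_even {v : V} (hv : v ∈ vs) : Even (cn s t (es \ F) {v}) := by
  have h1 := S.h.cubic v hv
  have h2 := S.h.join v hv
  have h3 : cn s t es {v} = cn s t F {v} + cn s t (es \ F) {v} := by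
    have h1 : es = F ∪ (es \ F) := by rw [union_sdiff_of_subset S.h.sub]
    conv_lhs => rw [h1]
    exact cn_union disjoint_sdiff {v}
  obtain ⟨k, hk⟩ := h2
  exact ⟨1 - k, by omega⟩

omit hC in
/-- the vertices outside the six have one edge in `F` -/
lemma Stk.F_one {v : V} (hv : v ∈ vs) (hvT : v ∉ R.T) : cn s t F {v} = 1 := by
  have h1 := S.h.cubic v hv
  have h2 := S.h.join v hv
  have h3 : cn s t es {v} = cn s t F {v} + cn s t (es \ F) {v} := by
    have h1 : es = F ∪ (es \ F) := by rw [union_sdiff_of_subset S.h.sub]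
    conv_lhs => rw [h1]
    exact cn_union disjoint_sdiff {v}
  have h4 : cn s t N {v} ≤ cn s t (es \ F) {v} := cn_mono (fun g hg => mem_sdiff.2
    ⟨S.Nsub hg, fun h => (disjoint_left.1 S.NF) hg h⟩) {v}
  have h5 := S.Nv v hv hvT
  obtain ⟨k, hk⟩ := h2
  omega

variable (hCT : Disjoint C R.T)

include hCT

lemma Stk.deg_in {s' t' : E → V} (A : Adm s t s' t' es N C) {v : V} (hv : v ∈ C) :
    cn s' t' (eH s es F N C) {v} = 2 := by
  rw [S.cn_eH hC A, A.one v hv, S.eO_in hC hv,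
    S.F_one (hC.1 hv) fun h => (disjoint_left.1 hCT) hv h]

omit hCT in
lemma Stk.deg_out {s' t' : E → V} (A : Adm s t s' t' es N C) {v : V} (hv : v ∈ vs)
    (hvC : v ∉ C) : cn s' t' (eH s es F N C) {v} = 3 := by
  rw [S.cn_eH hC A, S.eO_out hC hvC, ← S.h.cubic v hv, S.deg_split hC v,
    cn_sing_zero (A := eP s N C) (s := s') (t := t')]
  · omega
  · intro g hg
    have := A.pe g hg
    exact ⟨fun h => hvC (h ▸ this.1), fun h => hvC (h ▸ this.2)⟩

omit hCT in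
lemma Stk.noloop' {s' t' : E → V} (A : Adm s t s' t' es N C) :
    ∀ g ∈ eH s es F N C, s' g ≠ t' g := by
  intro g hg
  by_cases h : g ∈ eP s N C
  · exact A.nl g h
  · have hes := (mem_filter.1 hg).1
    rw [(A.ag g hes h).1, (A.ag g hes h).2]
    exact S.h.noloop g hes

/-- parity -/
lemma Stk.par {s' t' : E → V} (A : Adm s t s' t' es N C) {X : Finset V} (hX : X ⊆ vs) :
    Odd (cn s' t' (eH s es F N C) X) ↔ Odd (X \ C).card := by
  have h1 := sum_cn (S.noloop' hC A) X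
  have h2 : Odd (∑ v ∈ X, cn s' t' (eH s es F N C) {v}) ↔ Odd (X \ C).card := by
    rw [Finset.odd_sum_iff_odd_card_odd]
    have : X.filter (fun v => Odd (cn s' t' (eH s es F N C) {v})) = X \ C := by
      ext v
      rw [mem_filter, mem_sdiff]
      constructor
      · rintro ⟨h3, h4⟩
        refine ⟨h3, fun h5 => ?_⟩
        rw [S.deg_in hC hCT A h5] at h4
        exact absurd h4 (by decide)
      · rintro ⟨h3, h4⟩
        refine ⟨h3, ?_⟩
        rw [S.deg_out hC A (hX h3) h4]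
        decide
    rw [this]
  rw [← h2, h1]
  rw [Nat.odd_add]
  simp

lemma Stk.T_odd' {s' t' : E → V} (A : Adm s t s' t' es N C) {X : Finset V} (hX : X ⊆ vs)
    (ho : Odd (X \ C).card) (hO0 : ∀ g ∈ eO s es F C, ¬ cr s t X g) :
    Odd (X ∩ R.T).card := by
  -- the edges of `N` outside the circuit
  have hN0 : ∀ g ∈ N \ eP s N C, g ∈ eO s es F C := by
    intro g hg
    rw [mem_sdiff] at hg
    refine mem_filter.2 ⟨S.Nsub hg.1, fun h => (disjoint_left.1 S.NF) hg.1 h, fun h => ?_⟩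
    exact hg.2 (mem_filter.2 ⟨hg.1, h⟩)
  have hW : Even ((X \ C) \ R.T).card := by
    have h3 := sum_cn (s := s) (t := t) (A := N \ eP s N C)
      (fun g hg => S.h.noloop g (S.Nsub (mem_sdiff.1 hg).1)) X
    have h4 : cn s t (N \ eP s N C) X = 0 := by
      rw [cn_eq_zero]
      exact fun g hg => hO0 g (hN0 g hg)
    have h5 : ∑ v ∈ X, cn s t (N \ eP s N C) {v} = ((X \ C) \ R.T).card := by
      have h6 : ∀ v ∈ X, cn s t (N \ eP s N C) {v} = if v ∈ (X \ C) \ R.T then 1 else 0 := by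
        intro v hv
        by_cases hvC : v ∈ C
        · rw [if_neg (fun h => (mem_sdiff.1 (mem_sdiff.1 h).1).2 hvC)]
          refine Nat.le_zero.1 ?_
          rw [← S.eO_in hC hvC]
          exact cn_mono hN0 {v}
        · by_cases hvT : v ∈ R.T
          · rw [if_neg (fun h => (mem_sdiff.1 h).2 hvT)]
            refine Nat.le_zero.1 ?_
            rw [← S.T_zero hvT, ← S.eO_out hC hvC]
            exact cn_mono hN0 {v}
          · rw [if_pos (mem_sdiff.2 ⟨mem_sdiff.2 ⟨hv, hvC⟩, hvT⟩), ← S.Nv v (hX hv) hvT]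
            unfold cn
            refine Finset.sum_subset sdiff_subset fun g hg hng => ?_
            rw [ci_eq_zero]
            intro hc
            have h7 : g ∈ eP s N C := by
              by_contra h8
              exact hng (mem_sdiff.2 ⟨hg, h8⟩)
            have h8 := (mem_filter.1 h7).2
            rcases cr_sing_mem hc with h9 | h9
            · exact hvC (h9 ▸ h8)
            · refine hvC (h9 ▸ (S.both hC (S.Nsub hg) fun h => ?_).1 h8)
              exact (disjoint_left.1 S.NF) hg h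
      rw [sum_congr rfl h6, ← card_filter]
      congr 1
      ext v
      rw [mem_filter]
      exact ⟨fun h => h.2, fun h => ⟨(mem_sdiff.1 (mem_sdiff.1 h).1).1, h⟩⟩
    rw [h5, h4] at h3
    exact ⟨inn s t (N \ eP s N C) X, by omega⟩
  have h6 : ((X \ C) \ R.T).card + (X ∩ R.T).card = (X \ C).card := by
    rw [← card_sdiff_add_card_inter (X \ C) R.T]
    congr 2
    ext v
    rw [mem_inter, mem_inter, mem_sdiff]
    constructor
    · rintro ⟨h7, h8⟩
      exact ⟨⟨h7, fun h9 => (disjoint_left.1 hCT) h9 h8⟩, h8⟩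
    · rintro ⟨⟨h7, -⟩, h8⟩
      exact ⟨h7, h8⟩
  obtain ⟨k, hk⟩ := ho
  obtain ⟨l, hl⟩ := hW
  exact ⟨k - l, by omega⟩

/-- a set crossed by exactly one edge contains an odd number of the six vertices -/
lemma Stk.T_odd {s' t' : E → V} (A : Adm s t s' t' es N C) {X : Finset V} (hX : X ⊆ vs)
    (ho : Odd (X \ C).card) (h1 : cn s' t' (eH s es F N C) X ≤ 1) : Odd (X ∩ R.T).card := by
  have hO : Even (cn s t (eO s es F C) X) := by
    refine even_cn (fun g hg => S.h.noloop g (mem_filter.1 hg).1) fun v hv => ?_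
    by_cases hvC : v ∈ C
    · rw [S.eO_in hC hvC]; decide
    · rw [S.eO_out hC hvC]; exact S.D_even (hX hv)
  have h2 := S.cn_eH hC A X
  have hO0 : cn s t (eO s es F C) X = 0 := by
    obtain ⟨k, hk⟩ := hO
    omega
  rw [cn_eq_zero] at hO0
  exact S.T_odd' hC hCT A hX ho hO0

omit hC hCT in
lemma Stk.cr_iff {g : E} {x y : V} (hE : Ends s t g x y) (X : Finset V) :
    ¬ cr s t X g ↔ (x ∈ X ↔ y ∈ X) := by
  rw [hE.cr, not_not]

omit hC hCT in
lemma Stk.T_card : R.T.card = 6 := by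
  have h1 : R.T = [R.a, R.b, R.p, R.q, R.p', R.q'].toFinset := by
    unfold Tree.T
    simp
  rw [h1, List.toFinset_card_of_nodup S.nd]
  rfl

omit hC hCT in
lemma Stk.tree_mem (X : Finset V) (ho : Odd (X ∩ R.T).card) :
    ∃ g, (g = R.e ∨ g = R.e1 ∨ g = R.e2 ∨ g = R.e3 ∨ g = R.e4) ∧ cr s t X g := by
  by_contra hcon
  have hn : ∀ g, (g = R.e ∨ g = R.e1 ∨ g = R.e2 ∨ g = R.e3 ∨ g = R.e4) → ¬ cr s t X g :=
    fun g hg hc => hcon ⟨g, hg, hc⟩
  have k0 := (Stk.cr_iff S S.E0 X).1 (hn _ (by simp))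
  have k1 := (Stk.cr_iff S S.E1 X).1 (hn _ (by simp))
  have k2 := (Stk.cr_iff S S.E2 X).1 (hn _ (by simp))
  have k3 := (Stk.cr_iff S S.E3 X).1 (hn _ (by simp))
  have k4 := (Stk.cr_iff S S.E4 X).1 (hn _ (by simp))
  by_cases ha : R.a ∈ X
  · have h1 : X ∩ R.T = R.T := by
      rw [inter_eq_right]
      intro v hv
      unfold Tree.T at hv
      simp only [mem_insert, mem_singleton] at hv
      rcases hv with rfl | rfl | rfl | rfl | rfl | rfl
      exacts [ha, k0.1 ha, k1.1 ha, k2.1 ha, k3.1 (k0.1 ha), k4.1 (k0.1 ha)]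
    rw [h1] at ho
    have h2 : R.T.card = 6 := Stk.T_card S
    rw [h2] at ho
    exact absurd ho (by decide)
  · have h1 : X ∩ R.T = ∅ := by
      rw [← disjoint_iff_inter_eq_empty, disjoint_left]
      intro v hvX hv
      unfold Tree.T at hv
      simp only [mem_insert, mem_singleton] at hv
      rcases hv with rfl | rfl | rfl | rfl | rfl | rfl
      exacts [ha hvX, ha (k0.2 hvX), ha (k1.2 hvX), ha (k2.2 hvX), ha (k0.2 (k3.2 hvX)),
        ha (k0.2 (k4.2 hvX))]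
    rw [h1] at ho
    exact absurd ho (by simp)

omit hC hCT in
lemma Stk.ne_list : R.a ≠ R.b ∧ R.a ≠ R.p ∧ R.a ≠ R.q ∧ R.a ≠ R.p' ∧ R.a ≠ R.q' ∧ R.b ≠ R.p ∧
    R.b ≠ R.q ∧ R.b ≠ R.p' ∧ R.b ≠ R.q' ∧ R.p ≠ R.q ∧ R.p ≠ R.p' ∧ R.p ≠ R.q' ∧ R.q ≠ R.p' ∧
    R.q ≠ R.q' ∧ R.p' ≠ R.q' := by
  have := S.nd
  simp only [List.nodup_cons, List.mem_cons, List.not_mem_nil, or_false, not_or,
    not_false_eq_true, List.nodup_nil, and_true] at this
  obtain ⟨⟨h1, h2, h3, h4, h5⟩, ⟨h6, h7, h8, h9⟩, ⟨h10, h11, h12⟩, ⟨h13, h14⟩, h15⟩ := this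
  exact ⟨h1, h2, h3, h4, h5, h6, h7, h8, h9, h10, h11, h12, h13, h14, h15⟩

omit hC in
/-- crossing the tree edges is not changed -/
lemma Stk.tree_cr {s' t' : E → V} (A : Adm s t s' t' es N C) {g : E}
    (hg : g = R.e ∨ g = R.e1 ∨ g = R.e2 ∨ g = R.e3 ∨ g = R.e4) (X : Finset V) :
    g ∈ eH s es F N C ∧ (cr s' t' X g ↔ cr s t X g) := by
  have key : ∀ g x y, g ∈ es → Ends s t g x y → x ≠ y → x ∈ R.T → g ∈ F := by
    intro g x y hg hE hxy hx
    refine S.full x hx g hg ?_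
    rw [hE.cr]
    simp only [mem_singleton, true_iff]
    exact fun h => hxy h.symm
  have n := Stk.ne_list S
  have ma : R.a ∈ R.T := by unfold Tree.T; simp
  have mb : R.b ∈ R.T := by unfold Tree.T; simp
  have hF : g ∈ F := by
    rcases hg with rfl | rfl | rfl | rfl | rfl
    · exact key _ _ _ S.m0 S.E0 n.1 ma
    · exact key _ _ _ S.m1 S.E1 n.2.1 ma
    · exact key _ _ _ S.m2 S.E2 n.2.2.1 ma
    · exact key _ _ _ S.m3 S.E3 n.2.2.2.2.2.2.2.1 mb
    · exact key _ _ _ S.m4 S.E4 n.2.2.2.2.2.2.2.2.1 mb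
  have hes := S.h.sub hF
  refine ⟨mem_filter.2 ⟨hes, Or.inl hF⟩, ?_⟩
  have h1 := A.ag g hes fun h => (disjoint_left.1 S.NF) (mem_filter.1 h).1 hF
  unfold cr
  rw [h1.1, h1.2]

omit hC hCT in
lemma Stk.e_list : R.e ≠ R.e1 ∧ R.e ≠ R.e2 ∧ R.e ≠ R.e3 ∧ R.e ≠ R.e4 ∧ R.e1 ≠ R.e2 ∧ R.e1 ≠ R.e3 ∧
    R.e1 ≠ R.e4 ∧ R.e2 ≠ R.e3 ∧ R.e2 ≠ R.e4 ∧ R.e3 ≠ R.e4 := by
  have hEne : ∀ g g' x y x' y', Ends s t g x y → Ends s t g' x' y' →
      (x ≠ x' ∧ x ≠ y' ∨ y ≠ x' ∧ y ≠ y') → g ≠ g' := by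
    intro g g' x y x' y' h1 h2 h3 h4
    subst h4
    rcases h1 with ⟨a1, a2⟩ | ⟨a1, a2⟩ <;> rcases h2 with ⟨a3, a4⟩ | ⟨a3, a4⟩ <;>
      rw [a1] at a3 <;> rw [a2] at a4 <;> subst a3 <;> subst a4 <;> simp at h3
  obtain ⟨n1, n2, n3, n4, n5, n6, n7, n8, n9, n10, n11, n12, n13, n14, n15⟩ := Stk.ne_list S
  have E0 := S.E0
  have E1 := S.E1
  have E2 := S.E2
  have E3 := S.E3
  have E4 := S.E4
  refine ⟨hEne _ _ _ _ _ _ E0 E1 (Or.inr ⟨n1.symm, n6⟩), hEne _ _ _ _ _ _ E0 E2 (Or.inr ⟨n1.symm, n7⟩),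
    hEne _ _ _ _ _ _ E0 E3 (Or.inl ⟨n1, n4⟩), hEne _ _ _ _ _ _ E0 E4 (Or.inl ⟨n1, n5⟩),
    hEne _ _ _ _ _ _ E1 E2 (Or.inr ⟨n2.symm, n10⟩), hEne _ _ _ _ _ _ E1 E3 (Or.inl ⟨n1, n4⟩),
    hEne _ _ _ _ _ _ E1 E4 (Or.inl ⟨n1, n5⟩), hEne _ _ _ _ _ _ E2 E3 (Or.inl ⟨n1, n4⟩),
    hEne _ _ _ _ _ _ E2 E4 (Or.inl ⟨n1, n5⟩), hEne _ _ _ _ _ _ E3 E4 (Or.inr ⟨n8.symm, n15⟩)⟩

/-- **classification** -/
theorem Stk.cls {s' t' : E → V} (A : Adm s t s' t' es N C)
    (hne : ¬ ∀ X ⊆ vs, Odd (X \ C).card → 3 ≤ cn s' t' (eH s es F N C) X) :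
    (∃ X ⊆ vs, X ∩ R.T = {R.a, R.p, R.q} ∧ ∀ g ∈ eH s es F N C, cr s' t' X g → g = R.e) ∨
    (∃ l l' τ Z, R.Leaf l l' τ ∧ Z ⊆ vs ∧ Z ∩ R.T = {l} ∧
      ∀ g ∈ eH s es F N C, cr s' t' Z g → g = τ) := by
  push Not at hne
  obtain ⟨X, hX, ho, h3⟩ := hne
  have hodd := (S.par hC hCT A hX).2 ho
  have h1 : cn s' t' (eH s es F N C) X = 1 := by
    obtain ⟨k, hk⟩ := hodd
    omega
  have hT := S.T_odd hC hCT A hX ho (by omega)
  obtain ⟨g0, hg0, hc0⟩ := S.tree_mem X hT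
  have hm0 := S.tree_cr hCT A hg0 X
  rw [cn_eq_card, card_eq_one] at h1
  obtain ⟨g1, hg1⟩ := h1
  have huniq : ∀ g ∈ eH s es F N C, cr s' t' X g → g = g0 := by
    intro g hg hc
    have m1 : g ∈ (eH s es F N C).filter (cr s' t' X) := mem_filter.2 ⟨hg, hc⟩
    have m2 : g0 ∈ (eH s es F N C).filter (cr s' t' X) := mem_filter.2 ⟨hm0.1, hm0.2.2 hc0⟩
    rw [hg1, mem_singleton] at m1 m2
    rw [m1, m2]
  have hends' : ∀ g ∈ eH s es F N C, s' g ∈ vs ∧ t' g ∈ vs := by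
    intro g hg
    by_cases h : g ∈ eP s N C
    · exact ⟨hC.1 (A.pe g h).1, hC.1 (A.pe g h).2⟩
    · have hes := (mem_filter.1 hg).1
      rw [(A.ag g hes h).1, (A.ag g hes h).2]
      exact S.h.ends g hes
  -- passing to the complement
  have hcomp : ∀ g ∈ eH s es F N C, cr s' t' (vs \ X) g → g = g0 := by
    intro g hg hc
    rw [cr_compl (hends' g hg).1 (hends' g hg).2] at hc
    exact huniq g hg hc
  have hsame : ∀ g x y, (g = R.e ∨ g = R.e1 ∨ g = R.e2 ∨ g = R.e3 ∨ g = R.e4) → Ends s t g x y →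
      g ≠ g0 → (x ∈ X ↔ y ∈ X) := by
    intro g x y hg hE hne
    rw [← Stk.cr_iff S hE X]
    intro hc
    have h := S.tree_cr hCT A hg X
    exact hne (huniq g h.1 (h.2.2 hc))
  have hcross : ∀ x y, Ends s t g0 x y → ¬ (x ∈ X ↔ y ∈ X) := by
    intro x y hE
    rw [← hE.cr]
    exact hc0
  obtain ⟨f1, f2, f3, f4, f5, f6, f7, f8, f9, f10⟩ := Stk.e_list S
  obtain ⟨n1, n2, n3, n4, n5, n6, n7, n8, n9, n10, n11, n12, n13, n14, n15⟩ := Stk.ne_list S
  have hTm : ∀ v, v ∈ R.T ↔ v = R.a ∨ v = R.b ∨ v = R.p ∨ v = R.q ∨ v = R.p' ∨ v = R.q' := by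
    intro v
    unfold Tree.T
    simp only [mem_insert, mem_singleton]
  have hTvs : ∀ v ∈ R.T, v ∈ vs := fun v hv => S.sub hv
  have va := hTvs R.a ((hTm _).2 (by simp))
  have vb := hTvs R.b ((hTm _).2 (by simp))
  have vp := hTvs R.p ((hTm _).2 (by simp))
  have vq := hTvs R.q ((hTm _).2 (by simp))
  have vp' := hTvs R.p' ((hTm _).2 (by simp))
  have vq' := hTvs R.q' ((hTm _).2 (by simp))
  -- a leaf
  have hleaf : ∀ l l' τ, R.Leaf l l' τ → g0 = τ →
      (∀ v ∈ R.T, v ≠ l → (v ∈ X ↔ l' ∈ X)) → ¬ (l' ∈ X ↔ l ∈ X) → l ∈ R.T → l' ∈ R.T → l' ≠ l →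
      ∃ l l' τ Z, R.Leaf l l' τ ∧ Z ⊆ vs ∧ Z ∩ R.T = {l} ∧
        ∀ g ∈ eH s es F N C, cr s' t' Z g → g = τ := by
    intro l l' τ hl h0 hall hcr hlT hl'T hll
    by_cases hlX : l ∈ X
    · have hl'X : l' ∉ X := fun h => hcr ⟨fun _ => hlX, fun _ => h⟩
      refine ⟨l, l', τ, X, hl, hX, ?_, fun g hg hc => (huniq g hg hc).trans h0⟩
      ext v
      rw [mem_inter, mem_singleton]
      constructor
      · rintro ⟨h4, h5⟩
        by_contra h6
        exact hl'X ((hall v h5 h6).1 h4)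
      · rintro rfl
        exact ⟨hlX, hlT⟩
    · have hl'X : l' ∈ X := by
        by_contra h
        exact hcr ⟨fun h' => absurd h' h, fun h' => absurd h' hlX⟩
      refine ⟨l, l', τ, vs \ X, hl, sdiff_subset, ?_, fun g hg hc => (hcomp g hg hc).trans h0⟩
      ext v
      rw [mem_inter, mem_singleton, mem_sdiff]
      constructor
      · rintro ⟨⟨-, h4⟩, h5⟩
        by_contra h6
        exact h4 ((hall v h5 h6).2 hl'X)
      · rintro rfl
        exact ⟨⟨hTvs _ hlT, hlX⟩, hlT⟩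
  rcases hg0 with h0 | h0 | h0 | h0 | h0
  · -- the edge `e`
    left
    have q1 := hsame R.e1 _ _ (by simp) S.E1 (h0 ▸ f1.symm)
    have q2 := hsame R.e2 _ _ (by simp) S.E2 (h0 ▸ f2.symm)
    have q3 := hsame R.e3 _ _ (by simp) S.E3 (h0 ▸ f3.symm)
    have q4 := hsame R.e4 _ _ (by simp) S.E4 (h0 ▸ f4.symm)
    have q0 := hcross _ _ (h0 ▸ S.E0)
    by_cases ha : R.a ∈ X
    · have hb : R.b ∉ X := fun h => q0 ⟨fun _ => h, fun _ => ha⟩
      refine ⟨X, hX, ?_, fun g hg hc => (huniq g hg hc).trans h0⟩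
      ext v
      rw [mem_inter, hTm, mem_insert, mem_insert, mem_singleton]
      constructor
      · rintro ⟨h4, h | h | h | h | h | h⟩ <;> rw [h] at h4
        · exact Or.inl h
        · exact absurd h4 hb
        · exact Or.inr (Or.inl h)
        · exact Or.inr (Or.inr h)
        · exact absurd (q3.2 h4) hb
        · exact absurd (q4.2 h4) hb
      · rintro (h | h | h)
        · exact ⟨by rw [h]; exact ha, Or.inl h⟩
        · exact ⟨by rw [h]; exact q1.1 ha, Or.inr (Or.inr (Or.inl h))⟩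
        · exact ⟨by rw [h]; exact q2.1 ha, Or.inr (Or.inr (Or.inr (Or.inl h)))⟩
    · have hb : R.b ∈ X := by
        by_contra h
        exact q0 ⟨fun h' => absurd h' ha, fun h' => absurd h' h⟩
      refine ⟨vs \ X, sdiff_subset, ?_, fun g hg hc => (hcomp g hg hc).trans h0⟩
      ext v
      rw [mem_inter, hTm, mem_sdiff, mem_insert, mem_insert, mem_singleton]
      constructor
      · rintro ⟨⟨-, h4⟩, h | h | h | h | h | h⟩ <;> rw [h] at h4
        · exact Or.inl h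
        · exact absurd hb h4
        · exact Or.inr (Or.inl h)
        · exact Or.inr (Or.inr h)
        · exact absurd (q3.1 hb) h4
        · exact absurd (q4.1 hb) h4
      · rintro (h | h | h)
        · exact ⟨⟨by rw [h]; exact va, by rw [h]; exact ha⟩, Or.inl h⟩
        · exact ⟨⟨by rw [h]; exact vp, by rw [h]; exact fun h' => ha (q1.2 h')⟩,
            Or.inr (Or.inr (Or.inl h))⟩
        · exact ⟨⟨by rw [h]; exact vq, by rw [h]; exact fun h' => ha (q2.2 h')⟩,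
            Or.inr (Or.inr (Or.inr (Or.inl h)))⟩
  · right
    have q1 := hsame R.e _ _ (by simp) S.E0 (h0 ▸ f1)
    have q2 := hsame R.e2 _ _ (by simp) S.E2 (h0 ▸ f5.symm)
    have q3 := hsame R.e3 _ _ (by simp) S.E3 (h0 ▸ f6.symm)
    have q4 := hsame R.e4 _ _ (by simp) S.E4 (h0 ▸ f7.symm)
    have q0 := hcross _ _ (h0 ▸ S.E1)
    refine hleaf R.p R.a R.e1 (by unfold Tree.Leaf; simp) h0 ?_ q0 ((hTm _).2 (by simp))
      ((hTm _).2 (by simp)) n2
    intro v hv hne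
    rw [hTm] at hv
    rcases hv with rfl | rfl | rfl | rfl | rfl | rfl
    exacts [Iff.rfl, q1.symm, absurd rfl hne, q2.symm, q3.symm.trans q1.symm,
      q4.symm.trans q1.symm]
  · right
    have q1 := hsame R.e _ _ (by simp) S.E0 (h0 ▸ f2)
    have q2 := hsame R.e1 _ _ (by simp) S.E1 (h0 ▸ f5)
    have q3 := hsame R.e3 _ _ (by simp) S.E3 (h0 ▸ f8.symm)
    have q4 := hsame R.e4 _ _ (by simp) S.E4 (h0 ▸ f9.symm)
    have q0 := hcross _ _ (h0 ▸ S.E2)
    refine hleaf R.q R.a R.e2 (by unfold Tree.Leaf; simp) h0 ?_ q0 ((hTm _).2 (by simp))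
      ((hTm _).2 (by simp)) n3
    intro v hv hne
    rw [hTm] at hv
    rcases hv with rfl | rfl | rfl | rfl | rfl | rfl
    exacts [Iff.rfl, q1.symm, q2.symm, absurd rfl hne, q3.symm.trans q1.symm,
      q4.symm.trans q1.symm]
  · right
    have q1 := hsame R.e _ _ (by simp) S.E0 (h0 ▸ f3)
    have q2 := hsame R.e1 _ _ (by simp) S.E1 (h0 ▸ f6)
    have q3 := hsame R.e2 _ _ (by simp) S.E2 (h0 ▸ f8)
    have q4 := hsame R.e4 _ _ (by simp) S.E4 (h0 ▸ f10.symm)
    have q0 := hcross _ _ (h0 ▸ S.E3)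
    refine hleaf R.p' R.b R.e3 (by unfold Tree.Leaf; simp) h0 ?_ q0 ((hTm _).2 (by simp))
      ((hTm _).2 (by simp)) n8
    intro v hv hne
    rw [hTm] at hv
    rcases hv with rfl | rfl | rfl | rfl | rfl | rfl
    exacts [q1, Iff.rfl, q2.symm.trans q1, q3.symm.trans q1, absurd rfl hne, q4.symm]
  · right
    have q1 := hsame R.e _ _ (by simp) S.E0 (h0 ▸ f4)
    have q2 := hsame R.e1 _ _ (by simp) S.E1 (h0 ▸ f7)
    have q3 := hsame R.e2 _ _ (by simp) S.E2 (h0 ▸ f9)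
    have q4 := hsame R.e3 _ _ (by simp) S.E3 (h0 ▸ f10)
    have q0 := hcross _ _ (h0 ▸ S.E4)
    refine hleaf R.q' R.b R.e4 (by unfold Tree.Leaf; simp) h0 ?_ q0 ((hTm _).2 (by simp))
      ((hTm _).2 (by simp)) n9
    intro v hv hne
    rw [hTm] at hv
    rcases hv with rfl | rfl | rfl | rfl | rfl | rfl
    exacts [q1, Iff.rfl, q2.symm.trans q1, q3.symm.trans q1, q4.symm, absurd rfl hne]

/-- the class of the graph without half of the circuit -/
theorem Stk.hyp2_of {s' t' : E → V} (A : Adm s t s' t' es N C)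
    (hcut : ∀ X ⊆ vs, Odd (X \ C).card → 3 ≤ cn s' t' (eH s es F N C) X) :
    Hyp2 s' t' vs (eH s es F N C) F (eP s N C) C R.T where
  ends := by
    intro g hg
    by_cases h : g ∈ eP s N C
    · exact ⟨hC.1 (A.pe g h).1, hC.1 (A.pe g h).2⟩
    · have hes := (mem_filter.1 hg).1
      rw [(A.ag g hes h).1, (A.ag g hes h).2]
      exact S.h.ends g hes
  noloop := S.noloop' hC A
  vpsub := hC.1
  cubic := fun v hv hvC => S.deg_out hC A hv hvC
  two := fun v hv => S.deg_in hC hCT A hv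
  pone := A.one
  psub := fun g hg => mem_filter.2 ⟨S.Nsub (mem_filter.1 hg).1, Or.inr (Or.inl (mem_filter.1 hg).1)⟩
  fsub := fun g hg => mem_filter.2 ⟨S.h.sub hg, Or.inl hg⟩
  pf := by
    rw [disjoint_left]
    exact fun g h1 h2 => (disjoint_left.1 S.NF) (mem_filter.1 h1).1 h2
  pends := A.pe
  join := by
    intro v hv
    rw [cn_congr' (s := s) (t := t) (fun g hg => A.ag g (S.h.sub hg) fun h =>
      (disjoint_left.1 S.NF) (mem_filter.1 h).1 hg)]
    exact S.h.join v hv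
  cut := hcut
  tcard := (Stk.T_card S).le
  meet := by
    intro X hX ho hg
    have h1 : Odd (X ∩ R.T).card := by
      refine S.T_odd' hC hCT A hX ho fun g hg' hc => ?_
      have hgH : g ∈ eH s es F N C := by
        rw [S.eH_eq hC]
        exact mem_union_right _ (mem_union_right _ hg')
      have hgP : g ∉ eP s N C := fun h => (mem_filter.1 hg').2.2 (mem_filter.1 h).2
      have ha := A.ag g (mem_filter.1 hg').1 hgP
      have hc' : cr s' t' X g := by
        unfold cr at hc ⊢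
        rw [ha.1, ha.2]
        exact hc
      rcases hg g hgH hc' with h2 | h2
      · exact (mem_filter.1 hg').2.1 h2
      · exact hgP h2
    exact card_pos.1 h1.pos

omit hCT in
/-- lifting to the whole graph -/
theorem Stk.concl_of {s' t' : E → V} (A : Adm s t s' t' es N C) {v : V} (hv : v ∈ vs)
    (hCv : C = comp s t vs es F v) {M : Finset E} (hM : M ⊆ eH s es F N C) (he : R.e ∈ M)
    (hpm : ∀ v ∈ vs, cn s t M {v} = 1)
    (hgood : ∀ Z ⊆ vs, Odd (Z \ C).card → ∃ g ∈ eH s es F N C, cr s' t' Z g ∧ ¬ (g ∈ M ∧ g ∈ F)) :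
    Concl s t vs es F R.e := by
  refine ⟨M, hM.trans (filter_subset _ _), he, hpm, fun Z hZ ho => ?_⟩
  by_contra hcon
  have hcon' : ∀ g ∈ es, cr s t Z g → g ∈ M ∧ g ∈ F := by
    intro g hg hc
    by_contra h
    exact hcon ⟨g, hg, hc, h⟩
  have key : ∀ Z ⊆ vs, Odd Z.card → (∀ g ∈ es, cr s t Z g → g ∈ M ∧ g ∈ F) →
      Disjoint C Z → False := by
    intro Z hZ ho hc hd
    have h1 : Z \ C = Z := sdiff_eq_self_of_disjoint hd.symm
    obtain ⟨g, hg, hcr, hn⟩ := hgood Z hZ (by rw [h1]; exact ho)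
    by_cases h : g ∈ eP s N C
    · have h2 := A.pe g h
      apply hcr
      exact ⟨fun h3 => absurd h3 ((disjoint_left.1 hd) h2.1),
        fun h3 => absurd h3 ((disjoint_left.1 hd) h2.2)⟩
    · have hes := (mem_filter.1 hg).1
      have ha := A.ag g hes h
      refine hn (hc g hes ?_)
      unfold cr at hcr ⊢
      rw [ha.1, ha.2] at hcr
      exact hcr
  have hcl : Cl s t vs es F Z := ⟨hZ, fun g hg hc => (hcon' g hg hc).2⟩
  rcases comp_or S.h.ends hv hcl with h1 | h1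
  · rw [← hCv] at h1
    refine key (vs \ Z) sdiff_subset ?_ ?_ ?_
    · rw [card_sdiff_of_subset hZ]
      obtain ⟨k, hk⟩ := ho
      obtain ⟨l, hl⟩ := S.h.even_card
      have := card_le_card hZ
      exact ⟨l - k - 1, by omega⟩
    · intro g hg hc
      rw [cr_compl (S.h.ends g hg).1 (S.h.ends g hg).2] at hc
      exact hcon' g hg hc
    · rw [disjoint_left]
      exact fun u hu hu' => (mem_sdiff.1 hu').2 (h1 hu)
  · rw [← hCv] at h1
    exact key Z hZ ho hcon' h1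

end

end OddSix
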