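import Pool.Agent.Lib.OddSix.Stk

/-! The descent on sets of type `t`. -/

set_option autoImplicit false

namespace OddSix

open Finset Classical

variable {V E : Type*} {s t : E → V} {vs : Finset V} {es F N : Finset E} {R : Tree V E}

private lemma ends_symm {g : E} {p q : V} (h : Ends s t g p q) : Ends s t g q p := by
  rcases h with h | h
  · exact Or.inr h
  · exact Or.inl h

private lemma ex_ends {X : Finset V} {g : E} (hc : cr s t X g) :
    ∃ p q, Ends s t g p q ∧ p ∈ X ∧ q ∉ X := by
  have h0 : (s g ∈ X ∧ t g ∉ X) ∨ (s g ∉ X ∧ t g ∈ X) := by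
    unfold cr at hc; tauto
  rcases h0 with h1 | h1
  · exact ⟨s g, t g, Or.inl ⟨rfl, rfl⟩, h1.1, h1.2⟩
  · exact ⟨t g, s g, Or.inr ⟨rfl, rfl⟩, h1.2, h1.1⟩

private lemma le_one {X : Finset V} (g0 : E) (hg : ∀ g ∈ es, cr s t X g → g = g0) :
    cn s t es X ≤ 1 := by
  rw [cn_eq_card, card_le_one]
  intro a ha b hb
  rw [mem_filter] at ha hb
  rw [hg a ha.1 ha.2, hg b hb.1 hb.2]

/-- facts on the leaves -/
private structure LF (s t : E → V) (es F : Finset E) (R : Tree V E) (l l' : V) (τ : E) : Prop where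
  lT : l ∈ R.T
  lT' : l' ∈ R.T
  es : τ ∈ es
  F : τ ∈ F
  E : Ends s t τ l l'
  ab : l' = R.a ∨ l' = R.b
  na : l ≠ R.a
  nb : l ≠ R.b

private lemma leafF (S : Stk s t vs es F N R) {l l' : V} {τ : E} (hl : R.Leaf l l' τ) :
    LF s t es F R l l' τ := by
  have hnd := S.nd
  simp only [List.nodup_cons, List.mem_cons, List.not_mem_nil, or_false, not_or,
    not_false_eq_true, List.nodup_nil, and_true] at hnd
  obtain ⟨⟨n1, n2, n3, n4, n5⟩, ⟨n6, n7, n8, n9⟩, -⟩ := hnd
  have key : l ∈ R.T ∧ l' ∈ R.T ∧ τ ∈ es ∧ Ends s t τ l l' ∧ (l' = R.a ∨ l' = R.b) ∧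
      l ≠ R.a ∧ l ≠ R.b := by
    rcases hl with ⟨rfl, rfl, rfl⟩ | ⟨rfl, rfl, rfl⟩ | ⟨rfl, rfl, rfl⟩ | ⟨rfl, rfl, rfl⟩
    · exact ⟨by simp [Tree.T], by simp [Tree.T], S.m1, ends_symm S.E1, Or.inl rfl, Ne.symm n2,
        Ne.symm n6⟩
    · exact ⟨by simp [Tree.T], by simp [Tree.T], S.m2, ends_symm S.E2, Or.inl rfl, Ne.symm n3,
        Ne.symm n7⟩
    · exact ⟨by simp [Tree.T], by simp [Tree.T], S.m3, ends_symm S.E3, Or.inr rfl, Ne.symm n4,
        Ne.symm n8⟩
    · exact ⟨by simp [Tree.T], by simp [Tree.T], S.m4, ends_symm S.E4, Or.inr rfl, Ne.symm n5,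
        Ne.symm n9⟩
  obtain ⟨k1, k2, k3, k4, k5, k6, k7⟩ := key
  refine ⟨k1, k2, k3, S.full l k1 τ k3 ?_, k4, k5, k6, k7⟩
  rw [k4.cr, mem_singleton, mem_singleton]
  intro h
  have h1 := h.1 rfl
  rcases k5 with h2 | h2
  · exact k6 (h1.symm.trans h2)
  · exact k7 (h1.symm.trans h2)

/-- the neighbour of a leaf is not a leaf -/
private lemma LF.ne {l l' l2 l2' : V} {τ τ2 : E} (h : LF s t es F R l l' τ)
    (h2 : LF s t es F R l2 l2' τ2) : l' ≠ l2 := by
  rintro rfl
  rcases h.ab with h1 | h1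
  · exact h2.na h1
  · exact h2.nb h1

private lemma cardT (S : Stk s t vs es F N R) : R.T.card = 6 := by
  have h1 : R.T = [R.a, R.b, R.p, R.q, R.p', R.q'].toFinset := by
    ext v
    simp [Tree.T]
  rw [h1, List.toFinset_card_of_nodup S.nd]
  rfl

private lemma odd_iff (S : Stk s t vs es F N R) {X : Finset V} (hX : X ⊆ vs) :
    Odd (cn s t es X) ↔ Odd X.card := by
  refine odd_cn S.h.noloop ?_
  intro v hv
  rw [S.h.cubic v (hX hv)]
  decide

/-- a set crossed by at most one edge is even and not crossed at all -/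
private lemma zero (S : Stk s t vs es F N R) {X : Finset V} (hX : X ⊆ vs)
    (h1 : cn s t es X ≤ 1) : Even X.card ∧ ∀ g ∈ es, ¬ cr s t X g := by
  have he : Even X.card := by
    by_contra ho
    rw [Nat.not_even_iff_odd] at ho
    have := S.h.oddcut X hX ho
    omega
  refine ⟨he, ?_⟩
  rw [← cn_eq_zero]
  have h2 : ¬ Odd (cn s t es X) := by
    rw [odd_iff S hX, Nat.not_odd_iff_even]
    exact he
  rw [Nat.not_odd_iff_even] at h2
  obtain ⟨k, hk⟩ := h2
  omega

/-- closed sets off the six vertices are even -/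
private lemma evenc (S : Stk s t vs es F N R) {X : Finset V} (hX : Cl s t vs es F X)
    (hT : Disjoint X R.T) : Even X.card := by
  have h1 : cn s t N X = 0 := by
    rw [cn_eq_zero]
    intro g hg hc
    exact (disjoint_left.1 S.NF) hg (hX.2 g (S.Nsub hg) hc)
  have h2 : Odd (cn s t N X) ↔ Odd X.card := by
    refine odd_cn (fun g hg => S.h.noloop g (S.Nsub hg)) ?_
    intro v hv
    rw [S.Nv v (hX.1 hv) ((disjoint_left.1 hT) hv)]
    decide
  rw [h1] at h2
  by_contra h3
  rw [Nat.not_even_iff_odd, ← h2] at h3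
  exact absurd h3 (by decide)

/-- evenness up to the six vertices -/
private lemma evenc' (S : Stk s t vs es F N R) {X : Finset V} (hX : Cl s t vs es F X) :
    Even (X \ R.T).card := by
  refine evenc S ⟨sdiff_subset.trans hX.1, fun g hg hcr => ?_⟩ sdiff_disjoint
  by_contra hF
  obtain ⟨p, q, hE, hp, hq⟩ := ex_ends hcr
  rw [mem_sdiff] at hp hq
  have h1 : ¬ cr s t X g := fun h => hF (hX.2 g hg h)
  rw [hE.cr] at h1
  have hqX : q ∈ X := by tauto
  have hqT : q ∈ R.T := by tauto
  have h2 : ¬ cr s t {q} g := fun h => hF (S.full q hqT g hg h)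
  rw [hE.cr, mem_singleton, mem_singleton] at h2
  have hpq : p ≠ q := fun h3 => hp.2 (h3 ▸ hqT)
  exact h2 fun h3 => hpq (h3.2 rfl)

private lemma cl_union {X Y : Finset V} (hX : Cl s t vs es F X) (hY : Cl s t vs es F Y) :
    Cl s t vs es F (X ∪ Y) := by
  refine ⟨union_subset hX.1 hY.1, fun g hg hc => ?_⟩
  have h1 := hX.2 g hg
  have h2 := hY.2 g hg
  unfold cr at hc h1 h2
  rw [mem_union, mem_union] at hc
  tauto

private lemma cl_sdiff {X Y : Finset V} (hX : Cl s t vs es F X) (hY : Cl s t vs es F Y) :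
    Cl s t vs es F (X \ Y) := by
  refine ⟨sdiff_subset.trans hX.1, fun g hg hc => ?_⟩
  have h1 := hX.2 g hg
  have h2 := hY.2 g hg
  unfold cr at hc h1 h2
  rw [mem_sdiff, mem_sdiff] at hc
  tauto

/-- the edges leaving `Z \ C` -/
private lemma tout {v l : V} {τ : E} {Z : Finset V}
    (hZ : TyT s t vs es F N R v l τ Z) {g : E} (hg : g ∈ es) {p q : V} (hE : Ends s t g p q)
    (hp : p ∈ Z \ comp s t vs es F v) (hq : q ∉ Z \ comp s t vs es F v) :
    g = τ ∨ q ∈ comp s t vs es F v := by
  rw [mem_sdiff] at hp hq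
  by_cases hqC : q ∈ comp s t vs es F v
  · exact Or.inr hqC
  have hqZ : q ∉ Z := fun h2 => hq ⟨h2, hqC⟩
  refine Or.inl (hZ.2.2 g ?_ ?_)
  · refine mem_filter.2 ⟨hg, Or.inr (Or.inr ?_)⟩
    rcases hE with h4 | h4
    · rw [h4.1]; exact hp.2
    · rw [h4.1]; exact hqC
  · rw [hE.cr]
    exact fun h3 => hqZ (h3.1 hp.1)

/-- the part of `Z` outside `C` is closed -/
private lemma tcl (S : Stk s t vs es F N R) {v l : V} {τ : E} {Z : Finset V} (hτ : τ ∈ F)
    (hZ : TyT s t vs es F N R v l τ Z) : Cl s t vs es F (Z \ comp s t vs es F v) := by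
  refine ⟨sdiff_subset.trans hZ.1, fun g hg hc => ?_⟩
  obtain ⟨p, q, hE, hp, hq⟩ := ex_ends hc
  rcases tout hZ hg hE hp hq with h1 | h1
  · exact h1 ▸ hτ
  · refine (comp_closed S.h.ends v).2 g hg ?_
    rw [hE.cr]
    exact fun h3 => (mem_sdiff.1 hp).2 (h3.2 h1)

private lemma interT (S : Stk s t vs es F N R) {v l : V} {τ : E} {Z : Finset V} (hv : v ∈ vs)
    (hvT : v ∉ R.T) (hZ : TyT s t vs es F N R v l τ Z) {w : V} (hw : w ∈ R.T) :
    w ∈ Z \ comp s t vs es F v ↔ w = l := by
  have h1 : w ∈ Z ∩ R.T ↔ w = l := by rw [hZ.2.1, mem_singleton]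
  rw [mem_inter] at h1
  rw [mem_sdiff]
  have h2 : w ∉ comp s t vs es F v := fun h3 => (disjoint_left.1 (S.comp_disj hv hvT)) h3 hw
  tauto

/-- **Descent.** If the part of a set of type `t` outside its circuit is not just the leaf, it
contains a circuit all of whose sets of type `t` can be replaced by smaller ones. -/
theorem desc (S : Stk s t vs es F N R) {v : V} (hv : v ∈ vs) (hvT : v ∉ R.T)
    {l l' : V} {τ : E} (hl : R.Leaf l l' τ) {Z : Finset V} (hZ : TyT s t vs es F N R v l τ Z)
    (hne : Z \ comp s t vs es F v ≠ {l}) :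
    ∃ v' ∈ vs, v' ∉ R.T ∧ ∀ (l2 l2' : V) (τ2 : E) (Z2 : Finset V), R.Leaf l2 l2' τ2 →
      TyT s t vs es F N R v' l2 τ2 Z2 →
      ∃ Z3, TyT s t vs es F N R v' l2 τ2 Z3 ∧
        (Z3 \ comp s t vs es F v').card < (Z \ comp s t vs es F v).card := by
  have L := leafF S hl
  have hlX : l ∈ Z \ comp s t vs es F v := (interT S hv hvT hZ L.lT).2 rfl
  have hXcl := tcl S L.F hZ
  have hXvs := hXcl.1
  -- a circuit inside `Z \ C`
  obtain ⟨v', hv'X, hv'l⟩ : ∃ v' ∈ Z \ comp s t vs es F v, v' ≠ l := by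
    by_contra hcon
    push Not at hcon
    exact hne (Subset.antisymm (fun w hw => mem_singleton.2 (hcon w hw))
      (singleton_subset_iff.2 hlX))
  have hv'vs := hXvs hv'X
  have hv'T : v' ∉ R.T := fun h1 => hv'l ((interT S hv hvT hZ h1).1 hv'X)
  refine ⟨v', hv'vs, hv'T, fun l2 l2' τ2 Z2 hl2 hZ2 => ?_⟩
  have L2 := leafF S hl2
  have hl2X : l2 ∈ Z2 \ comp s t vs es F v' := (interT S hv'vs hv'T hZ2 L2.lT).2 rfl
  have hX'cl := tcl S L2.F hZ2
  have hX'vs := hX'cl.1
  have hC'X : comp s t vs es F v' ⊆ Z \ comp s t vs es F v :=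
    fun w hw => (mem_filter.1 hw).2 _ hXcl hv'X
  have hCT := S.comp_disj hv hvT
  have hCcl := comp_closed (s := s) (t := t) (F := F) S.h.ends v
  have hvC : v ∈ comp s t vs es F v := mem_comp_self hv
  rcases comp_or S.h.ends hv hX'cl with hin | hdj
  · -- case (ii)
    exfalso
    set C := comp s t vs es F v with hC
    set C' := comp s t vs es F v' with hC'
    set X := Z \ C with hX
    set X' := Z2 \ C' with hX'
    set Q := vs \ (X ∪ X') with hQ
    have iT : ∀ w ∈ R.T, (w ∈ X ↔ w = l) := fun w hw => interT S hv hvT hZ hw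
    have iT' : ∀ w ∈ R.T, (w ∈ X' ↔ w = l2) := fun w hw => interT S hv'vs hv'T hZ2 hw
    have hQT : ∀ w ∈ R.T, w ≠ l → w ≠ l2 → w ∈ Q := by
      intro w hw h1 h2
      rw [hQ, mem_sdiff, mem_union, iT w hw, iT' w hw]
      exact ⟨S.sub hw, by tauto⟩
    have hQcr : ∀ g ∈ es, ∀ p q, Ends s t g p q → p ∈ Q → q ∉ Q → g = τ ∨ g = τ2 := by
      intro g hg p q hE hp hq
      have hpvs : p ∉ X ∧ p ∉ X' := by
        rw [hQ, mem_sdiff, mem_union, not_or] at hp
        exact hp.2
      have hqvs : q ∈ vs := by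
        have := S.h.ends g hg
        rcases hE with h4 | h4
        · exact h4.2 ▸ this.2
        · exact h4.1 ▸ this.1
      have hq2 : q ∈ X ∨ q ∈ X' := by
        rw [hQ, mem_sdiff, mem_union] at hq
        tauto
      rcases hq2 with hq2 | hq2
      · rcases tout hZ hg (ends_symm hE) hq2 hpvs.1 with h1 | h1
        · exact Or.inl h1
        · exact absurd (hin h1) hpvs.2
      · rcases tout hZ2 hg (ends_symm hE) hq2 hpvs.2 with h1 | h1
        · exact Or.inr h1
        · exact absurd (hC'X h1) hpvs.1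
    have hQvs : Q ⊆ vs := sdiff_subset
    have hUcl := cl_union hXcl hX'cl
    have hUvs : X ∪ X' ⊆ vs := hUcl.1
    have hQcard : Q.card + (X ∪ X').card = vs.card := by
      rw [hQ, card_sdiff_of_subset hUvs]
      have := card_le_card hUvs
      omega
    have hev := evenc' S hUcl
    have hUT : (X ∪ X') ∩ R.T = {l, l2} := by
      ext w
      rw [mem_inter, mem_union, mem_insert, mem_singleton]
      constructor
      · rintro ⟨h1, h2⟩
        rw [iT w h2, iT' w h2] at h1
        exact h1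
      · rintro (rfl | rfl)
        · exact ⟨Or.inl hlX, L.lT⟩
        · exact ⟨Or.inr hl2X, L2.lT⟩
    have hUcard : (X ∪ X').card = ((X ∪ X') \ R.T).card + ({l, l2} : Finset V).card := by
      rw [← hUT, add_comm]
      exact (card_inter_add_card_sdiff _ _).symm
    obtain ⟨k, hk⟩ := hev
    obtain ⟨m, hm⟩ := S.h.even_card
    by_cases hll : l = l2
    · -- one exit only
      have h2 : ({l, l2} : Finset V).card = 1 := by
        rw [hll, pair_eq_singleton, card_singleton]
      have hττ : τ2 = τ := by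
        have hnd := S.nd
        simp only [List.nodup_cons, List.mem_cons, List.not_mem_nil, or_false, not_or,
          not_false_eq_true, List.nodup_nil, and_true] at hnd
        obtain ⟨-, -, ⟨n1, n2, n3⟩, ⟨n4, n5⟩, n6⟩ := hnd
        rw [← hll] at hl2
        rcases hl with ⟨e1, -, e2⟩ | ⟨e1, -, e2⟩ | ⟨e1, -, e2⟩ | ⟨e1, -, e2⟩ <;>
          rcases hl2 with ⟨f1, -, f2⟩ | ⟨f1, -, f2⟩ | ⟨f1, -, f2⟩ | ⟨f1, -, f2⟩ <;>
          first
          | exact f2.trans e2.symm
          | exact absurd (e1.symm.trans f1) (by assumption)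
          | exact absurd (f1.symm.trans e1) (by assumption)
      have hle : cn s t es Q ≤ 1 := by
        refine le_one τ fun g hg hc => ?_
        obtain ⟨p, q, hE, hp, hq⟩ := ex_ends hc
        rcases hQcr g hg p q hE hp hq with h1 | h1
        · exact h1
        · rw [h1, hττ]
      have := (zero S hQvs hle).1
      obtain ⟨j, hj⟩ := this
      omega
    · have h2 : ({l, l2} : Finset V).card = 2 := card_pair hll
      have hlQ : l ∉ Q := by
        rw [hQ, mem_sdiff, mem_union]
        exact fun h1 => h1.2 (Or.inl hlX)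
      have hnbQ : l' ∈ Q := hQT _ L.lT' (L.ne L) (L.ne L2)
      have hSvs : insert l Q ⊆ vs := insert_subset (S.sub L.lT) hQvs
      have hScard : (insert l Q).card = Q.card + 1 := card_insert_of_notMem hlQ
      have hSo : Odd (insert l Q).card := by
        rw [hScard]
        exact ⟨m - k - 1, by omega⟩
      have hS3 := S.h.oddcut _ hSvs hSo
      have hle : cn s t es (insert l Q) ≤ 3 := by
        rw [cn_eq_card]
        have hsub : es.filter (cr s t (insert l Q)) ⊆
            insert τ2 ((es.filter (cr s t {l})).erase τ) := by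
          intro g hg
          rw [mem_filter] at hg
          obtain ⟨p, q, hE, hp, hq⟩ := ex_ends hg.2
          rw [mem_insert, not_or] at hq
          rw [mem_insert] at hp
          rw [mem_insert]
          rcases hp with hp | hp
          · refine Or.inr (mem_erase.2 ⟨?_, mem_filter.2 ⟨hg.1, ?_⟩⟩)
            · intro hgτ
              rw [hgτ] at hE
              have hq' : q = l' := by
                rcases hE with ⟨e1, e2⟩ | ⟨e1, e2⟩ <;> rcases L.E with ⟨e3, e4⟩ | ⟨e3, e4⟩
                · rw [← e2, ← e4]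
                · exact absurd (e4.symm.trans e2).symm hq.1
                · exact absurd (e3.symm.trans e1).symm hq.1
                · rw [← e1, ← e3]
              exact hq.2 (hq' ▸ hnbQ)
            · rw [hE.cr, mem_singleton, mem_singleton]
              exact fun h3 => hq.1 (h3.1 hp)
          · refine Or.inl ?_
            rcases hQcr g hg.1 p q hE hp hq.2 with h1 | h1
            · exfalso
              rw [h1] at hE
              have hpl : p ≠ l := fun h3 => hlQ (h3 ▸ hp)
              rcases hE with ⟨e1, e2⟩ | ⟨e1, e2⟩ <;> rcases L.E with ⟨e3, e4⟩ | ⟨e3, e4⟩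
              · exact hpl (e1.symm.trans e3)
              · exact hq.1 (e2.symm.trans e4)
              · exact hq.1 (e1.symm.trans e3)
              · exact hpl (e2.symm.trans e4)
            · exact h1
        refine (card_le_card hsub).trans ((card_insert_le _ _).trans ?_)
        have h3 := S.h.cubic l (S.sub L.lT)
        rw [cn_eq_card] at h3
        have h4 : τ ∈ es.filter (cr s t {l}) := by
          refine mem_filter.2 ⟨L.es, ?_⟩
          rw [L.E.cr, mem_singleton, mem_singleton]
          intro h5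
          exact L.ne L (h5.1 rfl)
        rw [card_erase_of_mem h4, h3]
      refine S.hcut _ hSvs hSo ?_ ?_ (le_antisymm hle hS3)
      · have hsub : R.T.erase l2 ⊆ insert l Q := by
          intro w hw
          rw [mem_erase] at hw
          rw [mem_insert]
          by_cases h1 : w = l
          · exact Or.inl h1
          · exact Or.inr (hQT w hw.2 h1 hw.1)
        have h5 := card_le_card hsub
        rw [card_erase_of_mem L2.lT, cardT S] at h5
        omega
      · have hCl : ∀ w ∈ R.T, w ∉ C := fun w h1 h3 => (disjoint_left.1 hCT) h3 h1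
        have hCsub : insert l2 C ⊆ (X ∪ X') \ {l} := by
          intro w hw
          rw [mem_insert] at hw
          rw [mem_sdiff, mem_union, mem_singleton]
          rcases hw with rfl | hw
          · exact ⟨Or.inr hl2X, fun h1 => hll h1.symm⟩
          · exact ⟨Or.inr (hin hw), fun h1 => hCl l L.lT (h1 ▸ hw)⟩
        have h5 := card_le_card hCsub
        rw [card_insert_of_notMem (hCl l2 L2.lT), card_sdiff_of_subset
          (singleton_subset_iff.2 (mem_union_left _ hlX)), card_singleton] at h5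
        have h6 := evenc S hCcl hCT
        obtain ⟨j, hj⟩ := h6
        have h7 : 0 < C.card := card_pos.2 ⟨v, hvC⟩
        omega
  · -- case (i)
    set C := comp s t vs es F v with hC
    set C' := comp s t vs es F v' with hC'
    set X := Z \ C with hX
    set X' := Z2 \ C' with hX'
    set Y := X' \ X with hY
    have iT' : ∀ w ∈ R.T, (w ∈ X' ↔ w = l2) := fun w hw => interT S hv'vs hv'T hZ2 hw
    have hYvs : Y ⊆ vs := sdiff_subset.trans hX'vs
    have hle : cn s t es Y ≤ 1 := by
      refine le_one τ2 fun g hg hc => ?_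
      obtain ⟨p, q, hE, hp, hq⟩ := ex_ends hc
      rw [hY, mem_sdiff] at hp hq
      by_cases hqX : q ∈ X
      · exfalso
        rcases tout hZ hg (ends_symm hE) hqX hp.2 with h1 | h1
        · rw [h1] at hE
          have hpl : p ≠ l := fun h3 => hp.2 (h3 ▸ hlX)
          have hpn : p = l' := by
            rcases hE with ⟨e1, e2⟩ | ⟨e1, e2⟩ <;> rcases L.E with ⟨e3, e4⟩ | ⟨e3, e4⟩
            · exact absurd (e1.symm.trans e3) hpl
            · rw [← e1, ← e3]
            · rw [← e2, ← e4]
            · exact absurd (e2.symm.trans e4) hpl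
          refine L.ne L2 ((iT' l' L.lT').1 ?_)
          rw [← hpn]
          exact hp.1
        · exact (disjoint_left.1 hdj) h1 hp.1
      · have hqX' : q ∉ X' := fun h1 => hq ⟨h1, hqX⟩
        rcases tout hZ2 hg hE hp.1 hqX' with h1 | h1
        · exact h1
        · exact absurd (hC'X h1) hqX
    obtain ⟨-, hY0⟩ := zero S hYvs hle
    have hl2Y : l2 ∉ Y := by
      intro h1
      apply hY0 τ2 L2.es
      rw [L2.E.cr]
      intro h2
      have h3 := h2.1 h1
      rw [hY, mem_sdiff] at h3
      exact L2.ne L2 ((iT' l2' L2.lT').1 h3.1)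
    refine ⟨Z2 \ Y, ⟨sdiff_subset.trans hZ2.1, ?_, ?_⟩, ?_⟩
    · ext w
      have h1 : w ∈ Z2 ∩ R.T ↔ w = l2 := by rw [hZ2.2.1, mem_singleton]
      rw [mem_inter] at h1
      rw [mem_inter, mem_sdiff, mem_singleton]
      constructor
      · rintro ⟨⟨h2, h3⟩, h4⟩
        exact h1.1 ⟨h2, h4⟩
      · rintro rfl
        have := h1.2 rfl
        exact ⟨⟨this.1, hl2Y⟩, this.2⟩
    · intro g hg hc
      refine hZ2.2.2 g hg ?_
      have h1 := hY0 g (mem_filter.1 hg).1
      have hm : ∀ w, w ∈ Z2 \ Y ↔ w ∈ Z2 ∧ w ∉ Y := fun w => mem_sdiff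
      unfold cr at h1 hc ⊢
      rw [hm, hm] at hc
      tauto
    · refine card_lt_card ⟨?_, ?_⟩
      · intro w hw
        rw [mem_sdiff, mem_sdiff, hY, mem_sdiff] at hw
        by_contra h1
        exact hw.1.2 ⟨by rw [hX', mem_sdiff]; exact ⟨hw.1.1, hw.2⟩, h1⟩
      · intro h1
        have h2 := h1 hv'X
        rw [mem_sdiff] at h2
        exact h2.2 (mem_comp_self hv'vs)

end OddSix
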