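import Pool.Agent.Lib.OddSix.Hyp2

/-! Suppression of the paired vertices of degree two. -/

set_option autoImplicit false

namespace OddSix

open Finset Classical

variable {V E : Type*}

namespace Supp

variable {s t : E → V} {vs : Finset V} {es F P : Finset E} {vp T : Finset V}

/-- two paired vertices `x`, `y`, joined by `g0`, with their edges `jx`, `jy` in `F` -/
structure Loc (s t : E → V) (es F P : Finset E) (vp : Finset V) (x y : V) (g0 jx jy : E) :
    Prop where
  xy : x ≠ y
  hx : x ∈ vp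
  hy : y ∈ vp
  g0P : g0 ∈ P
  jxF : jx ∈ F
  jyF : jy ∈ F
  E0 : Ends s t g0 x y
  cx : ∀ g ∈ es, cr s t {x} g ↔ g = g0 ∨ g = jx
  cy : ∀ g ∈ es, cr s t {y} g ↔ g = g0 ∨ g = jy

lemma star2 (h : Hyp2 s t vs es F P vp T) {x : V} (hx : x ∈ vp) {g0 : E} (hg : g0 ∈ P)
    (hc : cr s t {x} g0) : ∃ jx ∈ F, ∀ g ∈ es, cr s t {x} g ↔ g = g0 ∨ g = jx := by
  have h1 := h.two x hx
  have h2 := h.pone x hx
  have h3 := h.join x (h.vpsub hx)
  have h4 : cn s t (P ∪ F) {x} ≤ cn s t es {x} := cn_mono (union_subset h.psub h.fsub) _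
  rw [cn_union h.pf] at h4
  have h5 : cn s t F {x} = 1 := by
    obtain ⟨k, hk⟩ := h3
    omega
  obtain ⟨jx, hj, hjc, -⟩ := cn_eq_one_unique' h5
  refine ⟨jx, hj, ?_⟩
  have hne : g0 ≠ jx := fun h' => (disjoint_left.1 h.pf) hg (h' ▸ hj)
  rw [cn_eq_card] at h1
  have h6 : ({g0, jx} : Finset E) = es.filter (cr s t {x}) := by
    apply eq_of_subset_of_card_le
    · intro g hg'
      rw [mem_insert, mem_singleton] at hg'
      rcases hg' with rfl | rfl
      · exact mem_filter.2 ⟨h.psub hg, hc⟩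
      · exact mem_filter.2 ⟨h.fsub hj, hjc⟩
    · rw [h1, card_pair hne]
  intro g hg'
  have h7 : g ∈ es.filter (cr s t {x}) ↔ g ∈ ({g0, jx} : Finset E) := by rw [h6]
  rw [mem_filter, mem_insert, mem_singleton] at h7
  rw [← h7]
  exact ⟨fun h8 => ⟨hg', h8⟩, fun h8 => h8.2⟩

lemma exists_loc (h : Hyp2 s t vs es F P vp T) {g0 : E} (hg : g0 ∈ P) :
    ∃ x y jx jy, Loc s t es F P vp x y g0 jx jy := by
  have hn := h.noloop g0 (h.psub hg)
  obtain ⟨hx, hy⟩ := h.pends g0 hg
  have E0 : Ends s t g0 (s g0) (t g0) := Or.inl ⟨rfl, rfl⟩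
  have c1 : cr s t {s g0} g0 := by
    rw [E0.cr]
    simp only [mem_singleton, true_iff]
    exact fun h' => hn h'.symm
  have c2 : cr s t {t g0} g0 := by
    rw [E0.cr]
    simp only [mem_singleton, iff_true]
    exact hn
  obtain ⟨jx, hjx, h1⟩ := star2 h hx hg c1
  obtain ⟨jy, hjy, h2⟩ := star2 h hy hg c2
  exact ⟨s g0, t g0, jx, jy, hn, hx, hy, hg, hjx, hjy, E0, h1, h2⟩

namespace Loc

variable {x y : V} {g0 jx jy : E}

section
variable (h : Hyp2 s t vs es F P vp T) (L : Loc s t es F P vp x y g0 jx jy)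
include h L

lemma avoid {g : E} (hg : g ∈ es) (h0 : g ≠ g0) (h1 : g ≠ jx) (h2 : g ≠ jy) :
    s g ≠ x ∧ s g ≠ y ∧ t g ≠ x ∧ t g ≠ y := by
  have nx : ¬ cr s t {x} g := fun hc => by
    rcases (L.cx g hg).1 hc with h' | h'
    · exact h0 h'
    · exact h1 h'
  have ny : ¬ cr s t {y} g := fun hc => by
    rcases (L.cy g hg).1 hc with h' | h'
    · exact h0 h'
    · exact h2 h'
  have hn := h.noloop g hg
  unfold cr at nx ny
  simp only [mem_singleton, not_not] at nx ny
  refine ⟨fun e => hn ?_, fun e => hn ?_, fun e => hn ?_, fun e => hn ?_⟩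
  · rw [e, nx.1 e]
  · rw [e, ny.1 e]
  · rw [e, nx.2 e]
  · rw [e, ny.2 e]

lemma ne_x : g0 ≠ jx := fun h' => (disjoint_left.1 h.pf) L.g0P (h' ▸ L.jxF)
lemma ne_y : g0 ≠ jy := fun h' => (disjoint_left.1 h.pf) L.g0P (h' ▸ L.jyF)

lemma pxs : x ∈ vs := h.vpsub L.hx
lemma pys : y ∈ vs := h.vpsub L.hy

end

end Loc

/-- new vertex set -/
noncomputable def rv (A : Finset V) (x y : V) : Finset V := A \ {x, y}

lemma mem_rv {A : Finset V} {x y v : V} : v ∈ rv A x y ↔ v ∈ A ∧ v ≠ x ∧ v ≠ y := by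
  unfold rv
  simp only [mem_sdiff, mem_insert, mem_singleton, not_or, ne_eq]

lemma rv_sdiff {X : Finset V} {x y : V} (hx : x ∈ vp) (hy : y ∈ vp) :
    rv X x y \ rv vp x y = X \ vp := by
  ext v
  rw [mem_sdiff, mem_rv, mem_rv, mem_sdiff]
  constructor
  · rintro ⟨⟨h1, h2, h3⟩, h4⟩
    exact ⟨h1, fun h5 => h4 ⟨h5, h2, h3⟩⟩
  · rintro ⟨h1, h2⟩
    exact ⟨⟨h1, fun h3 => h2 (h3 ▸ hx), fun h3 => h2 (h3 ▸ hy)⟩, fun h3 => h2 h3.1⟩

lemma rv_self {X : Finset V} {x y : V} (hX : X ⊆ rv vs x y) : rv X x y = X := by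
  ext v
  rw [mem_rv]
  exact ⟨fun h => h.1, fun h => ⟨h, (mem_rv.1 (hX h)).2⟩⟩

lemma rv_add {X : Finset V} {x y : V} (hX : X ⊆ rv vs x y) : rv (X ∪ {x, y}) x y = X := by
  ext v
  rw [mem_rv, mem_union, mem_insert, mem_singleton]
  constructor
  · rintro ⟨h1 | h1 | h1, h2, h3⟩
    · exact h1
    · exact absurd h1 h2
    · exact absurd h1 h3
  · exact fun h => ⟨Or.inl h, (mem_rv.1 (hX h)).2⟩

/-- a count depends only on the crossing edges -/
lemma cn_congr' {s t s' t' : E → V} {A B : Finset E} {X Z : Finset V}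
    (h1 : ∀ g, (g ∈ A ∧ cr s t X g) ↔ (g ∈ B ∧ cr s' t' Z g)) : cn s t A X = cn s' t' B Z := by
  rw [cn_eq_card, cn_eq_card]
  congr 1
  ext g
  rw [mem_filter, mem_filter]
  exact h1 g

/-! ### the two edges `jx`, `jy` are equal -/

section caseA

variable {x y : V} {g0 j : E} (h : Hyp2 s t vs es F P vp T)
  (L : Loc s t es F P vp x y g0 j j)
include h L

lemma EjA : Ends s t j x y := by
  have hj := h.fsub L.jxF
  have c1 := (L.cx j hj).2 (Or.inr rfl)
  have c2 := (L.cy j hj).2 (Or.inr rfl)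
  have hxy := L.xy
  unfold cr at c1 c2
  simp only [mem_singleton] at c1 c2
  unfold Ends
  by_cases a1 : s j = x
  · have a2 : ¬ s j = y := fun h' => hxy (a1.symm.trans h')
    have a3 : t j = y := by
      by_contra a4
      exact c2 ⟨fun h' => absurd h' a2, fun h' => absurd h' a4⟩
    exact Or.inl ⟨a1, a3⟩
  · have a3 : t j = x := by
      by_contra a4
      exact c1 ⟨fun h' => absurd h' a1, fun h' => absurd h' a4⟩
    have a4 : ¬ t j = y := fun h' => hxy (a3.symm.trans h')
    have a5 : s j = y := by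
      by_contra a6
      exact c2 ⟨fun h' => absurd h' a6, fun h' => absurd h' a4⟩
    exact Or.inr ⟨a5, a3⟩

lemma crA {X : Finset V} (hX : X ⊆ rv vs x y) : ¬ cr s t X g0 ∧ ¬ cr s t X j := by
  have hx : x ∉ X := fun h' => (mem_rv.1 (hX h')).2.1 rfl
  have hy : y ∉ X := fun h' => (mem_rv.1 (hX h')).2.2 rfl
  rw [L.E0.cr, (EjA h L).cr]
  simp only [hx, hy, not_true, not_false_iff, and_self]

lemma hypA : Hyp2 s t (rv vs x y) (es \ {g0, j}) (F.erase j) (P.erase g0) (rv vp x y) T := by
  have hsing : ∀ v, v ≠ x → v ≠ y → ¬ cr s t {v} g0 ∧ ¬ cr s t {v} j := by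
    intro v hvx hvy
    rw [L.E0.cr, (EjA h L).cr]
    simp only [mem_singleton, hvx.symm, hvy.symm, not_true, not_false_iff, and_self]
  have mes : ∀ g, g ∈ es \ {g0, j} ↔ g ∈ es ∧ g ≠ g0 ∧ g ≠ j := by
    intro g
    simp only [mem_sdiff, mem_insert, mem_singleton, not_or, ne_eq]
  have hes : ∀ X, (¬ cr s t X g0 ∧ ¬ cr s t X j) →
      cn s t (es \ {g0, j}) X = cn s t es X := by
    intro X hX
    apply cn_congr'
    intro g
    rw [mes]
    constructor
    · rintro ⟨h1, h2⟩
      exact ⟨h1.1, h2⟩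
    · rintro ⟨h1, h2⟩
      exact ⟨⟨h1, fun h' => hX.1 (h' ▸ h2), fun h' => hX.2 (h' ▸ h2)⟩, h2⟩
  have hP0 : ∀ X, (¬ cr s t X g0 ∧ ¬ cr s t X j) → cn s t (P.erase g0) X = cn s t P X := by
    intro X hX
    apply cn_congr'
    intro g
    rw [mem_erase]
    constructor
    · rintro ⟨h1, h2⟩
      exact ⟨h1.2, h2⟩
    · rintro ⟨h1, h2⟩
      exact ⟨⟨fun h' => hX.1 (h' ▸ h2), h1⟩, h2⟩
  have hF0 : ∀ X, (¬ cr s t X g0 ∧ ¬ cr s t X j) → cn s t (F.erase j) X = cn s t F X := by
    intro X hX
    apply cn_congr'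
    intro g
    rw [mem_erase]
    constructor
    · rintro ⟨h1, h2⟩
      exact ⟨h1.2, h2⟩
    · rintro ⟨h1, h2⟩
      exact ⟨⟨fun h' => hX.2 (h' ▸ h2), h1⟩, h2⟩
  have rvs : rv vs x y ⊆ vs := fun v hv => (mem_rv.1 hv).1
  exact
  { ends := by
      intro g hg
      rw [mes] at hg
      obtain ⟨h1, h2, h3, h4⟩ := L.avoid h hg.1 hg.2.1 hg.2.2 hg.2.2
      exact ⟨mem_rv.2 ⟨(h.ends g hg.1).1, h1, h2⟩, mem_rv.2 ⟨(h.ends g hg.1).2, h3, h4⟩⟩
    noloop := fun g hg => h.noloop g ((mes g).1 hg).1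
    vpsub := fun v hv => mem_rv.2 ⟨h.vpsub (mem_rv.1 hv).1, (mem_rv.1 hv).2⟩
    cubic := by
      intro v hv hvp
      rw [mem_rv] at hv
      rw [hes _ (hsing v hv.2.1 hv.2.2)]
      exact h.cubic v hv.1 fun h' => hvp (mem_rv.2 ⟨h', hv.2⟩)
    two := by
      intro v hv
      rw [mem_rv] at hv
      rw [hes _ (hsing v hv.2.1 hv.2.2)]
      exact h.two v hv.1
    pone := by
      intro v hv
      rw [mem_rv] at hv
      rw [hP0 _ (hsing v hv.2.1 hv.2.2)]
      exact h.pone v hv.1
    psub := by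
      intro g hg
      rw [mem_erase] at hg
      rw [mes]
      exact ⟨h.psub hg.2, hg.1, fun h' => (disjoint_left.1 h.pf) hg.2 (h' ▸ L.jxF)⟩
    fsub := by
      intro g hg
      rw [mem_erase] at hg
      rw [mes]
      exact ⟨h.fsub hg.2, fun h' => (disjoint_left.1 h.pf) L.g0P (h' ▸ hg.2), hg.1⟩
    pf := by
      rw [disjoint_left]
      intro g hg hg'
      exact (disjoint_left.1 h.pf) (mem_of_mem_erase hg) (mem_of_mem_erase hg')
    pends := by
      intro g hg
      rw [mem_erase] at hg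
      have hj : g ≠ j := fun h' => (disjoint_left.1 h.pf) hg.2 (h' ▸ L.jxF)
      obtain ⟨h1, h2, h3, h4⟩ := L.avoid h (h.psub hg.2) hg.1 hj hj
      exact ⟨mem_rv.2 ⟨(h.pends g hg.2).1, h1, h2⟩, mem_rv.2 ⟨(h.pends g hg.2).2, h3, h4⟩⟩
    join := by
      intro v hv
      rw [mem_rv] at hv
      rw [hF0 _ (hsing v hv.2.1 hv.2.2)]
      exact h.join v hv.1
    cut := by
      intro X hX ho
      rw [hes _ (crA h L hX)]
      apply h.cut X (hX.trans rvs)
      rw [← rv_self hX, rv_sdiff L.hx L.hy] at ho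
      exact ho
    tcard := h.tcard
    meet := by
      intro X hX ho hc
      apply h.meet X (hX.trans rvs)
      · rw [← rv_self hX, rv_sdiff L.hx L.hy] at ho
        exact ho
      · intro g hg hgc
        have h1 : g ∈ es \ {g0, j} :=
          (mes g).2 ⟨hg, fun h' => (crA h L hX).1 (h' ▸ hgc), fun h' => (crA h L hX).2 (h' ▸ hgc)⟩
        rcases hc g h1 hgc with h2 | h2
        · exact Or.inl (mem_of_mem_erase h2)
        · exact Or.inr (mem_of_mem_erase h2) }

lemma liftA {e : E} (hC : Concl2 s t (rv vs x y) (es \ {g0, j}) (F.erase j) (rv vp x y) e) :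
    Concl2 s t vs es F vp e := by
  obtain ⟨M', hM', heM', hpm, hgood⟩ := hC
  have mes : ∀ g, g ∈ es \ {g0, j} ↔ g ∈ es ∧ g ≠ g0 ∧ g ≠ j := by
    intro g
    simp only [mem_sdiff, mem_insert, mem_singleton, not_or, ne_eq]
  have g0M : g0 ∉ M' := fun h' => ((mes g0).1 (hM' h')).2.1 rfl
  have jM : j ∉ M' := fun h' => ((mes j).1 (hM' h')).2.2 rfl
  have g0es := h.psub L.g0P
  have hx0 : cn s t M' {x} = 0 := by
    rw [cn_eq_zero]
    intro g hg hc
    have h1 := (mes g).1 (hM' hg)
    rcases (L.cx g h1.1).1 hc with h' | h'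
    · exact h1.2.1 h'
    · exact h1.2.2 h'
  have hy0 : cn s t M' {y} = 0 := by
    rw [cn_eq_zero]
    intro g hg hc
    have h1 := (mes g).1 (hM' hg)
    rcases (L.cy g h1.1).1 hc with h' | h'
    · exact h1.2.1 h'
    · exact h1.2.2 h'
  refine ⟨insert g0 M', ?_, mem_insert_of_mem heM', ?_, ?_⟩
  · intro g hg
    rw [mem_insert] at hg
    rcases hg with hg | hg
    · exact hg ▸ g0es
    · exact ((mes g).1 (hM' hg)).1
  · intro v hv
    rw [cn_insert g0M]
    by_cases hvx : v = x
    · rw [hvx, hx0, ci_eq_one.2 ((L.cx g0 g0es).2 (Or.inl rfl))]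
    by_cases hvy : v = y
    · rw [hvy, hy0, ci_eq_one.2 ((L.cy g0 g0es).2 (Or.inl rfl))]
    have h1 : ci s t {v} g0 = 0 := by
      rw [ci_eq_zero, L.E0.cr]
      simp only [mem_singleton, Ne.symm hvx, Ne.symm hvy, not_true, not_false_iff]
    rw [h1, zero_add]
    exact hpm v (mem_rv.2 ⟨hv, hvx, hvy⟩)
  · intro Z hZ hZo
    by_contra hcon
    have hall : ∀ g ∈ es, cr s t Z g → g ∈ insert g0 M' ∧ g ∈ F := by
      intro g hg hc
      by_contra h'
      exact hcon ⟨g, hg, hc, h'⟩
    obtain ⟨g, hg, hc, hn⟩ := hgood (rv Z x y)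
      (fun v hv => mem_rv.2 ⟨hZ (mem_rv.1 hv).1, (mem_rv.1 hv).2⟩)
      (by rw [rv_sdiff L.hx L.hy]; exact hZo)
    have h1 := (mes g).1 hg
    obtain ⟨k1, k2, k3, k4⟩ := L.avoid h h1.1 h1.2.1 h1.2.2 h1.2.2
    have hc' : cr s t Z g := by
      unfold cr at hc ⊢
      rw [mem_rv, mem_rv] at hc
      simp only [k1, k2, k3, k4, ne_eq, not_false_iff, and_true] at hc
      exact hc
    obtain ⟨h2, h3⟩ := hall g h1.1 hc'
    rw [mem_insert] at h2
    rcases h2 with h2 | h2
    · exact h1.2.1 h2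
    · exact hn ⟨h2, mem_erase.2 ⟨h1.2.2, h3⟩⟩

end caseA

/-! ### the two edges `jx`, `jy` are different -/

/-- the local situation in the second case -/
structure Loc2 (s t : E → V) (vs : Finset V) (es F P : Finset E) (vp : Finset V) (x y p q : V)
    (g0 jx jy : E) : Prop where
  L : Loc s t es F P vp x y g0 jx jy
  jj : jx ≠ jy
  Ex : Ends s t jx x p
  Ey : Ends s t jy y q
  px : p ≠ x
  py : p ≠ y
  qx : q ≠ x
  qy : q ≠ y
  pq : p ≠ q
  pvs : p ∈ vs
  qvs : q ∈ vs

lemma other2 {s t : E → V} {g : E} (hn : s g ≠ t g) {u : V} (hc : cr s t {u} g) :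
    ∃ p, u ≠ p ∧ Ends s t g u p := by
  unfold cr at hc
  simp only [mem_singleton] at hc
  by_cases h1 : s g = u
  · exact ⟨t g, h1 ▸ hn, Or.inl ⟨h1, rfl⟩⟩
  · by_cases h2 : t g = u
    · exact ⟨s g, fun h3 => hn (h3 ▸ h2.symm), Or.inr ⟨rfl, h2⟩⟩
    · exact absurd ⟨fun h' => absurd h' h1, fun h' => absurd h' h2⟩ hc

lemma exists_loc2 (h : Hyp2 s t vs es F P vp T) {x y : V} {g0 jx jy : E}
    (L : Loc s t es F P vp x y g0 jx jy) (hj : jx ≠ jy) :
    ∃ p q, Loc2 s t vs es F P vp x y p q g0 jx jy := by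
  have mjx := h.fsub L.jxF
  have mjy := h.fsub L.jyF
  obtain ⟨p, hp, Ep⟩ := other2 (h.noloop jx mjx) ((L.cx jx mjx).2 (Or.inr rfl))
  obtain ⟨q, hq, Eq⟩ := other2 (h.noloop jy mjy) ((L.cy jy mjy).2 (Or.inr rfl))
  have py : p ≠ y := by
    intro h'
    have h1 : cr s t {y} jx := by
      rw [Ep.cr]
      simp only [mem_singleton, h', iff_true]
      exact L.xy
    rcases (L.cy jx mjx).1 h1 with h2 | h2
    · exact L.ne_x h h2.symm
    · exact hj h2
  have qx : q ≠ x := by
    intro h'
    have h1 : cr s t {x} jy := by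
      rw [Eq.cr]
      simp only [mem_singleton, h', iff_true]
      exact L.xy.symm
    rcases (L.cx jy mjy).1 h1 with h2 | h2
    · exact L.ne_y h h2.symm
    · exact hj h2.symm
  have pvs : p ∈ vs := by
    have := h.ends jx mjx
    rcases Ep with ⟨h1, h2⟩ | ⟨h1, h2⟩
    · exact h2 ▸ this.2
    · exact h1 ▸ this.1
  have qvs : q ∈ vs := by
    have := h.ends jy mjy
    rcases Eq with ⟨h1, h2⟩ | ⟨h1, h2⟩
    · exact h2 ▸ this.2
    · exact h1 ▸ this.1
  have pq : p ≠ q := by
    intro h'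
    subst h'
    have cpx : cr s t {p} jx := by
      rw [Ep.cr]
      simp only [mem_singleton, iff_true]
      exact hp
    have cpy : cr s t {p} jy := by
      rw [Eq.cr]
      simp only [mem_singleton, iff_true]
      exact hq
    by_cases hpv : p ∈ vp
    · -- two edges of `F` at `p`
      obtain ⟨g1, hg1, hg1c, -⟩ := cn_eq_one_unique' (h.pone p hpv)
      obtain ⟨j', -, hj'⟩ := star2 h hpv hg1 hg1c
      have e1 : jx = j' := by
        rcases (hj' jx mjx).1 cpx with h1 | h1
        · exact absurd (h1 ▸ hg1 : jx ∈ P) fun h2 => (disjoint_left.1 h.pf) h2 L.jxF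
        · exact h1
      have e2 : jy = j' := by
        rcases (hj' jy mjy).1 cpy with h1 | h1
        · exact absurd (h1 ▸ hg1 : jy ∈ P) fun h2 => (disjoint_left.1 h.pf) h2 L.jyF
        · exact h1
      exact hj (e1.trans e2.symm)
    · have hX : ({x, y, p} : Finset V) ⊆ vs := by
        intro v hv
        rw [mem_insert, mem_insert, mem_singleton] at hv
        rcases hv with hv | hv | hv
        · exact hv ▸ L.pxs h
        · exact hv ▸ L.pys h
        · exact hv ▸ pvs
      have hXo : ({x, y, p} : Finset V) \ vp = {p} := by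
        ext v
        rw [mem_sdiff, mem_insert, mem_insert, mem_singleton]
        constructor
        · rintro ⟨h1 | h1 | h1, h2⟩
          · exact absurd (h1 ▸ L.hx) h2
          · exact absurd (h1 ▸ L.hy) h2
          · exact h1
        · intro h1
          exact ⟨Or.inr (Or.inr h1), h1 ▸ hpv⟩
      have h1 := h.cut _ hX (by rw [hXo, card_singleton]; decide)
      have h2 := h.cubic p pvs hpv
      rw [cn_eq_card] at h1 h2
      have h3 : es.filter (cr s t {x, y, p}) ⊆
          ((es.filter (cr s t {p})).erase jx).erase jy := by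
        intro g hg
        rw [mem_filter] at hg
        have g1 : g ≠ g0 := by
          rintro rfl
          have := hg.2
          rw [L.E0.cr] at this
          simp at this
        have g2 : g ≠ jx := by
          rintro rfl
          have := hg.2
          rw [Ep.cr] at this
          simp at this
        have g3 : g ≠ jy := by
          rintro rfl
          have := hg.2
          rw [Eq.cr] at this
          simp at this
        rw [mem_erase, mem_erase, mem_filter]
        refine ⟨g3, g2, hg.1, ?_⟩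
        obtain ⟨k1, k2, k3, k4⟩ := L.avoid h hg.1 g1 g2 g3
        have h4 := hg.2
        unfold cr at h4 ⊢
        simp only [mem_insert, mem_singleton, k1, k2, k3, k4, false_or] at h4 ⊢
        exact h4
      have h5 := card_le_card h3
      rw [card_erase_of_mem, card_erase_of_mem] at h5
      · omega
      · exact mem_filter.2 ⟨mjx, cpx⟩
      · exact mem_erase.2 ⟨hj.symm, mem_filter.2 ⟨mjy, cpy⟩⟩
  exact ⟨p, q, L, hj, Ep, Eq, hp.symm, py, qx, hq.symm, pq, pvs, qvs⟩

section caseB

variable {x y p q : V} {g0 jx jy : E} (h : Hyp2 s t vs es F P vp T)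
  (K : Loc2 s t vs es F P vp x y p q g0 jx jy)

lemma Enew (K : Loc2 s t vs es F P vp x y p q g0 jx jy) :
    Ends (Function.update s jx p) (Function.update t jx q) jx p q :=
  Or.inl ⟨Function.update_self .., Function.update_self ..⟩

lemma cr_old {g : E} (hg : g ≠ jx) (X : Finset V) :
    cr (Function.update s jx p) (Function.update t jx q) X g ↔ cr s t X g := by
  unfold cr
  rw [Function.update_of_ne hg, Function.update_of_ne hg]

include h K

lemma count_single {A A' : Finset E} (hA : A ⊆ es)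
    (hA' : ∀ g, g ∈ A' ↔ g ∈ A ∧ g ≠ g0 ∧ g ≠ jy) (hj : jx ∈ A ↔ jy ∈ A) {v : V} (hvx : v ≠ x)
    (hvy : v ≠ y) :
    cn (Function.update s jx p) (Function.update t jx q) A' {v} = cn s t A {v} := by
  have n0 : ¬ cr s t {v} g0 := by
    rw [K.L.E0.cr]
    simp only [mem_singleton, hvx.symm, hvy.symm, not_true, not_false_iff]
  have hcx : cr s t {v} jx ↔ v = p := by
    rw [K.Ex.cr]
    simp only [mem_singleton, hvx.symm, false_iff, not_not]
    exact eq_comm
  have hcy : cr s t {v} jy ↔ v = q := by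
    rw [K.Ey.cr]
    simp only [mem_singleton, hvy.symm, false_iff, not_not]
    exact eq_comm
  have hcn : cr (Function.update s jx p) (Function.update t jx q) {v} jx ↔ (v = p ∨ v = q) := by
    rw [(Enew K).cr]
    simp only [mem_singleton]
    have hpq := K.pq
    constructor
    · intro h1
      by_contra h2
      rw [not_or] at h2
      exact h1 ⟨fun h3 => absurd h3.symm h2.1, fun h3 => absurd h3.symm h2.2⟩
    · rintro (h1 | h1) h2
      · exact hpq (h1 ▸ (h2.1 h1.symm).symm)
      · exact hpq (h1 ▸ h2.2 h1.symm)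
  by_cases hjA : jx ∈ A
  · have hjA2 := hj.1 hjA
    by_cases hvq : v = q
    · -- `jy` is replaced by `jx`
      have hvp : ¬ v = p := fun h' => K.pq (h'.symm.trans hvq)
      have e1 : A'.filter (cr (Function.update s jx p) (Function.update t jx q) {v}) =
          insert jx ((A.filter (cr s t {v})).erase jy) := by
        ext g
        rw [mem_filter, mem_insert, mem_erase, mem_filter, hA']
        by_cases hg : g = jx
        · rw [hg, hcn]
          constructor
          · exact fun _ => Or.inl rfl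
          · exact fun _ => ⟨⟨hjA, (K.L.ne_x h).symm, K.jj⟩, Or.inr hvq⟩
        · rw [cr_old hg]
          simp only [hg, false_or]
          constructor
          · rintro ⟨⟨h1, h2, h3⟩, h4⟩
            exact ⟨h3, h1, h4⟩
          · rintro ⟨h1, h2, h3⟩
            exact ⟨⟨h2, fun h' => n0 (h' ▸ h3), h1⟩, h3⟩
      rw [cn_eq_card, cn_eq_card, e1, card_insert_of_notMem, card_erase_of_mem]
      · have : 0 < (A.filter (cr s t {v})).card :=
          card_pos.2 ⟨jy, mem_filter.2 ⟨hjA2, hcy.2 hvq⟩⟩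
        omega
      · exact mem_filter.2 ⟨hjA2, hcy.2 hvq⟩
      · rw [mem_erase, mem_filter]
        exact fun h' => hvp (hcx.1 h'.2.2)
    · apply cn_congr'
      intro g
      rw [hA']
      by_cases hg : g = jx
      · subst hg
        rw [hcn, hcx]
        simp only [hvq, or_false]
        constructor
        · rintro ⟨⟨h1, h2, h3⟩, h4⟩
          exact ⟨h1, h4⟩
        · rintro ⟨h1, h2⟩
          exact ⟨⟨h1, (K.L.ne_x h).symm, K.jj⟩, h2⟩
      · rw [cr_old hg]
        constructor
        · rintro ⟨⟨h1, h2, h3⟩, h4⟩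
          exact ⟨h1, h4⟩
        · rintro ⟨h1, h2⟩
          exact ⟨⟨h1, fun h' => n0 (h' ▸ h2), fun h' => hvq (hcy.1 (h' ▸ h2))⟩, h2⟩
  · have hjA2 : jy ∉ A := fun h' => hjA (hj.2 h')
    apply cn_congr'
    intro g
    rw [hA']
    constructor
    · rintro ⟨⟨h1, h2, h3⟩, h4⟩
      have hg : g ≠ jx := fun h' => hjA (h' ▸ h1)
      rw [cr_old hg] at h4
      exact ⟨h1, h4⟩
    · rintro ⟨h1, h2⟩
      have hg : g ≠ jx := fun h' => hjA (h' ▸ h1)
      rw [cr_old hg]
      exact ⟨⟨h1, fun h' => n0 (h' ▸ h2), fun h' => hjA2 (h' ▸ h1)⟩, h2⟩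

lemma mes1 (g : E) : g ∈ es \ {g0, jy} ↔ g ∈ es ∧ g ≠ g0 ∧ g ≠ jy := by
  simp only [mem_sdiff, mem_insert, mem_singleton, not_or, ne_eq]

/-- the counts at the cuts -/
lemma count_cut {X : Finset V} (hX : X ⊆ rv vs x y) :
    cn (Function.update s jx p) (Function.update t jx q) (es \ {g0, jy}) X =
      cn s t es (if p ∈ X then X ∪ {x, y} else X) := by
  have hx : x ∉ X := fun h' => (mem_rv.1 (hX h')).2.1 rfl
  have hy : y ∉ X := fun h' => (mem_rv.1 (hX h')).2.2 rfl
  have mjx := h.fsub K.L.jxF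
  have mjy := h.fsub K.L.jyF
  have mg0 := h.psub K.L.g0P
  have n1 := K.L.ne_x h
  have n2 := K.L.ne_y h
  have n3 := K.jj
  set es0 : Finset E := es \ {g0, jx, jy} with hes0
  have m0 : ∀ g, g ∈ es0 ↔ g ∈ es ∧ g ≠ g0 ∧ g ≠ jx ∧ g ≠ jy := by
    intro g
    simp only [hes0, mem_sdiff, mem_insert, mem_singleton, not_or, ne_eq]
  have e1 : es = insert g0 (insert jx (insert jy es0)) := by
    ext g
    rw [mem_insert, mem_insert, mem_insert, m0]
    constructor
    · intro hg
      tauto
    · rintro (h1 | h1 | h1 | h1)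
      · exact h1 ▸ mg0
      · exact h1 ▸ mjx
      · exact h1 ▸ mjy
      · exact h1.1
  have e2 : es \ {g0, jy} = insert jx es0 := by
    ext g
    rw [mes1 h K, mem_insert, m0]
    constructor
    · rintro ⟨h1, h2, h3⟩
      by_cases h4 : g = jx
      · exact Or.inl h4
      · exact Or.inr ⟨h1, h2, h4, h3⟩
    · rintro (h1 | h1)
      · rw [h1]
        exact ⟨mjx, n1.symm, n3⟩
      · exact ⟨h1.1, h1.2.1, h1.2.2.2⟩
  have c1 : ∀ Y, cn s t es Y = ci s t Y g0 + (ci s t Y jx + (ci s t Y jy + cn s t es0 Y)) := by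
    intro Y
    conv_lhs => rw [e1]
    rw [cn_insert, cn_insert, cn_insert]
    · exact fun h' => ((m0 _).1 h').2.2.2 rfl
    · rw [mem_insert, not_or]
      exact ⟨n3, fun h' => ((m0 _).1 h').2.2.1 rfl⟩
    · rw [mem_insert, mem_insert, not_or, not_or]
      exact ⟨n1, n2, fun h' => ((m0 _).1 h').2.1 rfl⟩
  have c2 : cn (Function.update s jx p) (Function.update t jx q) (es \ {g0, jy}) X =
      ci (Function.update s jx p) (Function.update t jx q) X jx + cn s t es0 X := by
    rw [e2, cn_insert]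
    · congr 1
      apply cn_congr'
      intro g
      constructor
      · rintro ⟨h1, h2⟩
        rw [cr_old ((m0 g).1 h1).2.2.1] at h2
        exact ⟨h1, h2⟩
      · rintro ⟨h1, h2⟩
        rw [cr_old ((m0 g).1 h1).2.2.1]
        exact ⟨h1, h2⟩
    · exact fun h' => ((m0 _).1 h').2.2.1 rfl
  have c3 : cn s t es0 (X ∪ {x, y}) = cn s t es0 X := by
    apply cn_congr'
    intro g
    refine and_congr_right fun hg => ?_
    have h1 := (m0 g).1 hg
    obtain ⟨k1, k2, k3, k4⟩ := K.L.avoid h h1.1 h1.2.1 h1.2.2.1 h1.2.2.2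
    unfold cr
    simp only [mem_union, mem_insert, mem_singleton, k1, k2, k3, k4, or_false]
  have hpx := K.px
  have hpy := K.py
  have hqx := K.qx
  have hqy := K.qy
  rw [c2]
  by_cases hp : p ∈ X
  · rw [if_pos hp, c1, c3]
    unfold ci
    rw [if_congr ((Enew K).cr X) rfl rfl, if_congr (K.L.E0.cr _) rfl rfl,
      if_congr (K.Ex.cr _) rfl rfl, if_congr (K.Ey.cr _) rfl rfl]
    simp only [mem_union, mem_insert, mem_singleton, hp, hpx, hpy, hqx, hqy, true_or, or_true,
      or_false, true_iff]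
    by_cases hq : q ∈ X <;> simp [hq]
  · rw [if_neg hp, c1]
    unfold ci
    rw [if_congr ((Enew K).cr X) rfl rfl, if_congr (K.L.E0.cr _) rfl rfl,
      if_congr (K.Ex.cr _) rfl rfl, if_congr (K.Ey.cr _) rfl rfl]
    by_cases hq : q ∈ X <;> simp [hq, hp, hx, hy]

lemma hypB : Hyp2 (Function.update s jx p) (Function.update t jx q) (rv vs x y) (es \ {g0, jy})
    (F.erase jy) (P.erase g0) (rv vp x y) T := by
  have mjx := h.fsub K.L.jxF
  have mjy := h.fsub K.L.jyF
  have mg0 := h.psub K.L.g0P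
  have n1 := K.L.ne_x h
  have n2 := K.L.ne_y h
  have n3 := K.jj
  have rvs : rv vs x y ⊆ vs := fun v hv => (mem_rv.1 hv).1
  have jxP : jx ∉ P := fun h' => (disjoint_left.1 h.pf) h' K.L.jxF
  have jyP : jy ∉ P := fun h' => (disjoint_left.1 h.pf) h' K.L.jyF
  have g0F : g0 ∉ F := fun h' => (disjoint_left.1 h.pf) K.L.g0P h'
  have cE : ∀ v, v ≠ x → v ≠ y → cn (Function.update s jx p) (Function.update t jx q)
      (es \ {g0, jy}) {v} = cn s t es {v} := fun v h1 h2 =>
    count_single h K (Finset.Subset.refl es) (mes1 h K) ⟨fun _ => mjy, fun _ => mjx⟩ h1 h2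
  have cP : ∀ v, v ≠ x → v ≠ y → cn (Function.update s jx p) (Function.update t jx q)
      (P.erase g0) {v} = cn s t P {v} := fun v h1 h2 => by
    refine count_single h K h.psub (fun g => ?_) ⟨fun h' => absurd h' jxP,
      fun h' => absurd h' jyP⟩ h1 h2
    rw [mem_erase]
    exact ⟨fun h' => ⟨h'.2, h'.1, fun h3 => jyP (h3 ▸ h'.2)⟩, fun h' => ⟨h'.2.1, h'.1⟩⟩
  have cF : ∀ v, v ≠ x → v ≠ y → cn (Function.update s jx p) (Function.update t jx q)
      (F.erase jy) {v} = cn s t F {v} := fun v h1 h2 => by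
    refine count_single h K h.fsub (fun g => ?_) ⟨fun _ => K.L.jyF, fun _ => K.L.jxF⟩ h1 h2
    rw [mem_erase]
    exact ⟨fun h' => ⟨h'.2, fun h3 => g0F (h3 ▸ h'.2), h'.1⟩, fun h' => ⟨h'.2.2, h'.1⟩⟩
  have new_s : Function.update s jx p jx = p := Function.update_self ..
  have new_t : Function.update t jx q jx = q := Function.update_self ..
  exact
  { ends := by
      intro g hg
      rw [mes1 h K] at hg
      by_cases h1 : g = jx
      · rw [h1, new_s, new_t]
        exact ⟨mem_rv.2 ⟨K.pvs, K.px, K.py⟩, mem_rv.2 ⟨K.qvs, K.qx, K.qy⟩⟩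
      · rw [Function.update_of_ne h1, Function.update_of_ne h1]
        obtain ⟨k1, k2, k3, k4⟩ := K.L.avoid h hg.1 hg.2.1 h1 hg.2.2
        exact ⟨mem_rv.2 ⟨(h.ends g hg.1).1, k1, k2⟩, mem_rv.2 ⟨(h.ends g hg.1).2, k3, k4⟩⟩
    noloop := by
      intro g hg
      rw [mes1 h K] at hg
      by_cases h1 : g = jx
      · rw [h1, new_s, new_t]
        exact K.pq
      · rw [Function.update_of_ne h1, Function.update_of_ne h1]
        exact h.noloop g hg.1
    vpsub := fun v hv => mem_rv.2 ⟨h.vpsub (mem_rv.1 hv).1, (mem_rv.1 hv).2⟩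
    cubic := by
      intro v hv hvp
      rw [mem_rv] at hv
      rw [cE v hv.2.1 hv.2.2]
      exact h.cubic v hv.1 fun h' => hvp (mem_rv.2 ⟨h', hv.2⟩)
    two := by
      intro v hv
      rw [mem_rv] at hv
      rw [cE v hv.2.1 hv.2.2]
      exact h.two v hv.1
    pone := by
      intro v hv
      rw [mem_rv] at hv
      rw [cP v hv.2.1 hv.2.2]
      exact h.pone v hv.1
    psub := by
      intro g hg
      rw [mem_erase] at hg
      rw [mes1 h K]
      exact ⟨h.psub hg.2, hg.1, fun h' => jyP (h' ▸ hg.2)⟩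
    fsub := by
      intro g hg
      rw [mem_erase] at hg
      rw [mes1 h K]
      exact ⟨h.fsub hg.2, fun h' => g0F (h' ▸ hg.2), hg.1⟩
    pf := by
      rw [disjoint_left]
      intro g hg hg'
      exact (disjoint_left.1 h.pf) (mem_of_mem_erase hg) (mem_of_mem_erase hg')
    pends := by
      intro g hg
      rw [mem_erase] at hg
      have h1 : g ≠ jx := fun h' => jxP (h' ▸ hg.2)
      have h2 : g ≠ jy := fun h' => jyP (h' ▸ hg.2)
      rw [Function.update_of_ne h1, Function.update_of_ne h1]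
      obtain ⟨k1, k2, k3, k4⟩ := K.L.avoid h (h.psub hg.2) hg.1 h1 h2
      exact ⟨mem_rv.2 ⟨(h.pends g hg.2).1, k1, k2⟩, mem_rv.2 ⟨(h.pends g hg.2).2, k3, k4⟩⟩
    join := by
      intro v hv
      rw [mem_rv] at hv
      rw [cF v hv.2.1 hv.2.2]
      exact h.join v hv.1
    cut := by
      intro X hX ho
      rw [count_cut h K hX]
      apply h.cut
      · split_ifs
        · intro v hv
          rw [mem_union, mem_insert, mem_singleton] at hv
          rcases hv with hv | hv | hv
          · exact rvs (hX hv)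
          · exact hv ▸ K.L.pxs h
          · exact hv ▸ K.L.pys h
        · exact hX.trans rvs
      · split_ifs
        · rw [← rv_sdiff K.L.hx K.L.hy, rv_add hX]
          exact ho
        · rw [← rv_sdiff K.L.hx K.L.hy, rv_self hX]
          exact ho
    tcard := h.tcard
    meet := by
      intro X hX ho hc
      have hx : x ∉ X := fun h' => (mem_rv.1 (hX h')).2.1 rfl
      have hy : y ∉ X := fun h' => (mem_rv.1 (hX h')).2.2 rfl
      apply h.meet X (hX.trans rvs)
      · rw [← rv_sdiff K.L.hx K.L.hy, rv_self hX]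
        exact ho
      · intro g hg hgc
        by_cases g1 : g = jx
        · exact Or.inl (g1 ▸ K.L.jxF)
        by_cases g2 : g = jy
        · exact Or.inl (g2 ▸ K.L.jyF)
        by_cases g3 : g = g0
        · exact Or.inr (g3 ▸ K.L.g0P)
        rcases hc g ((mes1 h K g).2 ⟨hg, g3, g2⟩) ((cr_old g1 X).2 hgc) with h2 | h2
        · exact Or.inl (mem_of_mem_erase h2)
        · exact Or.inr (mem_of_mem_erase h2) }

lemma liftB {e : E} (hC : Concl2 (Function.update s jx p) (Function.update t jx q)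
    (rv vs x y) (es \ {g0, jy}) (F.erase jy) (rv vp x y) e) :
    Concl2 s t vs es F vp e := by
  obtain ⟨M', hM', heM', hpm, hgood⟩ := hC
  have mjx := h.fsub K.L.jxF
  have mjy := h.fsub K.L.jyF
  have mg0 := h.psub K.L.g0P
  have n1 := K.L.ne_x h
  have n2 := K.L.ne_y h
  have n3 := K.jj
  have g0M : g0 ∉ M' := fun h' => ((mes1 h K g0).1 (hM' h')).2.1 rfl
  have jyM : jy ∉ M' := fun h' => ((mes1 h K jy).1 (hM' h')).2.2 rfl
  have hMes : M' ⊆ es := fun g hg => ((mes1 h K g).1 (hM' hg)).1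
  have g0F : g0 ∉ F := fun h' => (disjoint_left.1 h.pf) K.L.g0P h'
  -- the general argument for the odd cuts
  have hfin : ∀ M : Finset E, (∀ g, g ∈ M → g ∈ M' ∨ g = g0 ∨ (g = jy ∧ jx ∈ M')) →
      ∀ Z ⊆ vs, Odd (Z \ vp).card → ∃ g ∈ es, cr s t Z g ∧ ¬ (g ∈ M ∧ g ∈ F) := by
    intro M hM Z hZ hZo
    by_contra hcon
    have hall : ∀ g ∈ es, cr s t Z g → g ∈ M ∧ g ∈ F := by
      intro g hg hc
      by_contra h'
      exact hcon ⟨g, hg, hc, h'⟩
    have sxy : x ∈ Z ↔ y ∈ Z := by
      by_contra h'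
      exact g0F (hall g0 mg0 ((K.L.E0.cr Z).2 h')).2
    obtain ⟨g, hg, hc, hn⟩ := hgood (rv Z x y)
      (fun v hv => mem_rv.2 ⟨hZ (mem_rv.1 hv).1, (mem_rv.1 hv).2⟩)
      (by rw [rv_sdiff K.L.hx K.L.hy]; exact hZo)
    have h1 := (mes1 h K g).1 hg
    apply hn
    by_cases hgx : g = jx
    · rw [hgx] at hc ⊢
      rw [(Enew K).cr, mem_rv, mem_rv] at hc
      simp only [K.px, K.py, K.qx, K.qy, ne_eq, not_false_iff, and_true] at hc
      refine ⟨?_, mem_erase.2 ⟨n3, K.L.jxF⟩⟩
      by_cases h2 : cr s t Z jx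
      · rcases hM _ (hall jx mjx h2).1 with h3 | h3 | h3
        · exact h3
        · exact absurd h3.symm n1
        · exact h3.2
      · have h3 : cr s t Z jy := by
          rw [K.Ex.cr, not_not] at h2
          rw [K.Ey.cr]
          intro h4
          exact hc (h2.symm.trans (sxy.trans h4))
        rcases hM _ (hall jy mjy h3).1 with h4 | h4 | h4
        · exact absurd h4 jyM
        · exact absurd h4.symm n2
        · exact h4.2
    · rw [cr_old hgx] at hc
      obtain ⟨k1, k2, k3, k4⟩ := K.L.avoid h h1.1 h1.2.1 hgx h1.2.2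
      have hc' : cr s t Z g := by
        unfold cr at hc ⊢
        rw [mem_rv, mem_rv] at hc
        simp only [k1, k2, k3, k4, ne_eq, not_false_iff, and_true] at hc
        exact hc
      obtain ⟨h2, h3⟩ := hall g h1.1 hc'
      refine ⟨?_, mem_erase.2 ⟨h1.2.2, h3⟩⟩
      rcases hM g h2 with h4 | h4 | h4
      · exact h4
      · exact absurd h4 h1.2.1
      · exact absurd h4.1 h1.2.2
  -- counts of `M'`
  have hxM : ∀ M : Finset E, M ⊆ es → cn s t M {x} = (if g0 ∈ M then 1 else 0) +
      (if jx ∈ M then 1 else 0) := by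
    intro M hM
    have e1 : M.filter (cr s t {x}) = ({g0, jx} : Finset E).filter fun g => g ∈ M := by
      ext g
      rw [mem_filter, mem_filter, mem_insert, mem_singleton]
      constructor
      · exact fun h' => ⟨(K.L.cx g (hM h'.1)).1 h'.2, h'.1⟩
      · exact fun h' => ⟨h'.2, (K.L.cx g (hM h'.2)).2 h'.1⟩
    rw [cn_eq_card, e1, card_filter, sum_pair n1]
  have hyM : ∀ M : Finset E, M ⊆ es → cn s t M {y} = (if g0 ∈ M then 1 else 0) +
      (if jy ∈ M then 1 else 0) := by
    intro M hM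
    have e1 : M.filter (cr s t {y}) = ({g0, jy} : Finset E).filter fun g => g ∈ M := by
      ext g
      rw [mem_filter, mem_filter, mem_insert, mem_singleton]
      constructor
      · exact fun h' => ⟨(K.L.cy g (hM h'.1)).1 h'.2, h'.1⟩
      · exact fun h' => ⟨h'.2, (K.L.cy g (hM h'.2)).2 h'.1⟩
    rw [cn_eq_card, e1, card_filter, sum_pair n2]
  by_cases hj : jx ∈ M'
  · have hsub : insert jy M' ⊆ es := insert_subset mjy hMes
    refine ⟨insert jy M', hsub, mem_insert_of_mem heM', ?_, ?_⟩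
    · intro v hv
      by_cases hvx : v = x
      · rw [hvx, hxM _ hsub, if_neg, if_pos (mem_insert_of_mem hj)]
        rw [mem_insert, not_or]
        exact ⟨n2, g0M⟩
      by_cases hvy : v = y
      · rw [hvy, hyM _ hsub, if_neg, if_pos (mem_insert_self _ _)]
        rw [mem_insert, not_or]
        exact ⟨n2, g0M⟩
      rw [← hpm v (mem_rv.2 ⟨hv, hvx, hvy⟩)]
      symm
      refine count_single h K hsub (fun g => ?_) ⟨fun _ => mem_insert_self _ _,
        fun _ => mem_insert_of_mem hj⟩ hvx hvy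
      rw [mem_insert]
      constructor
      · intro hg
        exact ⟨Or.inr hg, fun h' => g0M (h' ▸ hg), fun h' => jyM (h' ▸ hg)⟩
      · rintro ⟨h1 | h1, h2, h3⟩
        · exact absurd h1 h3
        · exact h1
    · apply hfin
      intro g hg
      rw [mem_insert] at hg
      rcases hg with hg | hg
      · exact Or.inr (Or.inr ⟨hg, hj⟩)
      · exact Or.inl hg
  · have hsub : insert g0 M' ⊆ es := insert_subset mg0 hMes
    refine ⟨insert g0 M', hsub, mem_insert_of_mem heM', ?_, ?_⟩
    · intro v hv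
      by_cases hvx : v = x
      · rw [hvx, hxM _ hsub, if_pos (mem_insert_self _ _), if_neg]
        rw [mem_insert, not_or]
        exact ⟨n1.symm, hj⟩
      by_cases hvy : v = y
      · rw [hvy, hyM _ hsub, if_pos (mem_insert_self _ _), if_neg]
        rw [mem_insert, not_or]
        exact ⟨n2.symm, jyM⟩
      rw [← hpm v (mem_rv.2 ⟨hv, hvx, hvy⟩)]
      symm
      refine count_single h K hsub (fun g => ?_) ⟨?_, ?_⟩ hvx hvy
      · rw [mem_insert]
        constructor
        · intro hg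
          exact ⟨Or.inr hg, fun h' => g0M (h' ▸ hg), fun h' => jyM (h' ▸ hg)⟩
        · rintro ⟨h1 | h1, h2, h3⟩
          · exact absurd h1 h2
          · exact h1
      · intro h'
        rw [mem_insert] at h'
        rcases h' with h' | h'
        · exact absurd h'.symm n1
        · exact absurd h' hj
      · intro h'
        rw [mem_insert] at h'
        rcases h' with h' | h'
        · exact absurd h'.symm n2
        · exact absurd h' jyM
    · apply hfin
      intro g hg
      rw [mem_insert] at hg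
      rcases hg with hg | hg
      · exact Or.inr (Or.inl hg)
      · exact Or.inl hg

end caseB

end Supp

open Supp in
/-- **suppression of the paired vertices of degree two** -/
theorem supp {N : ℕ} (hB : ∀ (s t : E → V) (vs : Finset V) (es F : Finset E), vs.card < N →
      Hyp s t vs es F → ∀ e ∈ es, Concl s t vs es F e) (k : ℕ) :
    ∀ (s t : E → V) (vs : Finset V) (es F P : Finset E) (vp T : Finset V), P.card = k →
      (vs \ vp).card < N → Hyp2 s t vs es F P vp T → ∀ e ∈ es, s e ∉ vp → t e ∉ vp →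
      Concl2 s t vs es F vp e := by
  induction k with
  | zero =>
    intro s t vs es F P vp T hP hN h e he _ _
    have hP0 : P = ∅ := card_eq_zero.1 hP
    have hvp : vp = ∅ := by
      rw [eq_empty_iff_forall_notMem]
      intro v hv
      have h1 := h.pone v hv
      rw [hP0] at h1
      unfold cn at h1
      rw [sum_empty] at h1
      exact absurd h1 (by decide)
    subst hvp
    have hH : Hyp s t vs es F :=
      { ends := h.ends
        noloop := h.noloop
        cubic := fun v hv => h.cubic v hv (notMem_empty v)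
        oddcut := by
          intro X hX ho
          apply h.cut X hX
          rwa [sdiff_empty]
        sub := h.fsub
        join := h.join
        seven := by
          rintro ⟨Z, hZ, hdis⟩
          have h1 : ∀ i, ((Z i) ∩ T).Nonempty := by
            intro i
            apply h.meet (Z i) (hZ i).1
            · rw [sdiff_empty]
              exact (hZ i).2.1
            · intro g hg hc
              exact Or.inl ((hZ i).2.2 g hg hc)
          choose w hw using h1
          have hinj : Function.Injective w := by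
            intro i j hij
            by_contra hne
            have h2 := hdis i j hne
            exact (disjoint_left.1 h2) (mem_inter.1 (hw i)).1 (hij ▸ (mem_inter.1 (hw j)).1)
          have h3 : (univ : Finset (Fin 7)).card ≤ T.card :=
            card_le_card_of_injOn w (fun i _ => (mem_inter.1 (hw i)).2) hinj.injOn
          have h4 := h.tcard
          rw [card_univ, Fintype.card_fin] at h3
          omega }
    obtain ⟨M, h1, h2, h3, h4⟩ := hB s t vs es F (by rwa [sdiff_empty] at hN) hH e he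
    refine ⟨M, h1, h2, h3, ?_⟩
    intro Z hZ ho
    rw [sdiff_empty] at ho
    exact h4 Z hZ ho
  | succ k ih =>
    intro s t vs es F P vp T hP hN h e he hse hte
    obtain ⟨g0, hg0⟩ : P.Nonempty := card_pos.1 (by omega)
    obtain ⟨x, y, jx, jy, L⟩ := exists_loc h hg0
    have hPc : (P.erase g0).card = k := by
      rw [card_erase_of_mem hg0, hP]
      rfl
    have hNc : (rv vs x y \ rv vp x y).card < N := by
      rw [rv_sdiff L.hx L.hy]
      exact hN
    have mjx := h.fsub L.jxF
    have mjy := h.fsub L.jyF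
    have key : ∀ g ∈ es, ∀ v ∈ vp, cr s t {v} g → e ≠ g := by
      rintro g hg v hv hc rfl
      unfold cr at hc
      simp only [mem_singleton] at hc
      apply hc
      constructor
      · intro h1
        exact absurd (h1 ▸ hv) hse
      · intro h1
        exact absurd (h1 ▸ hv) hte
    have he0 : e ≠ g0 := key g0 (h.psub hg0) x L.hx ((L.cx _ (h.psub hg0)).2 (Or.inl rfl))
    have hex : e ≠ jx := key jx mjx x L.hx ((L.cx _ mjx).2 (Or.inr rfl))
    have hey : e ≠ jy := key jy mjy y L.hy ((L.cy _ mjy).2 (Or.inr rfl))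
    have hes : e ∈ es \ {g0, jy} := by
      simp only [mem_sdiff, mem_insert, mem_singleton, not_or]
      exact ⟨he, he0, hey⟩
    by_cases hj : jx = jy
    · subst hj
      exact liftA h L (ih _ _ _ _ _ _ _ _ hPc hNc (hypA h L) e hes
        (fun h' => hse (mem_rv.1 h').1) (fun h' => hte (mem_rv.1 h').1))
    · obtain ⟨p, q, K⟩ := exists_loc2 h L hj
      refine liftB h K (ih _ _ _ _ _ _ _ _ hPc hNc (hypB h K) e hes ?_ ?_)
      · rw [Function.update_of_ne hex]
        exact fun h' => hse (mem_rv.1 h').1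
      · rw [Function.update_of_ne hex]
        exact fun h' => hte (mem_rv.1 h').1

end OddSix
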