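import Pool.Agent.Lib.OddSix.Step
import Pool.Agent.Lib.OddSix.Supp
import Pool.Agent.Lib.OddSix.Cls

/-! Elimination of a circuit, and the reduction at a leaf. -/

set_option autoImplicit false

namespace OddSix

open Finset Classical

variable {V E : Type*} {s t : E → V} {vs : Finset V} {es F N : Finset E} {R : Tree V E}

/-- the identity change is admissible -/
lemma Stk.adm (S : Stk s t vs es F N R) {C : Finset V} (hC : Cl s t vs es F C)
    (hCT : Disjoint C R.T) : Adm s t s t es N C where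
  ag := fun _ _ _ => ⟨rfl, rfl⟩
  pe := by
    intro g hg
    have h1 := mem_filter.1 hg
    exact ⟨h1.2, (S.both hC (S.Nsub h1.1) fun h => (disjoint_left.1 S.NF) h1.1 h).1 h1.2⟩
  nl := fun g hg => S.h.noloop g (S.Nsub (mem_filter.1 hg).1)
  one := by
    intro v hv
    rw [← S.Nv v (hC.1 hv) fun h => (disjoint_left.1 hCT) hv h]
    unfold cn
    refine Finset.sum_subset (filter_subset _ _) fun g hg hng => ?_
    rw [ci_eq_zero]
    intro hc
    apply hng
    refine mem_filter.2 ⟨hg, ?_⟩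
    rcases cr_sing_mem hc with h1 | h1
    · exact h1 ▸ hv
    · exact (S.both hC (S.Nsub hg) fun h => (disjoint_left.1 S.NF) hg h).2 (h1 ▸ hv)

/-- a circuit is eliminated, or there is a set crossed by one edge -/
theorem elim {n : ℕ} (ih : ∀ m < n, ∀ (s t : E → V) (vs : Finset V) (es F : Finset E),
      vs.card = m → Hyp s t vs es F → ∀ e ∈ es, Concl s t vs es F e) (hn : vs.card = n)
    (S : Stk s t vs es F N R) {v : V} (hv : v ∈ vs) (hvT : v ∉ R.T)
    (hno : ¬ Concl s t vs es F R.e) :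
    (∃ l l' τ Z, R.Leaf l l' τ ∧ TyT s t vs es F N R v l τ Z) ∨
      (∃ X ⊆ vs, X ∩ R.T = {R.a, R.p, R.q} ∧
        ∀ g ∈ eH s es F N (comp s t vs es F v), cr s t X g → g = R.e) := by
  have hC := comp_closed (F := F) S.h.ends v
  have hCT := S.comp_disj hv hvT
  have A := S.adm hC hCT
  by_cases hcut : ∀ X ⊆ vs, Odd (X \ comp s t vs es F v).card →
      3 ≤ cn s t (eH s es F N (comp s t vs es F v)) X
  · exfalso
    have H2 := S.hyp2_of hC hCT A hcut
    have hB : ∀ (s t : E → V) (vs : Finset V) (es F : Finset E), vs.card < n →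
        Hyp s t vs es F → ∀ e ∈ es, Concl s t vs es F e :=
      fun s t vs es F hlt h e he => ih _ hlt s t vs es F rfl h e he
    have hlt : (vs \ comp s t vs es F v).card < n := by
      rw [← hn]
      refine card_lt_card ⟨sdiff_subset, fun h => ?_⟩
      exact (mem_sdiff.1 (h hv)).2 (mem_comp_self hv)
    have ma : R.a ∈ R.T := by unfold Tree.T; simp
    have mb : R.b ∈ R.T := by unfold Tree.T; simp
    have hab : s R.e ∈ R.T ∧ t R.e ∈ R.T := S.E0.mem ma mb
    have hCn : ∀ u ∈ R.T, u ∉ comp s t vs es F v := fun u hu h => (disjoint_left.1 hCT) h hu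
    obtain ⟨M, hM, heM, hpm, hgood⟩ := supp hB (eP s N (comp s t vs es F v)).card s t vs _ F _ _ _
      rfl hlt H2 R.e (mem_filter.2 ⟨S.m0, Or.inr (Or.inr (hCn _ hab.1))⟩) (hCn _ hab.1)
      (hCn _ hab.2)
    exact hno (S.concl_of hC A hv rfl hM heM hpm hgood)
  · rcases S.cls hC hCT A hcut with ⟨X, hX, h1, h2⟩ | ⟨l, l', τ, Z, hl, hZ, h1, h2⟩
    · exact Or.inr ⟨X, hX, h1, h2⟩
    · exact Or.inl ⟨l, l', τ, Z, hl, hZ, h1, h2⟩

/-- the reduction at a leaf one of whose edges is outside the join -/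
theorem leaf_step {n : ℕ} (ih : ∀ m < n, ∀ (s t : E → V) (vs : Finset V) (es F : Finset E),
      vs.card = m → Hyp s t vs es F → ∀ e ∈ es, Concl s t vs es F e) (hn : vs.card = n)
    (S : Stk s t vs es F N R) :
    ∀ l l' τ, R.Leaf l l' τ → ∀ F', Hyp s t vs es F' →
      (∃ g ∈ es, cr s t {l} g ∧ g ∉ F') → Concl s t vs es F' R.e := by
  have h6 : 6 ≤ vs.card := by
    rw [← Stk.T_card S]
    exact card_le_card S.sub
  obtain ⟨n1, n2, n3, n4, n5, n6, n7, n8, n9, n10, n11, n12, n13, n14, n15⟩ := Stk.ne_list S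
  obtain ⟨f1, f2, f3, f4, f5, f6, f7, f8, f9, f10⟩ := Stk.e_list S
  have hTm : ∀ v, v = R.a ∨ v = R.b ∨ v = R.p ∨ v = R.q ∨ v = R.p' ∨ v = R.q' → v ∈ vs := by
    intro v hv
    apply S.sub
    unfold Tree.T
    simp only [mem_insert, mem_singleton]
    exact hv
  have va := hTm R.a (by simp)
  have vb := hTm R.b (by simp)
  have vp := hTm R.p (by simp)
  have vq := hTm R.q (by simp)
  have vp' := hTm R.p' (by simp)
  have vq' := hTm R.q' (by simp)
  intro l l' τ hl F' hF' hg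
  rcases hl with ⟨rfl, -, -⟩ | ⟨rfl, -, -⟩ | ⟨rfl, -, -⟩ | ⟨rfl, -, -⟩
  · exact step ih hn hF' S.hcut h6 S.m0 va vb vp n1 n2 n6 S.E0 S.m1 f1 S.E1 hg
  · exact step ih hn hF' S.hcut h6 S.m0 va vb vq n1 n3 n7 S.E0 S.m2 f2 S.E2 hg
  · exact step ih hn hF' S.hcut h6 S.m0 vb va vp' n1.symm n8 n4 S.E0.symm S.m3 f3 S.E3 hg
  · exact step ih hn hF' S.hcut h6 S.m0 vb va vq' n1.symm n9 n5 S.E0.symm S.m4 f4 S.E4 hg

end OddSix
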