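import Pool.Agent.Lib.OddSix.Stk
import Pool.Agent.Lib.OddSix.Match

/-! The perfect matching `N` of the vertices outside the six isolated vertices. -/

set_option autoImplicit false

namespace OddSix

open Finset Classical

variable {V E : Type*} {s t : E → V} {vs : Finset V} {es F : Finset E}

/-- six vertices all of whose edges are in `F` meet every closed odd set -/
theorem meet_six (h : Hyp s t vs es F) {T : Finset V} (hT : T ⊆ vs) (h6 : T.card = 6)
    (full : ∀ v ∈ T, ∀ g ∈ es, cr s t {v} g → g ∈ F) {X : Finset V} (hX : X ⊆ vs)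
    (ho : Odd X.card) (hc : ∀ g ∈ es, cr s t X g → g ∈ F) : (X ∩ T).Nonempty := by
  by_contra hne
  rw [not_nonempty_iff_eq_empty] at hne
  have hd : ∀ v ∈ T, v ∉ X := fun v hv hx => by
    have : v ∈ X ∩ T := mem_inter.2 ⟨hx, hv⟩
    rw [hne] at this
    exact absurd this (notMem_empty v)
  let φ : Fin 6 ≃ T := (T.equivFinOfCardEq h6).symm
  let Z : Fin 7 → Finset V := Fin.cons X fun i => {(φ i : V)}
  have h0 : Z 0 = X := rfl
  have hs : ∀ i : Fin 6, Z i.succ = {(φ i : V)} := fun _ => rfl
  refine h.seven ⟨Z, fun i => ?_, fun i j => ?_⟩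
  · refine Fin.cases ?_ (fun k => ?_) i
    · rw [h0]
      exact ⟨hX, ho, hc⟩
    · rw [hs]
      refine ⟨singleton_subset_iff.2 (hT (φ k).2), ?_, full _ (φ k).2⟩
      rw [card_singleton]
      exact odd_one
  · refine Fin.cases ?_ (fun k => ?_) i
    · refine Fin.cases ?_ (fun l => ?_) j
      · intro h1
        exact absurd rfl h1
      · intro _
        rw [h0, hs, disjoint_singleton_right]
        exact hd _ (φ l).2
    · refine Fin.cases ?_ (fun l => ?_) j
      · intro _
        rw [h0, hs, disjoint_singleton_left]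
        exact hd _ (φ k).2
      · intro h1
        rw [hs, hs, disjoint_singleton]
        intro h2
        apply h1
        rw [φ.injective (Subtype.ext h2)]

/-- the matching `N` -/
theorem exists_N (h : Hyp s t vs es F) {T : Finset V} (hT : T ⊆ vs) (h6 : T.card = 6)
    (full : ∀ v ∈ T, ∀ g ∈ es, cr s t {v} g → g ∈ F) :
    ∃ N ⊆ es, Disjoint N F ∧ ∀ v ∈ vs, v ∉ T → cn s t N {v} = 1 := by
  have hdisj : ∀ Z ⊆ vs \ T, ¬ (Z ∩ T).Nonempty := by
    rintro Z hZ ⟨v, hv⟩
    exact (mem_sdiff.1 (hZ (mem_inter.1 hv).1)).2 (mem_inter.1 hv).2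
  have hnt : ∀ g ∈ es, g ∉ F → s g ∉ T ∧ t g ∉ T := by
    intro g hg hgF
    have hl := h.noloop g hg
    constructor
    · intro h1
      refine hgF (full _ h1 g hg ?_)
      unfold cr
      simp only [mem_singleton]
      intro h2
      exact hl (h2.1 trivial).symm
    · intro h1
      refine hgF (full _ h1 g hg ?_)
      unfold cr
      simp only [mem_singleton]
      intro h2
      exact hl (h2.2 trivial)
  obtain ⟨N, hN, hN1⟩ := exists_match (s := s) (t := t) (W := vs \ T) (D := es \ F)
    (fun g hg => by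
      have h1 := mem_sdiff.1 hg
      exact ⟨mem_sdiff.2 ⟨(h.ends g h1.1).1, (hnt g h1.1 h1.2).1⟩,
        mem_sdiff.2 ⟨(h.ends g h1.1).2, (hnt g h1.1 h1.2).2⟩⟩)
    (fun g hg => h.noloop g (mem_sdiff.1 hg).1)
    (fun v hv => by
      have hv1 := mem_sdiff.1 hv
      have h1 : cn s t es {v} = cn s t (es \ F) {v} + cn s t F {v} := by
        rw [← cn_union sdiff_disjoint, sdiff_union_of_subset h.sub]
      rw [h.cubic v hv1.1] at h1
      have h2 := h.join v hv1.1
      have h3 : cn s t (es \ F) {v} ≠ 0 := by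
        intro h4
        rw [cn_eq_zero] at h4
        refine hdisj {v} (singleton_subset_iff.2 hv) (meet_six h hT h6 full
          (singleton_subset_iff.2 hv1.1) (by rw [card_singleton]; exact odd_one)
          fun g hg hc => ?_)
        by_contra h5
        exact h4 g (mem_sdiff.2 ⟨hg, h5⟩) hc
      obtain ⟨k, hk⟩ := h2
      omega)
    (fun Z hZ hc => by
      by_contra ho
      rw [Nat.not_even_iff_odd] at ho
      refine hdisj Z hZ (meet_six h hT h6 full (hZ.trans sdiff_subset) ho fun g hg hgc => ?_)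
      by_contra h5
      exact hc g (mem_sdiff.2 ⟨hg, h5⟩) hgc)
  refine ⟨N, hN.trans sdiff_subset, ?_, fun v hv hvT => hN1 v (mem_sdiff.2 ⟨hv, hvT⟩)⟩
  rw [disjoint_left]
  intro g hg
  exact (mem_sdiff.1 (hN hg)).2

end OddSix
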