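import Pool.Agent.Lib.OddSix.Glue
import Pool.Agent.Lib.OddSix.Red

/-! Graphs with vertices of degree three and paired vertices of degree two: definitions. -/

set_option autoImplicit false

namespace OddSix

open Finset Classical

variable {V E : Type*}

/-- all vertices have degree three, except those of `vp`, which have degree two: one edge of `P`
and one edge of `F` -/
structure Hyp2 (s t : E → V) (vs : Finset V) (es F P : Finset E) (vp T : Finset V) : Prop where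
  ends : ∀ e ∈ es, s e ∈ vs ∧ t e ∈ vs
  noloop : ∀ e ∈ es, s e ≠ t e
  vpsub : vp ⊆ vs
  cubic : ∀ v ∈ vs, v ∉ vp → cn s t es {v} = 3
  two : ∀ v ∈ vp, cn s t es {v} = 2
  pone : ∀ v ∈ vp, cn s t P {v} = 1
  psub : P ⊆ es
  fsub : F ⊆ es
  pf : Disjoint P F
  pends : ∀ g ∈ P, s g ∈ vp ∧ t g ∈ vp
  join : ∀ v ∈ vs, Odd (cn s t F {v})
  cut : ∀ X ⊆ vs, Odd (X \ vp).card → 3 ≤ cn s t es X
  tcard : T.card ≤ 6
  meet : ∀ X ⊆ vs, Odd (X \ vp).card → (∀ g ∈ es, cr s t X g → g ∈ F ∨ g ∈ P) →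
    (X ∩ T).Nonempty

/-- conclusion for graphs with paired vertices of degree two -/
def Concl2 (s t : E → V) (vs : Finset V) (es F : Finset E) (vp : Finset V) (e : E) : Prop :=
  ∃ M ⊆ es, e ∈ M ∧ (∀ v ∈ vs, cn s t M {v} = 1) ∧
    ∀ Z ⊆ vs, Odd (Z \ vp).card → ∃ g ∈ es, cr s t Z g ∧ ¬ (g ∈ M ∧ g ∈ F)

end OddSix
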