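import Pool.Agent.Lib.OddSix.Stk

/-! A set of type t which is a leaf together with vertices of the circuit: the edges outside `F` are
chosen again inside this set, and the leaf gets two of them. -/

set_option autoImplicit false

namespace OddSix

open Finset Classical

namespace TOne

variable {V E : Type*} {s t : E → V} {vs : Finset V} {es F N : Finset E} {R : Tree V E}

/-- an odd set which is not crossed by a matching of `vs \ T` meets `T` -/
lemma meet_of_match {Q : Finset E} {T : Finset V} (hloop : ∀ g ∈ Q, s g ≠ t g)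
    (hQ : ∀ u ∈ vs, u ∉ T → cn s t Q {u} = 1) {X : Finset V} (hX : X ⊆ vs) (ho : Odd X.card)
    (hc : ∀ g ∈ Q, ¬ cr s t X g) : (X ∩ T).Nonempty := by
  by_contra hne
  rw [not_nonempty_iff_eq_empty] at hne
  have h1 : ∀ u ∈ X, Odd (cn s t Q {u}) := by
    intro u hu
    rw [hQ u (hX hu)]
    · decide
    · intro huT
      have : u ∈ X ∩ T := mem_inter.2 ⟨hu, huT⟩
      rw [hne] at this
      exact absurd this (notMem_empty _)
  have h2 := (odd_cn hloop h1).2 ho
  rw [cn_eq_zero.2 hc] at h2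
  exact absurd h2 (by decide)

/-- at most six disjoint closed odd sets -/
lemma seven_of_match {Q : Finset E} {T : Finset V} (hloop : ∀ g ∈ Q, s g ≠ t g)
    (hQ : ∀ u ∈ vs, u ∉ T → cn s t Q {u} = 1) (hT : T.card ≤ 6) {F' : Finset E}
    (hQF : ∀ g ∈ Q, g ∈ es ∧ g ∉ F') :
    ¬ ∃ Z : Fin 7 → Finset V, (∀ i, Z i ⊆ vs ∧ Odd (Z i).card ∧
      ∀ g ∈ es, cr s t (Z i) g → g ∈ F') ∧ ∀ i j, i ≠ j → Disjoint (Z i) (Z j) := by
  rintro ⟨Z, hZ, hd⟩
  have h1 : ∀ i, ∃ w, w ∈ Z i ∩ T := fun i =>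
    meet_of_match hloop hQ (hZ i).1 (hZ i).2.1
      fun g hg hc => (hQF g hg).2 ((hZ i).2.2 g (hQF g hg).1 hc)
  choose f hf using h1
  have hinj : Function.Injective f := by
    intro i j hij
    by_contra hne
    have h2 := mem_inter.1 (hf i)
    have h3 := mem_inter.1 (hf j)
    exact disjoint_left.1 (hd i j hne) h2.1 (hij ▸ h3.1)
  have h4 : (univ.image f).card = 7 := by
    rw [card_image_of_injective _ hinj]
    simp
  have h5 : univ.image f ⊆ T := by
    intro w hw
    obtain ⟨i, -, rfl⟩ := mem_image.1 hw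
    exact (mem_inter.1 (hf i)).2
  have := card_le_card h5
  omega

lemma cn_congr_filter {A B : Finset E} {X : Finset V} (h : ∀ g, cr s t X g → (g ∈ A ↔ g ∈ B)) :
    cn s t A X = cn s t B X := by
  rw [cn_eq_card, cn_eq_card]
  congr 1
  ext g
  rw [mem_filter, mem_filter]
  exact ⟨fun h' => ⟨(h g h'.2).1 h'.1, h'.2⟩, fun h' => ⟨(h g h'.2).2 h'.1, h'.2⟩⟩

lemma cr_sing {u : V} {g : E} : cr s t {u} g → s g = u ∨ t g = u := by
  intro h
  unfold cr at h
  simp only [mem_singleton] at h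
  by_contra hc
  rw [not_or] at hc
  exact h ⟨fun h' => absurd h' hc.1, fun h' => absurd h' hc.2⟩

lemma cr_of_mixed {X : Finset V} {g : E} (h1 : s g ∈ X ∨ t g ∈ X) (h2 : ¬ (s g ∈ X ∧ t g ∈ X)) :
    cr s t X g := by
  unfold cr
  tauto

lemma not_cr_of_both {X : Finset V} {g : E} (h : s g ∈ X ∧ t g ∈ X) : ¬ cr s t X g := by
  unfold cr
  tauto

/-- degrees in `F` and in the rest at the vertices outside the tree -/
lemma degs (S : Stk s t vs es F N R) {u : V} (hu : u ∈ vs) (huT : u ∉ R.T) :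
    cn s t (es.filter fun g => g ∉ F ∧ g ∉ N) {u} = 1 := by
  have h3 := S.h.cubic u hu
  have hN := S.Nv u hu huT
  have hF := S.h.join u hu
  have e1 := cn_filter_add s t es (fun g => g ∈ F) {u}
  have i1 : es.filter (fun g => g ∈ F) = F := by
    ext g
    rw [mem_filter]
    exact ⟨fun h => h.2, fun h => ⟨S.h.sub h, h⟩⟩
  have e2 := cn_filter_add s t (es.filter fun g => ¬ g ∈ F) (fun g => g ∈ N) {u}
  have i2 : (es.filter fun g => ¬ g ∈ F).filter (fun g => g ∈ N) = N := by
    ext g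
    rw [mem_filter, mem_filter]
    exact ⟨fun h => h.2, fun h => ⟨⟨S.Nsub h, fun h' => disjoint_left.1 S.NF h h'⟩, h⟩⟩
  have i3 : (es.filter fun g => ¬ g ∈ F).filter (fun g => ¬ g ∈ N) =
      es.filter fun g => g ∉ F ∧ g ∉ N := by
    rw [filter_filter]
  rw [i1] at e1
  rw [i2, i3] at e2
  obtain ⟨k, hk⟩ := hF
  omega

lemma leaf_facts {l l' : V} {τ : E} (S : Stk s t vs es F N R) (hl : R.Leaf l l' τ) :
    l ∈ R.T ∧ l' ∈ R.T ∧ l ≠ l' ∧ τ ∈ es ∧ Ends s t τ l' l := by
  have hnd := S.nd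
  simp only [List.nodup_cons, List.mem_cons, List.not_mem_nil, or_false, not_or,
      not_false_eq_true, List.nodup_nil, and_true] at hnd
  unfold Tree.T
  simp only [mem_insert, mem_singleton]
  rcases hl with ⟨rfl, rfl, rfl⟩ | ⟨rfl, rfl, rfl⟩ | ⟨rfl, rfl, rfl⟩ | ⟨rfl, rfl, rfl⟩
  · exact ⟨by tauto, by tauto, fun h => hnd.1.2.1 h.symm, S.m1, S.E1⟩
  · exact ⟨by tauto, by tauto, fun h => hnd.1.2.2.1 h.symm, S.m2, S.E2⟩
  · exact ⟨by tauto, by tauto, fun h => hnd.2.1.2.2.1 h.symm, S.m3, S.E3⟩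
  · exact ⟨by tauto, by tauto, fun h => hnd.2.1.2.2.2 h.symm, S.m4, S.E4⟩

/-- the new `F`: inside `Z` the edges of `F` are replaced by those of `N` -/
noncomputable def reF (s t : E → V) (F N : Finset E) (Z : Finset V) : Finset E :=
  (F.filter fun g => ¬ (s g ∈ Z ∧ t g ∈ Z)) ∪ N.filter fun g => s g ∈ Z ∧ t g ∈ Z

lemma mem_reF {Z : Finset V} {g : E} : g ∈ reF s t F N Z ↔
    (g ∈ F ∧ ¬ (s g ∈ Z ∧ t g ∈ Z)) ∨ (g ∈ N ∧ s g ∈ Z ∧ t g ∈ Z) := by
  unfold reF
  rw [mem_union, mem_filter, mem_filter]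

/-- the matching outside the new `F` -/
noncomputable def reQ (s : E → V) (es F N : Finset E) (C : Finset V) : Finset E :=
  es.filter fun g => g ∉ F ∧ ((s g ∈ C ∧ g ∉ N) ∨ (s g ∉ C ∧ g ∈ N))

lemma mem_reQ {C : Finset V} {g : E} : g ∈ reQ s es F N C ↔
    g ∈ es ∧ g ∉ F ∧ ((s g ∈ C ∧ g ∉ N) ∨ (s g ∉ C ∧ g ∈ N)) := by
  unfold reQ
  rw [mem_filter]

section

variable (S : Stk s t vs es F N R) {v : V} (hv : v ∈ vs) (hvT : v ∉ R.T)
  {l l' : V} {τ : E} (hl : R.Leaf l l' τ) {Z : Finset V}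
  (hZ : TyT s t vs es F N R v l τ Z) (hZC : Z \ comp s t vs es F v = {l})

include S

lemma loop_re {g : E} (hg : g ∈ es) {u : V} (h : s g = u ∨ t g = u) : cr s t {u} g := by
  have hn := S.h.noloop g hg
  unfold cr
  simp only [mem_singleton]
  rcases h with h | h
  · intro h'
    exact hn (h.trans (h'.1 h).symm)
  · intro h'
    exact hn ((h'.2 h).trans h.symm)

include hZ in
lemma re_l : l ∈ Z ∧ l ∈ R.T := by
  have : l ∈ Z ∩ R.T := by rw [hZ.2.1]; exact mem_singleton_self _
  exact mem_inter.1 this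

include hZ in
lemma re_cross {g : E} (hg : g ∈ es) (hFN : g ∈ F ∨ g ∈ N) (hc : cr s t Z g) : g = τ := by
  refine hZ.2.2 g ?_ hc
  unfold eH
  rw [mem_filter]
  refine ⟨hg, ?_⟩
  tauto

include hZ hl in
lemma re_l' : l' ∉ Z := by
  intro h
  have hf := leaf_facts S hl
  have : l' ∈ Z ∩ R.T := mem_inter.2 ⟨h, hf.2.1⟩
  rw [hZ.2.1, mem_singleton] at this
  exact hf.2.2.1 this.symm

include hZC in
lemma re_mem {u : V} (hu : u ∈ Z) (hne : u ≠ l) : u ∈ comp s t vs es F v := by
  by_contra h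
  have : u ∈ Z \ comp s t vs es F v := mem_sdiff.2 ⟨hu, h⟩
  rw [hZC, mem_singleton] at this
  exact hne this

include hv hvT hZ hZC hl in
lemma re_hyp : Hyp s t vs es (reF s t F N Z) where
  ends := S.h.ends
  noloop := S.h.noloop
  cubic := S.h.cubic
  oddcut := S.h.oddcut
  sub := by
    intro g hg
    rcases mem_reF.1 hg with h | h
    · exact S.h.sub h.1
    · exact S.Nsub h.1
  join := by
    intro u hu
    have hf := leaf_facts S hl
    have hlZ := re_l S hZ
    by_cases huZ : u ∈ Z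
    · by_cases hul : u = l
      · subst hul
        have h1 : cn s t (reF s t F N Z) {u} = cn s t {τ} {u} := by
          refine cn_congr_filter fun g hg => ?_
          rw [mem_reF, mem_singleton]
          constructor
          · rintro (⟨h1, h2⟩ | ⟨h1, h2⟩)
            · refine re_cross S hZ (S.h.sub h1) (Or.inl h1) (cr_of_mixed ?_ h2)
              rcases cr_sing hg with h | h
              · exact Or.inl (h ▸ huZ)
              · exact Or.inr (h ▸ huZ)
            · exact absurd (S.full u hlZ.2 g (S.Nsub h1) hg) (disjoint_left.1 S.NF h1)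
          · rintro rfl
            refine Or.inl ⟨S.full u hlZ.2 g hf.2.2.2.1 hg, ?_⟩
            rintro ⟨h1, h2⟩
            have h3 := re_l' S hl hZ
            rcases hf.2.2.2.2 with h | h
            · exact h3 (h.1 ▸ h1)
            · exact h3 (h.2 ▸ h2)
        rw [h1]
        have h2 : cr s t {u} τ := loop_re S hf.2.2.2.1 (by
          rcases hf.2.2.2.2 with h | h
          · exact Or.inr h.2
          · exact Or.inl h.1)
        unfold cn
        rw [sum_singleton, ci_eq_one.2 h2]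
        decide
      · have huC := re_mem S hZC huZ hul
        have huT : u ∉ R.T := fun h => (disjoint_left.1 (S.comp_disj hv hvT)) huC h
        have h1 : cn s t (reF s t F N Z) {u} = cn s t N {u} := by
          refine cn_congr_filter fun g hg => ?_
          have huend := cr_sing hg
          have hmix : s g ∈ Z ∨ t g ∈ Z := by
            rcases huend with h | h
            · exact Or.inl (h ▸ huZ)
            · exact Or.inr (h ▸ huZ)
          have hτ : g ≠ τ := by
            rintro rfl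
            have h3 := re_l' S hl hZ
            rcases hf.2.2.2.2 with h | h <;> rcases huend with h' | h'
            · exact h3 (by rw [← h.1, h']; exact huZ)
            · exact hul (by rw [← h', h.2])
            · exact hul (by rw [← h', h.1])
            · exact h3 (by rw [← h.2, h']; exact huZ)
          rw [mem_reF]
          constructor
          · rintro (⟨h1, h2⟩ | ⟨h1, h2⟩)
            · exact absurd (re_cross S hZ (S.h.sub h1) (Or.inl h1) (cr_of_mixed hmix h2)) hτ
            · exact h1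
          · intro h1
            refine Or.inr ⟨h1, ?_⟩
            by_contra h2
            exact hτ (re_cross S hZ (S.Nsub h1) (Or.inr h1) (cr_of_mixed hmix h2))
        rw [h1, S.Nv u hu huT]
        decide
    · have h1 : cn s t (reF s t F N Z) {u} = cn s t F {u} := by
        refine cn_congr_filter fun g hg => ?_
        have huend := cr_sing hg
        have hnb : ¬ (s g ∈ Z ∧ t g ∈ Z) := by
          rintro ⟨h1, h2⟩
          rcases huend with h | h
          · exact huZ (h ▸ h1)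
          · exact huZ (h ▸ h2)
        rw [mem_reF]
        tauto
      rw [h1]
      exact S.h.join u hu
  seven := by
    have hcl := comp_closed (F := F) S.h.ends v
    have hs : ∀ g ∈ es, g ∉ F → ∀ u, cr s t {u} g →
        (u ∈ comp s t vs es F v ↔ s g ∈ comp s t vs es F v) := by
      intro g hg hgF u hc
      have h1 : ¬ cr s t (comp s t vs es F v) g := fun h => hgF (hcl.2 g hg h)
      unfold cr at h1
      rw [not_not] at h1
      rcases cr_sing hc with h | h
      · rw [h]
      · rw [h1, h]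
    refine seven_of_match (Q := reQ s es F N (comp s t vs es F v)) (T := R.T) ?_ ?_ ?_ ?_
    · intro g hg
      exact S.h.noloop g (mem_reQ.1 hg).1
    · intro u hu huT
      by_cases huC : u ∈ comp s t vs es F v
      · rw [← degs S hu huT]
        refine cn_congr_filter fun g hg => ?_
        rw [mem_reQ, mem_filter]
        constructor
        · rintro ⟨h1, h2, h3 | h3⟩
          · exact ⟨h1, h2, h3.2⟩
          · exact absurd ((hs g h1 h2 u hg).1 huC) h3.1
        · rintro ⟨h1, h2, h3⟩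
          exact ⟨h1, h2, Or.inl ⟨(hs g h1 h2 u hg).1 huC, h3⟩⟩
      · rw [← S.Nv u hu huT]
        refine cn_congr_filter fun g hg => ?_
        rw [mem_reQ]
        constructor
        · rintro ⟨h1, h2, h3 | h3⟩
          · exact absurd ((hs g h1 h2 u hg).2 h3.1) huC
          · exact h3.2
        · intro h1
          have h2 : g ∉ F := disjoint_left.1 S.NF h1
          exact ⟨S.Nsub h1, h2, Or.inr ⟨fun h3 => huC ((hs g (S.Nsub h1) h2 u hg).2 h3), h1⟩⟩
    · unfold Tree.T
      exact card_le_six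
    · intro g hg
      rw [mem_reQ] at hg
      refine ⟨hg.1, fun h => ?_⟩
      rcases mem_reF.1 h with h | h
      · exact hg.2.1 h.1
      · rcases hg.2.2 with h' | h'
        · exact h'.2 h.1
        · have h3 : s g = l := by
            by_contra hne
            exact h'.1 (re_mem S hZC h.2.1 hne)
          have h4 := S.full l (re_l S hZ).2 g hg.1 (loop_re S hg.1 (Or.inl h3))
          exact hg.2.1 h4

end

end TOne

open TOne

variable {V E : Type*} {s t : E → V} {vs : Finset V} {es F N : Finset E} {R : Tree V E}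

/-- **Sets of type t, smallest case.** -/
theorem t1 (S : Stk s t vs es F N R) {v : V} (hv : v ∈ vs) (hvT : v ∉ R.T) {l l' : V} {τ : E}
    (hl : R.Leaf l l' τ) {Z : Finset V} (hZ : TyT s t vs es F N R v l τ Z)
    (hZC : Z \ comp s t vs es F v = {l})
    (step : ∀ F', Hyp s t vs es F' → (∃ g ∈ es, cr s t {l} g ∧ g ∉ F') →
      Concl s t vs es F' R.e) : Concl s t vs es F R.e := by
  have hf := leaf_facts S hl
  have hlZ := re_l S hZ
  have hlvs : l ∈ vs := S.sub hf.1
  have hH := re_hyp S hv hvT hl hZ hZC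
  -- legs of the leaf
  have leg : ∀ g ∈ es, cr s t {l} g → g ≠ τ → g ∉ reF s t F N Z ∧ (s g ∈ Z ∧ t g ∈ Z) := by
    intro g hg hc hne
    have hgF := S.full l hlZ.2 g hg hc
    have hb : s g ∈ Z ∧ t g ∈ Z := by
      by_contra h2
      refine hne (re_cross S hZ hg (Or.inl hgF) (cr_of_mixed ?_ h2))
      rcases cr_sing hc with h | h
      · exact Or.inl (h ▸ hlZ.1)
      · exact Or.inr (h ▸ hlZ.1)
    refine ⟨fun h => ?_, hb⟩
    rcases mem_reF.1 h with h | h
    · exact h.2 hb
    · exact disjoint_left.1 S.NF h.1 hgF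
  -- two of them
  obtain ⟨g1, m1, c1, g2, m2, c2, n12, n1, n2⟩ : ∃ g1 ∈ es, cr s t {l} g1 ∧ ∃ g2 ∈ es,
      cr s t {l} g2 ∧ g1 ≠ g2 ∧ g1 ≠ τ ∧ g2 ≠ τ := by
    have h3 := S.h.cubic l hlvs
    rw [cn_eq_card] at h3
    have h4 : 1 < ((es.filter (cr s t {l})).erase τ).card := by
      have := pred_card_le_card_erase (s := es.filter (cr s t {l})) (a := τ)
      omega
    obtain ⟨g1, h1, g2, h2, h12⟩ := one_lt_card.1 h4
    rw [mem_erase, mem_filter] at h1 h2
    exact ⟨g1, h1.2.1, h1.2.2, g2, h2.2.1, h2.2.2, h12, h1.1, h2.1⟩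
  obtain ⟨M, hM, heM, hM1, hgood⟩ := step _ hH ⟨g1, m1, c1, (leg g1 m1 c1 n1).1⟩
  refine ⟨M, hM, heM, hM1, fun X hX ho => ?_⟩
  by_contra hcon
  have hall : ∀ g ∈ es, cr s t X g → g ∈ M ∧ g ∈ F := by
    intro g hg hc
    by_contra h
    exact hcon ⟨g, hg, hc, h⟩
  have hcl : Cl s t vs es F X := ⟨hX, fun g hg hc => (hall g hg hc).2⟩
  -- a leg outside `M`
  obtain ⟨g0, m0, c0, k0, nM⟩ : ∃ g0 ∈ es, cr s t {l} g0 ∧ g0 ≠ τ ∧ g0 ∉ M := by
    by_contra hc
    have hg1 : g1 ∈ M := by
      by_contra h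
      exact hc ⟨g1, m1, c1, n1, h⟩
    have hg2 : g2 ∈ M := by
      by_contra h
      exact hc ⟨g2, m2, c2, n2, h⟩
    have h5 := hM1 l hlvs
    rw [cn_eq_card] at h5
    have h6 : 1 < (M.filter (cr s t {l})).card :=
      one_lt_card.2 ⟨g1, mem_filter.2 ⟨hg1, c1⟩, g2, mem_filter.2 ⟨hg2, c2⟩, n12⟩
    omega
  have hb0 := (leg g0 m0 c0 k0).2
  have hnc0 : ¬ cr s t X g0 := fun h => nM (hall g0 m0 h).1
  have hn0 := S.h.noloop g0 m0
  obtain ⟨w, hwZ, hwl, hlw⟩ : ∃ w ∈ Z, w ≠ l ∧ (l ∈ X ↔ w ∈ X) := by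
    unfold cr at hnc0
    rw [not_not] at hnc0
    rcases cr_sing c0 with h | h
    · exact ⟨t g0, hb0.2, fun h' => hn0 (h.trans h'.symm), by rw [← h]; exact hnc0⟩
    · exact ⟨s g0, hb0.1, fun h' => hn0 (h'.trans h.symm), by rw [← h]; exact hnc0.symm⟩
  have hwC := re_mem S hZC hwZ hwl
  obtain ⟨g, hg, hc, hgg⟩ := hgood X hX ho
  have h7 := hall g hg hc
  have h8 : s g ∈ Z ∧ t g ∈ Z := by
    by_contra h
    exact hgg ⟨h7.1, mem_reF.2 (Or.inl ⟨h7.2, h⟩)⟩
  have hside : ∀ u ∈ Z, (u ∈ X ↔ w ∈ X) := by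
    intro u hu
    by_cases hul : u = l
    · rw [hul]; exact hlw
    · have huC := re_mem S hZC hu hul
      rcases comp_or S.h.ends hv hcl with h | h
      · exact ⟨fun _ => h hwC, fun _ => h huC⟩
      · exact ⟨fun h' => absurd h' (disjoint_left.1 h huC),
          fun h' => absurd h' (disjoint_left.1 h hwC)⟩
  apply hc
  rw [hside _ h8.1, hside _ h8.2]

end OddSix
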