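import Pool.Agent.Lib.OddSix.Step
import Pool.Agent.Lib.OddSix.T1

/-! The rotation: a blocking set whose part outside the circuit consists of isolated vertices.
The edges outside `F` are chosen again inside this set. -/

set_option autoImplicit false

namespace OddSix

open Finset Classical

namespace Rot

variable {V E : Type*} {s t : E → V} {vs : Finset V} {es F N : Finset E} {R : Tree V E}

/-- the rotation, set form: `Z` consists of vertices of the circuit `C` and of vertices of `T`;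
`L` is the set of vertices of `Z \ C` which get a new circuit edge -/
theorem rot_aux (h : Hyp s t vs es F) {e : E}
    {T : Finset V} (hT : T.card ≤ 6) (hTF : ∀ v ∈ T, ∀ g ∈ es, cr s t {v} g → g ∈ F)
    (hN : ∀ g ∈ N, g ∈ es ∧ g ∉ F) (hN1 : ∀ v ∈ vs, v ∉ T → cn s t N {v} = 1)
    {C : Finset V} (hC : ∀ v ∈ C, v ∈ vs ∧ v ∉ T) (hCcl : ∀ g ∈ es, cr s t C g → g ∈ F)
    (hCcon : ∀ Y ⊆ vs, (∀ g ∈ es, cr s t Y g → g ∈ F) → C ⊆ Y ∨ Disjoint C Y)
    {Z : Finset V} (hZ : Z ⊆ vs) (hZm : ∀ v ∈ Z, v ∈ C ∨ v ∈ T)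
    {f : E} (hfC : s f ∉ C ∧ t f ∉ C)
    (hZf : ∀ g ∈ es, cr s t Z g → g ≠ f → g ∉ F ∧ g ∉ N ∧ s g ∈ C ∧ t g ∈ C)
    {L : Finset V} (hLZ : ∀ x ∈ L, x ∈ Z ∧ x ∉ C)
    (hLf : ∀ x ∈ L, ∃ fx ∈ es, cr s t {x} fx ∧ (s fx ∉ C ∧ t fx ∉ C) ∧
      ∀ g ∈ es, cr s t {x} g → g ≠ fx → (s g ∈ Z ∧ t g ∈ Z) ∧ (s g ∈ C ∨ t g ∈ C))
    (hnL : ∀ v ∈ Z, v ∉ C → v ∉ L → ∀ g ∈ es, cr s t {v} g → s g ∉ C ∧ t g ∉ C)
    {x0 : V} (hx0 : x0 ∈ L)
    (step : ∀ F', Hyp s t vs es F' → (∃ g ∈ es, cr s t {x0} g ∧ g ∉ F') →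
      Concl s t vs es F' e) :
    Concl s t vs es F e := by
  have hLT : ∀ x ∈ L, x ∈ T := by
    intro x hx
    rcases hZm x (hLZ x hx).1 with h1 | h1
    · exact absurd h1 (hLZ x hx).2
    · exact h1
  -- the new join
  set A := F.filter fun g => ¬ ((s g ∈ Z ∧ t g ∈ Z) ∧ (s g ∈ C ∨ t g ∈ C)) with hA
  set B := N.filter fun g => s g ∈ Z ∧ t g ∈ Z with hB
  set F' := A ∪ B with hF'
  have hF'mem : ∀ g, g ∈ F' ↔ (g ∈ F ∧ ¬ ((s g ∈ Z ∧ t g ∈ Z) ∧ (s g ∈ C ∨ t g ∈ C))) ∨
      (g ∈ N ∧ s g ∈ Z ∧ t g ∈ Z) := by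
    intro g
    rw [hF', mem_union, hA, hB, mem_filter, mem_filter]
  have hcnL : ∀ x ∈ L, cn s t F' {x} = 1 := by
    intro x hx
    obtain ⟨fx, hfx, hfxc, hfxC, hall⟩ := hLf x hx
    rw [cn_eq_card, card_eq_one]
    refine ⟨fx, ?_⟩
    ext g
    rw [mem_filter, mem_singleton, hF'mem]
    constructor
    · rintro ⟨h1 | h1, h2⟩
      · by_contra hgf
        exact h1.2 (hall g (h.sub h1.1) h2 hgf)
      · exact absurd (hTF x (hLT x hx) g (hN g h1.1).1 h2) (hN g h1.1).2
    · rintro rfl
      refine ⟨Or.inl ⟨hTF x (hLT x hx) g hfx hfxc, ?_⟩, hfxc⟩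
      rintro ⟨-, h1 | h1⟩
      · exact hfxC.1 h1
      · exact hfxC.2 h1
  have hsub : F' ⊆ es := by
    intro g hg
    rw [hF'mem] at hg
    rcases hg with hg | hg
    · exact h.sub hg.1
    · exact (hN g hg.1).1
  have hjoin : ∀ v ∈ vs, Odd (cn s t F' {v}) := by
    intro v hv
    by_cases hvZ : v ∈ Z
    · by_cases hvC : v ∈ C
      · have h2 : cn s t F' {v} = cn s t N {v} := by
          refine TOne.cn_congr_filter fun g h4 => ?_
          rw [hF'mem]
          have hmix : ¬ (s g ∈ Z ∧ t g ∈ Z) → cr s t Z g := by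
            intro h5
            refine TOne.cr_of_mixed ?_ h5
            rcases TOne.cr_sing h4 with h6 | h6
            · exact Or.inl (h6 ▸ hvZ)
            · exact Or.inr (h6 ▸ hvZ)
          have hgC : s g ∈ C ∨ t g ∈ C := by
            rcases TOne.cr_sing h4 with h6 | h6
            · exact Or.inl (h6 ▸ hvC)
            · exact Or.inr (h6 ▸ hvC)
          have hgf : g ≠ f := by
            intro h5
            rw [h5] at hgC
            rcases hgC with h6 | h6
            · exact hfC.1 h6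
            · exact hfC.2 h6
          constructor
          · rintro (h3 | h3)
            · exfalso
              by_cases h5 : s g ∈ Z ∧ t g ∈ Z
              · exact h3.2 ⟨h5, hgC⟩
              · exact (hZf g (h.sub h3.1) (hmix h5) hgf).1 h3.1
            · exact h3.1
          · intro h3
            refine Or.inr ⟨h3, ?_⟩
            by_contra h5
            exact (hZf g (hN g h3).1 (hmix h5) hgf).2.1 h3
        rw [h2, hN1 v hv (hC v hvC).2]
        decide
      · by_cases hvL : v ∈ L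
        · rw [hcnL v hvL]; decide
        · have hvT : v ∈ T := by
            rcases hZm v hvZ with h1 | h1
            · exact absurd h1 hvC
            · exact h1
          have h2 : cn s t F' {v} = cn s t F {v} := by
            refine TOne.cn_congr_filter fun g h4 => ?_
            rw [hF'mem]
            constructor
            · rintro (h3 | h3)
              · exact h3.1
              · exact absurd (hTF v hvT g (hN g h3.1).1 h4) (hN g h3.1).2
            · intro h3
              refine Or.inl ⟨h3, ?_⟩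
              rintro ⟨-, h5⟩
              have h6 := hnL v hvZ hvC hvL g (h.sub h3) h4
              rcases h5 with h5 | h5
              · exact h6.1 h5
              · exact h6.2 h5
          rw [h2]
          exact h.join v hv
    · have h2 : cn s t F' {v} = cn s t F {v} := by
        refine TOne.cn_congr_filter fun g h4 => ?_
        rw [hF'mem]
        have hnb : ¬ (s g ∈ Z ∧ t g ∈ Z) := by
          rintro ⟨h5, h6⟩
          rcases TOne.cr_sing h4 with h7 | h7
          · exact hvZ (h7 ▸ h5)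
          · exact hvZ (h7 ▸ h6)
        constructor
        · rintro (h3 | h3)
          · exact h3.1
          · exact absurd h3.2 hnb
        · intro h3
          exact Or.inl ⟨h3, fun h5 => hnb h5.1⟩
      rw [h2]
      exact h.join v hv
  -- the other matching
  set N1 := N.filter fun g => ¬ (s g ∈ C ∧ t g ∈ C) with hN1d
  set N2 := es.filter fun g => g ∉ F ∧ g ∉ N ∧ s g ∈ C ∧ t g ∈ C with hN2d
  have hN' : ∀ v ∈ vs, v ∉ T → cn s t (N1 ∪ N2) {v} = 1 := by
    intro v hv hvT
    by_cases hvC : v ∈ C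
    · have h1 : cn s t (N1 ∪ N2) {v} = cn s t (es.filter fun g => g ∉ F ∧ g ∉ N) {v} := by
        refine TOne.cn_congr_filter fun g h4 => ?_
        rw [mem_union, hN1d, hN2d, mem_filter, mem_filter, mem_filter]
        have hboth : g ∈ es → g ∉ F → s g ∈ C ∧ t g ∈ C := by
          intro h2 h3
          by_contra h5
          refine h3 (hCcl g h2 (TOne.cr_of_mixed ?_ h5))
          rcases TOne.cr_sing h4 with h6 | h6
          · exact Or.inl (h6 ▸ hvC)
          · exact Or.inr (h6 ▸ hvC)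
        constructor
        · rintro (h2 | h2)
          · exact absurd (hboth (hN g h2.1).1 (hN g h2.1).2) h2.2
          · exact ⟨h2.1, h2.2.1, h2.2.2.1⟩
        · intro h2
          exact Or.inr ⟨h2.1, h2.2.1, h2.2.2, hboth h2.1 h2.2.1⟩
      have h2 := cn_filter_add s t es (fun g => g ∈ F) ({v} : Finset V)
      have h3 := cn_filter_add s t (es.filter fun g => ¬ g ∈ F) (fun g => g ∈ N) ({v} : Finset V)
      have h4 : es.filter (fun g => g ∈ F) = F := by
        ext g
        rw [mem_filter]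
        exact ⟨fun h' => h'.2, fun h' => ⟨h.sub h', h'⟩⟩
      have h5 : (es.filter fun g => ¬ g ∈ F).filter (fun g => g ∈ N) = N := by
        ext g
        rw [mem_filter, mem_filter]
        exact ⟨fun h' => h'.2, fun h' => ⟨⟨(hN g h').1, (hN g h').2⟩, h'⟩⟩
      have h6 : (es.filter fun g => ¬ g ∈ F).filter (fun g => ¬ g ∈ N) =
          es.filter fun g => g ∉ F ∧ g ∉ N := by
        ext g
        rw [mem_filter, mem_filter, mem_filter]
        exact ⟨fun h' => ⟨h'.1.1, h'.1.2, h'.2⟩, fun h' => ⟨⟨h'.1, h'.2.1⟩, h'.2.2⟩⟩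
      rw [h4] at h2
      rw [h5, h6] at h3
      have h7 := h.cubic v hv
      have h9 := hN1 v hv hvT
      obtain ⟨k, hk⟩ := h.join v hv
      rw [h1]
      omega
    · have h1 : cn s t (N1 ∪ N2) {v} = cn s t N {v} := by
        refine TOne.cn_congr_filter fun g h4 => ?_
        rw [mem_union, hN1d, hN2d, mem_filter, mem_filter]
        have hnb : ¬ (s g ∈ C ∧ t g ∈ C) := by
          rintro ⟨h5, h6⟩
          rcases TOne.cr_sing h4 with h7 | h7
          · exact hvC (h7 ▸ h5)
          · exact hvC (h7 ▸ h6)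
        constructor
        · rintro (h2 | h2)
          · exact h2.1
          · exact absurd ⟨h2.2.2.2.1, h2.2.2.2.2⟩ hnb
        · intro h2
          exact Or.inl ⟨h2, hnb⟩
      rw [h1]
      exact hN1 v hv hvT
  have hN'es : ∀ g ∈ N1 ∪ N2, g ∈ es := by
    intro g hg
    rw [mem_union, hN1d, hN2d, mem_filter, mem_filter] at hg
    rcases hg with hg | hg
    · exact (hN g hg.1).1
    · exact hg.1
  have hN'F' : ∀ g ∈ N1 ∪ N2, g ∉ F' := by
    intro g hg hgF
    rw [mem_union, hN1d, hN2d, mem_filter, mem_filter] at hg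
    rw [hF'mem] at hgF
    rcases hg with hg | hg
    · rcases hgF with h1 | h1
      · exact (hN g hg.1).2 h1.1
      · apply hg.2
        have hn := h.noloop g (hN g hg.1).1
        have hout : ∀ v, (s g = v ∨ t g = v) → v ∈ T → False := by
          intro v hv hvT
          refine (hN g hg.1).2 (hTF v hvT g (hN g hg.1).1 ?_)
          unfold OddSix.cr
          simp only [mem_singleton]
          rcases hv with hv | hv
          · intro h2
            exact hn (hv.trans (h2.1 hv).symm)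
          · intro h2
            exact hn ((h2.2 hv).trans hv.symm)
        constructor
        · rcases hZm _ h1.2.1 with h2 | h2
          · exact h2
          · exact (hout _ (Or.inl rfl) h2).elim
        · rcases hZm _ h1.2.2 with h2 | h2
          · exact h2
          · exact (hout _ (Or.inr rfl) h2).elim
    · rcases hgF with h1 | h1
      · exact hg.2.1 h1.1
      · exact hg.2.2.1 h1.1
  have hHyp : Hyp s t vs es F' :=
    { ends := h.ends
      noloop := h.noloop
      cubic := h.cubic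
      oddcut := h.oddcut
      sub := hsub
      join := hjoin
      seven := TOne.seven_of_match (Q := N1 ∪ N2) (T := T)
        (fun g hg => h.noloop g (hN'es g hg)) hN' hT fun g hg => ⟨hN'es g hg, hN'F' g hg⟩ }
  have hLvs : ∀ x ∈ L, x ∈ vs := fun x hx => hZ (hLZ x hx).1
  have hNS : ∃ g ∈ es, cr s t {x0} g ∧ g ∉ F' := by
    by_contra hcon
    have h1 : ∀ g ∈ es, cr s t {x0} g → g ∈ F' := by
      intro g hg hc
      by_contra h'
      exact hcon ⟨g, hg, hc, h'⟩
    have h2 : es.filter (cr s t {x0}) ⊆ F'.filter (cr s t {x0}) := by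
      intro g hg
      rw [mem_filter] at hg ⊢
      exact ⟨h1 g hg.1 hg.2, hg.2⟩
    have h3 := card_le_card h2
    rw [← cn_eq_card, ← cn_eq_card, h.cubic x0 (hLvs x0 hx0), hcnL x0 hx0] at h3
    omega
  obtain ⟨M, hM, heM, hpm, hgood⟩ := step F' hHyp hNS
  refine ⟨M, hM, heM, hpm, ?_⟩
  intro Y hY hYo
  by_contra hcon
  have hall : ∀ g ∈ es, cr s t Y g → g ∈ M ∧ g ∈ F := by
    intro g hg hc
    by_contra h'
    exact hcon ⟨g, hg, hc, h'⟩
  obtain ⟨g, hg, hgc, hgn⟩ := hgood Y hY hYo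
  obtain ⟨hgM, hgF⟩ := hall g hg hgc
  have hgZ : (s g ∈ Z ∧ t g ∈ Z) ∧ (s g ∈ C ∨ t g ∈ C) := by
    by_contra h'
    exact hgn ⟨hgM, (hF'mem g).2 (Or.inl ⟨hgF, h'⟩)⟩
  -- every vertex of `L` is on the same side as some vertex of `C`
  have hside : ∀ x ∈ L, ∃ c ∈ C, (x ∈ Y ↔ c ∈ Y) := by
    intro x hx
    obtain ⟨fx, hfx, hfxc, hfxC, hallx⟩ := hLf x hx
    obtain ⟨l, hl, hlc, hlf, hlM⟩ : ∃ l ∈ es, cr s t {x} l ∧ l ≠ fx ∧ l ∉ M := by
      by_contra hcon2
      have h1 : (es.filter (cr s t {x})).erase fx ⊆ M.filter (cr s t {x}) := by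
        intro g' hg'
        rw [mem_erase, mem_filter] at hg'
        rw [mem_filter]
        refine ⟨?_, hg'.2.2⟩
        by_contra h'
        exact hcon2 ⟨g', hg'.2.1, hg'.2.2, hg'.1, h'⟩
      have h2 := card_le_card h1
      rw [card_erase_of_mem (mem_filter.2 ⟨hfx, hfxc⟩), ← cn_eq_card, ← cn_eq_card,
        h.cubic x (hLvs x hx), hpm x (hLvs x hx)] at h2
      omega
    have hlY : ¬ cr s t Y l := fun hc => hlM (hall l hl hc).1
    unfold OddSix.cr at hlY
    rw [not_not] at hlY
    have hlC := (hallx l hl hlc hlf).2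
    rcases TOne.cr_sing hlc with h1 | h1
    · refine ⟨t l, ?_, ?_⟩
      · rcases hlC with h2 | h2
        · exact absurd (h1 ▸ h2) (hLZ x hx).2
        · exact h2
      · rw [← h1]; exact hlY
    · refine ⟨s l, ?_, ?_⟩
      · rcases hlC with h2 | h2
        · exact h2
        · exact absurd (h1 ▸ h2) (hLZ x hx).2
      · rw [← h1]; exact hlY.symm
  have hconst : ∃ b : Prop, ∀ v ∈ C, (v ∈ Y ↔ b) := by
    rcases hCcon Y hY fun g hg hc => (hall g hg hc).2 with h1 | h1
    · exact ⟨True, fun v hv => ⟨fun _ => trivial, fun _ => h1 hv⟩⟩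
    · rw [disjoint_left] at h1
      exact ⟨False, fun v hv => ⟨fun h' => h1 hv h', fun h' => h'.elim⟩⟩
  obtain ⟨b, hb⟩ := hconst
  have hn := h.noloop g hg
  have hend : ∀ v, (s g = v ∨ t g = v) → v ∈ Z → (v ∈ Y ↔ b) := by
    intro v hv hvZ
    by_cases hvC : v ∈ C
    · exact hb v hvC
    · by_cases hvL : v ∈ L
      · obtain ⟨c, hc, hcY⟩ := hside v hvL
        rw [hcY]
        exact hb c hc
      · exfalso
        have hc : cr s t {v} g := by
          unfold OddSix.cr
          simp only [mem_singleton]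
          rcases hv with hv | hv
          · intro h2
            exact hn (hv.trans (h2.1 hv).symm)
          · intro h2
            exact hn ((h2.2 hv).trans hv.symm)
        have h3 := hnL v hvZ hvC hvL g hg hc
        rcases hgZ.2 with h4 | h4
        · exact h3.1 h4
        · exact h3.2 h4
  apply hgc
  rw [hend _ (Or.inl rfl) hgZ.1.1, hend _ (Or.inr rfl) hgZ.1.2]

end Rot

variable {V E : Type*} {s t : E → V} {vs : Finset V} {es F N : Finset E} {R : Tree V E}

/-- rotation for a set whose part outside the circuit is `{a, p, q}` -/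
theorem rot (S : Stk s t vs es F N R) {v : V} (hv : v ∈ vs) (hvT : v ∉ R.T)
    {Z : Finset V} (hZ : Z ⊆ vs) (hZC : Z \ comp s t vs es F v = {R.a, R.p, R.q})
    (hZc : ∀ g ∈ eH s es F N (comp s t vs es F v), cr s t Z g → g = R.e)
    (step : ∀ F', Hyp s t vs es F' → (∃ g ∈ es, cr s t {R.p} g ∧ g ∉ F') →
      Concl s t vs es F' R.e) : Concl s t vs es F R.e := by
  have hcl := comp_closed (F := F) S.h.ends v
  have hdisj := S.comp_disj hv hvT
  have hnd := S.nd
  simp only [List.nodup_cons, List.mem_cons, List.not_mem_nil, or_false, not_or,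
    not_false_eq_true, List.nodup_nil, and_true] at hnd
  obtain ⟨⟨hab, hap, haq, hap', haq'⟩, ⟨hbp, hbq, hbp', hbq'⟩, ⟨hpq, hpp', hpq'⟩, ⟨hqp', hqq'⟩,
    hpq2⟩ := hnd
  have hTcard : R.T.card ≤ 6 := by
    unfold Tree.T
    exact card_le_six
  have hT6 : R.T.card = 6 := by
    have h1 : R.T = [R.a, R.b, R.p, R.q, R.p', R.q'].toFinset := by
      unfold Tree.T
      simp
    rw [h1, List.toFinset_card_of_nodup S.nd]
    rfl
  have h6 : 6 ≤ vs.card := hT6 ▸ card_le_card S.sub
  have ma : R.a ∈ R.T := by simp [Tree.T]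
  have mb : R.b ∈ R.T := by simp [Tree.T]
  have mp : R.p ∈ R.T := by simp [Tree.T]
  have mq : R.q ∈ R.T := by simp [Tree.T]
  have hnC : ∀ u ∈ R.T, u ∉ comp s t vs es F v := fun u hu h' => (disjoint_left.1 hdisj) h' hu
  have hends : ∀ {g : E} {x y : V}, Ends s t g x y → x ∈ R.T → y ∈ R.T →
      s g ∉ comp s t vs es F v ∧ t g ∉ comp s t vs es F v := by
    intro g x y hg hx hy
    rcases hg with ⟨h1, h2⟩ | ⟨h1, h2⟩ <;> rw [h1, h2]
    · exact ⟨hnC x hx, hnC y hy⟩
    · exact ⟨hnC y hy, hnC x hx⟩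
  have hmem : ∀ u, u ∈ Z → u ∉ comp s t vs es F v → u = R.a ∨ u = R.p ∨ u = R.q := by
    intro u hu huC
    have : u ∈ Z \ comp s t vs es F v := mem_sdiff.2 ⟨hu, huC⟩
    rw [hZC] at this
    simpa using this
  have hmem' : ∀ u, (u = R.a ∨ u = R.p ∨ u = R.q) → u ∈ Z ∧ u ∉ comp s t vs es F v := by
    intro u hu
    have : u ∈ Z \ comp s t vs es F v := by
      rw [hZC]
      simpa using hu
    exact mem_sdiff.1 this
  have hZf : ∀ g ∈ es, cr s t Z g → g ≠ R.e →
      g ∉ F ∧ g ∉ N ∧ s g ∈ comp s t vs es F v ∧ t g ∈ comp s t vs es F v := by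
    intro g hg hc hne
    have h6 : ¬ (g ∈ F ∨ g ∈ N ∨ s g ∉ comp s t vs es F v) := by
      intro h7
      exact hne (hZc g (mem_filter.2 ⟨hg, h7⟩) hc)
    rw [not_or, not_or, not_not] at h6
    refine ⟨h6.1, h6.2.1, h6.2.2, ?_⟩
    have h7 : ¬ cr s t (comp s t vs es F v) g := fun h8 => h6.1 (hcl.2 g hg h8)
    unfold OddSix.cr at h7
    rw [not_not] at h7
    exact h7.1 h6.2.2
  -- the legs of a leaf
  have hleg : ∀ x y : V, ∀ fx fy : E, x ≠ y → R.a ≠ x → R.a ≠ y → R.b ≠ x → x ∈ R.T →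
      (x = R.a ∨ x = R.p ∨ x = R.q) → (∀ u, (u = R.a ∨ u = R.p ∨ u = R.q) → u = R.a ∨ u = x ∨ u = y) →
      y ∈ vs → fx ∈ es → fy ∈ es →
      Ends s t fx R.a x → Ends s t fy R.a y → (∀ g ∈ es, cr s t {R.a} g → g = R.e ∨ g = fx ∨ g = fy) →
      ∀ g ∈ es, cr s t {x} g → g ≠ fx → (s g ∈ Z ∧ t g ∈ Z) ∧
        (s g ∈ comp s t vs es F v ∨ t g ∈ comp s t vs es F v) := by
    intro x y fx fy hxy hax hay hbx hxT hx3 hu3 hyv mfx mfy Ex Ey hall g hg hc hne
    have hgF := S.full x hxT g hg hc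
    have hge : g ≠ R.e := by
      intro h'
      rw [h', S.E0.cr] at hc
      exact hc ⟨fun h1 => absurd (mem_singleton.1 h1) hax, fun h1 => absurd (mem_singleton.1 h1) hbx⟩
    have hnc : ¬ cr s t Z g := fun hc' => (hZf g hg hc' hge).1 hgF
    obtain ⟨z, hz, hxz, Ez⟩ := other S.h hg hc
    have hzZ : z ∈ Z := by
      rw [Ez.cr, not_not] at hnc
      exact hnc.1 (hmem' x hx3).1
    refine ⟨Ez.mem (hmem' x hx3).1 hzZ, ?_⟩
    have hzC : z ∈ comp s t vs es F v := by
      by_contra hzC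
      rcases hu3 z (hmem z hzZ hzC) with h1 | h1 | h1
      · have hca : cr s t {R.a} g := by
          rw [h1] at Ez
          exact Ez.symm.cross_left hax
        rcases hall g hg hca with h2 | h2 | h2
        · exact hge h2
        · exact hne h2
        · rw [h1] at Ez
          rw [h2] at Ez
          exact hxy (Ez.symm.unique Ey hax).symm
      · exact hxz h1.symm
      · rw [h1] at Ez
        exact tri S.h S.hcut h6 (S.sub ma) (S.sub hxT) hyv hax hay hxy mfx mfy hg Ex Ey Ez
    rcases Ez with ⟨h1, h2⟩ | ⟨h1, h2⟩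
    · right; rw [h2]; exact hzC
    · left; rw [h1]; exact hzC
  refine Rot.rot_aux (N := N) (T := R.T) (C := comp s t vs es F v) (Z := Z) (f := R.e)
    (L := {R.p, R.q}) (x0 := R.p) S.h hTcard S.full ?_ S.Nv ?_ hcl.2 ?_ hZ ?_ ?_ hZf ?_ ?_ ?_ ?_
    step
  · intro g hg
    exact ⟨S.Nsub hg, fun h' => (disjoint_left.1 S.NF) hg h'⟩
  · intro u hu
    exact ⟨comp_sub v hu, fun h' => (disjoint_left.1 hdisj) hu h'⟩
  · intro Y hY hYc
    exact comp_or S.h.ends hv ⟨hY, hYc⟩
  · intro u hu
    by_cases huC : u ∈ comp s t vs es F v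
    · exact Or.inl huC
    · right
      rcases hmem u hu huC with h1 | h1 | h1 <;> rw [h1]
      exacts [ma, mp, mq]
  · exact hends S.E0 ma mb
  · intro x hx
    rw [mem_insert, mem_singleton] at hx
    exact hmem' x (Or.inr hx)
  · intro x hx
    rw [mem_insert, mem_singleton] at hx
    rcases hx with rfl | rfl
    · refine ⟨R.e1, S.m1, S.E1.symm.cross_left (Ne.symm hap), hends S.E1 ma mp, ?_⟩
      exact hleg R.p R.q R.e1 R.e2 hpq hap haq hbp mp (Or.inr (Or.inl rfl))
        (fun u hu => hu) (S.sub mq) S.m1 S.m2 S.E1 S.E2 S.alla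
    · refine ⟨R.e2, S.m2, S.E2.symm.cross_left (Ne.symm haq), hends S.E2 ma mq, ?_⟩
      exact hleg R.q R.p R.e2 R.e1 (Ne.symm hpq) haq hap hbq mq (Or.inr (Or.inr rfl))
        (fun u hu => by
          rcases hu with h' | h' | h'
          exacts [Or.inl h', Or.inr (Or.inr h'), Or.inr (Or.inl h')]) (S.sub mp) S.m2 S.m1 S.E2 S.E1
        (fun g hg hc => by
          rcases S.alla g hg hc with h' | h' | h'
          exacts [Or.inl h', Or.inr (Or.inr h'), Or.inr (Or.inl h')])
  · intro u hu huC huL g hg hc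
    have hua : u = R.a := by
      rcases hmem u hu huC with h1 | h1 | h1
      · exact h1
      · exact absurd (by rw [h1]; simp) huL
      · exact absurd (by rw [h1]; simp) huL
    rw [hua] at hc
    rcases S.alla g hg hc with h1 | h1 | h1 <;> rw [h1]
    · exact hends S.E0 ma mb
    · exact hends S.E1 ma mp
    · exact hends S.E2 ma mq
  · simp

end OddSix
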