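import Pool.Agent.Lib.OddSix.T1
import Pool.Agent.Lib.OddSix.RotA

/-! The stuck situation in which every circuit has a blocking set: one descent for blocking sets
of all types, and a rotation for the two possible shapes of a smallest one. -/

set_option autoImplicit false

namespace OddSix

open Finset Classical

namespace DAll

variable {V E : Type*} {s t : E → V} {vs : Finset V} {es F N : Finset E} {R : Tree V E}

lemma ends_symm {g : E} {p q : V} (h : Ends s t g p q) : Ends s t g q p := by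
  rcases h with h | h
  · exact Or.inr h
  · exact Or.inl h

lemma ex_ends {X : Finset V} {g : E} (hc : cr s t X g) :
    ∃ p q, Ends s t g p q ∧ p ∈ X ∧ q ∉ X := by
  have h0 : (s g ∈ X ∧ t g ∉ X) ∨ (s g ∉ X ∧ t g ∈ X) := by
    unfold cr at hc; tauto
  rcases h0 with h1 | h1
  · exact ⟨s g, t g, Or.inl ⟨rfl, rfl⟩, h1.1, h1.2⟩
  · exact ⟨t g, s g, Or.inr ⟨rfl, rfl⟩, h1.2, h1.1⟩

/-- at most one crossing edge -/
lemma le_one {X : Finset V} (g0 : E) (hg : ∀ g ∈ es, cr s t X g → g = g0) :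
    cn s t es X ≤ 1 := by
  rw [cn_eq_card, card_le_one]
  intro a ha b hb
  rw [mem_filter] at ha hb
  rw [hg a ha.1 ha.2, hg b hb.1 hb.2]

/-- at most two crossing edges -/
lemma le_two {X : Finset V} (g0 g1 : E) (hg : ∀ g ∈ es, cr s t X g → g = g0 ∨ g = g1) :
    cn s t es X ≤ 2 := by
  rw [cn_eq_card]
  refine (card_le_card (t := {g0, g1}) ?_).trans card_le_two
  intro g hgX
  rw [mem_filter] at hgX
  rw [mem_insert, mem_singleton]
  exact hg g hgX.1 hgX.2

lemma nodup (S : Stk s t vs es F N R) :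
    (R.a ≠ R.b ∧ R.a ≠ R.p ∧ R.a ≠ R.q ∧ R.a ≠ R.p' ∧ R.a ≠ R.q') ∧
    (R.b ≠ R.p ∧ R.b ≠ R.q ∧ R.b ≠ R.p' ∧ R.b ≠ R.q') ∧
    (R.p ≠ R.q ∧ R.p ≠ R.p' ∧ R.p ≠ R.q') ∧ (R.q ≠ R.p' ∧ R.q ≠ R.q') ∧ R.p' ≠ R.q' := by
  have hnd := S.nd
  simp only [List.nodup_cons, List.mem_cons, List.not_mem_nil, or_false, not_or,
    not_false_eq_true, List.nodup_nil, and_true] at hnd
  exact hnd

lemma cardT (S : Stk s t vs es F N R) : R.T.card = 6 := by
  have h1 : R.T = [R.a, R.b, R.p, R.q, R.p', R.q'].toFinset := by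
    ext v
    simp [Tree.T]
  rw [h1, List.toFinset_card_of_nodup S.nd]
  rfl

lemma odd_iff (S : Stk s t vs es F N R) {X : Finset V} (hX : X ⊆ vs) :
    Odd (cn s t es X) ↔ Odd X.card := by
  refine odd_cn S.h.noloop ?_
  intro v hv
  rw [S.h.cubic v (hX hv)]
  decide

/-- a set crossed by at most one edge is not crossed at all -/
lemma zero (S : Stk s t vs es F N R) {X : Finset V} (hX : X ⊆ vs)
    (h1 : cn s t es X ≤ 1) : ∀ g ∈ es, ¬ cr s t X g := by
  have he : Even X.card := by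
    by_contra ho
    rw [Nat.not_even_iff_odd] at ho
    have := S.h.oddcut X hX ho
    omega
  rw [← cn_eq_zero]
  have h2 : ¬ Odd (cn s t es X) := by
    rw [odd_iff S hX, Nat.not_odd_iff_even]
    exact he
  rw [Nat.not_odd_iff_even] at h2
  obtain ⟨k, hk⟩ := h2
  omega

/-- closed sets off the six vertices are even -/
lemma evenc (S : Stk s t vs es F N R) {X : Finset V} (hX : Cl s t vs es F X)
    (hT : Disjoint X R.T) : Even X.card := by
  have h1 : cn s t N X = 0 := by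
    rw [cn_eq_zero]
    intro g hg hc
    exact (disjoint_left.1 S.NF) hg (hX.2 g (S.Nsub hg) hc)
  have h2 : Odd (cn s t N X) ↔ Odd X.card := by
    refine odd_cn (fun g hg => S.h.noloop g (S.Nsub hg)) ?_
    intro v hv
    rw [S.Nv v (hX.1 hv) ((disjoint_left.1 hT) hv)]
    decide
  rw [h1] at h2
  by_contra h3
  rw [Nat.not_even_iff_odd, ← h2] at h3
  exact absurd h3 (by decide)

/-- evenness up to the six vertices -/
lemma evenc' (S : Stk s t vs es F N R) {X : Finset V} (hX : Cl s t vs es F X) :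
    Even (X \ R.T).card := by
  refine evenc S ⟨sdiff_subset.trans hX.1, fun g hg hcr => ?_⟩ sdiff_disjoint
  by_contra hF
  obtain ⟨p, q, hE, hp, hq⟩ := ex_ends hcr
  rw [mem_sdiff] at hp hq
  have h1 : ¬ cr s t X g := fun h => hF (hX.2 g hg h)
  rw [hE.cr] at h1
  have hqX : q ∈ X := by tauto
  have hqT : q ∈ R.T := by tauto
  have h2 : ¬ cr s t {q} g := fun h => hF (S.full q hqT g hg h)
  rw [hE.cr, mem_singleton, mem_singleton] at h2
  have hpq : p ≠ q := fun h3 => hp.2 (h3 ▸ hqT)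
  exact h2 fun h3 => hpq (h3.2 rfl)

lemma cl_sdiff {X Y : Finset V} (hX : Cl s t vs es F X) (hY : Cl s t vs es F Y) :
    Cl s t vs es F (X \ Y) := by
  refine ⟨sdiff_subset.trans hX.1, fun g hg hc => ?_⟩
  have h1 := hX.2 g hg
  have h2 := hY.2 g hg
  unfold cr at hc h1 h2
  rw [mem_sdiff, mem_sdiff] at hc
  tauto

/-- all edges of `G` minus the deleted half of the circuit of `v` that cross `Z` are equal to
`f`, an edge of `F` -/
def OneX (s t : E → V) (vs : Finset V) (es F N : Finset E) (v : V) (f : E)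
    (Z : Finset V) : Prop :=
  Z ⊆ vs ∧ f ∈ F ∧ ∀ g ∈ eH s es F N (comp s t vs es F v), cr s t Z g → g = f

/-- a blocking set for the circuit of `v` -/
def Blk (s t : E → V) (vs : Finset V) (es F N : Finset E) (R : Tree V E) (v : V)
    (Z : Finset V) : Prop :=
  Odd (Z ∩ R.T).card ∧ (Z ∩ R.T).card ≤ 3 ∧ ∃ f, OneX s t vs es F N v f Z

/-- the edges leaving `Z \ C` -/
lemma tout {v : V} {f : E} {Z : Finset V}
    (hZ : OneX s t vs es F N v f Z) {g : E} (hg : g ∈ es) {p q : V} (hE : Ends s t g p q)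
    (hp : p ∈ Z \ comp s t vs es F v) (hq : q ∉ Z \ comp s t vs es F v) :
    (g = f ∧ q ∉ Z) ∨ q ∈ comp s t vs es F v := by
  rw [mem_sdiff] at hp hq
  by_cases hqC : q ∈ comp s t vs es F v
  · exact Or.inr hqC
  have hqZ : q ∉ Z := fun h2 => hq ⟨h2, hqC⟩
  refine Or.inl ⟨hZ.2.2 g ?_ ?_, hqZ⟩
  · refine mem_filter.2 ⟨hg, Or.inr (Or.inr ?_)⟩
    rcases hE with h4 | h4
    · rw [h4.1]; exact hp.2
    · rw [h4.1]; exact hqC
  · rw [hE.cr]
    exact fun h3 => hqZ (h3.1 hp.1)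

/-- the part of `Z` outside `C` is closed -/
lemma tcl (S : Stk s t vs es F N R) {v : V} {f : E} {Z : Finset V}
    (hZ : OneX s t vs es F N v f Z) : Cl s t vs es F (Z \ comp s t vs es F v) := by
  refine ⟨sdiff_subset.trans hZ.1, fun g hg hc => ?_⟩
  obtain ⟨p, q, hE, hp, hq⟩ := ex_ends hc
  rcases tout hZ hg hE hp hq with h1 | h1
  · exact h1.1 ▸ hZ.2.1
  · refine (comp_closed S.h.ends v).2 g hg ?_
    rw [hE.cr]
    exact fun h3 => (mem_sdiff.1 hp).2 (h3.2 h1)

/-- the complement of a blocking set -/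
lemma OneX.compl (S : Stk s t vs es F N R) {v : V} {f : E} {Z : Finset V}
    (hZ : OneX s t vs es F N v f Z) : OneX s t vs es F N v f (vs \ Z) := by
  refine ⟨sdiff_subset, hZ.2.1, fun g hg hc => hZ.2.2 g hg ?_⟩
  have := S.h.ends g (mem_filter.1 hg).1
  rwa [cr_compl this.1 this.2] at hc

lemma odd_compl (S : Stk s t vs es F N R) {Z : Finset V} (ho : Odd (Z ∩ R.T).card) :
    Odd ((vs \ Z) ∩ R.T).card := by
  have h1 : (vs \ Z) ∩ R.T = R.T \ Z := by
    ext w
    rw [mem_inter, mem_sdiff, mem_sdiff]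
    exact ⟨fun h => ⟨h.2, h.1.2⟩, fun h => ⟨⟨S.sub h.1, h.2⟩, h.1⟩⟩
  have h2 := card_inter_add_card_sdiff R.T Z
  rw [inter_comm, cardT S] at h2
  rw [h1]
  obtain ⟨k, hk⟩ := ho
  exact ⟨2 - k, by omega⟩

lemma gen (A B T : Finset V) : (A \ B) ∩ T = (A ∩ T) \ (B ∩ T) := by
  ext w
  simp only [mem_inter, mem_sdiff]
  tauto

/-- **Descent.** If every circuit has a blocking set, then some circuit has one which consists of
vertices of the circuit and of at most three of the six vertices. -/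
theorem desc_all (S : Stk s t vs es F N R) (hne : ∃ v ∈ vs, v ∉ R.T)
    (hall : ∀ v ∈ vs, v ∉ R.T → ∃ Z, Blk s t vs es F N R v Z) :
    ∃ v ∈ vs, v ∉ R.T ∧ ∃ Z, Blk s t vs es F N R v Z ∧ Z \ comp s t vs es F v ⊆ R.T := by
  obtain ⟨v0, hv0, hv0T⟩ := hne
  obtain ⟨Z0, hZ0⟩ := hall v0 hv0 hv0T
  have hex : ∃ n, ∃ v ∈ vs, v ∉ R.T ∧ ∃ Z, Blk s t vs es F N R v Z ∧
      (Z \ comp s t vs es F v).card = n := ⟨_, v0, hv0, hv0T, Z0, hZ0, rfl⟩
  obtain ⟨v, hv, hvT, Z, hZ, hcard⟩ := Nat.find_spec hex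
  have hmin : ∀ v' ∈ vs, v' ∉ R.T → ∀ Z', Blk s t vs es F N R v' Z' →
      (Z \ comp s t vs es F v).card ≤ (Z' \ comp s t vs es F v').card := by
    intro v' hv' hv'T Z' hZ'
    rw [hcard]
    exact Nat.find_min' hex ⟨v', hv', hv'T, Z', hZ', rfl⟩
  clear hcard
  refine ⟨v, hv, hvT, Z, hZ, ?_⟩
  by_contra hcon
  rw [not_subset] at hcon
  obtain ⟨v', hv'X, hv'T⟩ := hcon
  obtain ⟨hZo, hZ3, f, hZf⟩ := hZ
  have hXcl := tcl S hZf
  have hv'vs := hXcl.1 hv'X
  obtain ⟨Z1, hZ1o, -, f2, hZ1⟩ := hall v' hv'vs hv'T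
  have hC'X : comp s t vs es F v' ⊆ Z \ comp s t vs es F v :=
    fun w hw => (mem_filter.1 hw).2 _ hXcl hv'X
  have hCT := S.comp_disj hv hvT
  have hC'T := S.comp_disj hv'vs hv'T
  -- the side of the second blocking set that avoids the first circuit
  obtain ⟨Z2, hZ2o, hZ2, hCd⟩ : ∃ Z2, Odd (Z2 ∩ R.T).card ∧ OneX s t vs es F N v' f2 Z2 ∧
      Disjoint (comp s t vs es F v) Z2 := by
    rcases comp_or S.h.ends hv (tcl S hZ1) with h1 | h1
    · refine ⟨vs \ Z1, odd_compl S hZ1o, hZ1.compl S, ?_⟩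
      rw [disjoint_left]
      intro w hw hw2
      exact (mem_sdiff.1 hw2).2 (mem_sdiff.1 (h1 hw)).1
    · refine ⟨Z1, hZ1o, hZ1, ?_⟩
      rw [disjoint_left]
      intro w hw hw2
      by_cases h2 : w ∈ comp s t vs es F v'
      · exact (mem_sdiff.1 (hC'X h2)).2 hw
      · exact disjoint_left.1 h1 hw (mem_sdiff.2 ⟨hw2, h2⟩)
  have hX'cl := tcl S hZ2
  set C := comp s t vs es F v with hC
  set C' := comp s t vs es F v' with hC'
  set X := Z \ C with hX
  set X' := Z2 \ C' with hX'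
  set Y := X' \ X with hY
  have hYcl : Cl s t vs es F Y := cl_sdiff hX'cl hXcl
  have hYvs := hYcl.1
  -- the edges crossing `Y`
  have hYc : ∀ g ∈ es, cr s t Y g → g = f ∨ (g = f2 ∧ cr s t Z2 g) := by
    intro g hg hc
    obtain ⟨p, q, hE, hp, hq⟩ := ex_ends hc
    rw [hY, mem_sdiff] at hp hq
    have hpZ2 : p ∈ Z2 := (mem_sdiff.1 hp.1).1
    by_cases hqX : q ∈ X
    · rcases tout hZf hg (ends_symm hE) hqX hp.2 with h1 | h1
      · exact Or.inl h1.1
      · exact absurd hpZ2 (disjoint_left.1 hCd h1)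
    · have hqX' : q ∉ X' := fun h1 => hq ⟨h1, hqX⟩
      rcases tout hZ2 hg hE hp.1 hqX' with h1 | h1
      · refine Or.inr ⟨h1.1, ?_⟩
        rw [hE.cr]
        exact fun h3 => h1.2 (h3.1 hpZ2)
      · exact absurd (hC'X h1) hqX
  have hYev : Even Y.card := by
    by_contra ho
    rw [Nat.not_even_iff_odd] at ho
    have h1 := S.h.oddcut Y hYvs ho
    have h2 : cn s t es Y ≤ 2 := le_two f f2 fun g hg hc => by
      rcases hYc g hg hc with h | h
      · exact Or.inl h
      · exact Or.inr h.1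
    omega
  have hYZ2 : Y ⊆ Z2 := sdiff_subset.trans sdiff_subset
  -- crossing of `Z2 \ Y`
  have hcr3 : ∀ g, cr s t (Z2 \ Y) g → (cr s t Z2 g ∧ ¬ cr s t Y g) ∨
      (¬ cr s t Z2 g ∧ cr s t Y g) := by
    intro g hc
    have h1 : s g ∈ Y → s g ∈ Z2 := fun h => hYZ2 h
    have h2 : t g ∈ Y → t g ∈ Z2 := fun h => hYZ2 h
    have hm : ∀ w, w ∈ Z2 \ Y ↔ w ∈ Z2 ∧ w ∉ Y := fun w => mem_sdiff
    unfold cr at hc ⊢
    rw [hm, hm] at hc
    clear_value Y
    clear hmin hall hex hYc hXcl hX'cl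
    tauto
  have hone : ∃ f3, OneX s t vs es F N v' f3 (Z2 \ Y) := by
    by_cases hb : (f2 ∈ es ∧ cr s t Y f2)
    · refine ⟨f, sdiff_subset.trans hZ2.1, hZf.2.1, fun g hg hc => ?_⟩
      rcases hcr3 g hc with h1 | h1
      · have := hZ2.2.2 g hg h1.1
        exact absurd (this ▸ hb.2) h1.2
      · rcases hYc g (mem_filter.1 hg).1 h1.2 with h2 | h2
        · exact h2
        · exact absurd h2.2 h1.1
    · have hle : cn s t es Y ≤ 1 := by
        refine le_one f fun g hg hc => ?_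
        rcases hYc g hg hc with h2 | h2
        · exact h2
        · exact absurd ⟨h2.1 ▸ hg, h2.1 ▸ hc⟩ hb
      have hz := zero S hYvs hle
      refine ⟨f2, sdiff_subset.trans hZ2.1, hZ2.2.1, fun g hg hc => ?_⟩
      rcases hcr3 g hc with h1 | h1
      · exact hZ2.2.2 g hg h1.1
      · exact absurd h1.2 (hz g (mem_filter.1 hg).1)
  -- parity of the part in `T`
  have hYT : Even (Y ∩ R.T).card := by
    have h1 := evenc' S hYcl
    have h2 := card_inter_add_card_sdiff Y R.T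
    obtain ⟨k, hk⟩ := h1
    obtain ⟨m, hm⟩ := hYev
    exact ⟨m - k, by omega⟩
  have hodd : Odd ((Z2 \ Y) ∩ R.T).card := by
    have h1 : (Z2 \ Y) ∩ R.T = (Z2 ∩ R.T) \ (Y ∩ R.T) := gen Z2 Y R.T
    have h2 : Y ∩ R.T ⊆ Z2 ∩ R.T := inter_subset_inter_right hYZ2
    have h3 := card_le_card h2
    rw [h1, card_sdiff_of_subset h2]
    obtain ⟨k, hk⟩ := hZ2o
    obtain ⟨m, hm⟩ := hYT
    exact ⟨k - m, by omega⟩
  have hsub : (Z2 \ Y) \ C' ⊆ X := by
    intro w hw
    rw [mem_sdiff, mem_sdiff, hY, mem_sdiff] at hw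
    by_contra h1
    exact hw.1.2 ⟨by rw [hX', mem_sdiff]; exact ⟨hw.1.1, hw.2⟩, h1⟩
  have hle3 : ((Z2 \ Y) ∩ R.T).card ≤ 3 := by
    refine (card_le_card ?_).trans hZ3
    intro w hw
    rw [mem_inter] at hw ⊢
    have h1 : w ∉ C' := fun h => disjoint_left.1 hC'T h hw.2
    exact ⟨(mem_sdiff.1 (hsub (mem_sdiff.2 ⟨hw.1, h1⟩))).1, hw.2⟩
  have h5 : X.card ≤ ((Z2 \ Y) \ C').card := hmin v' hv'vs hv'T (Z2 \ Y) ⟨hodd, hle3, hone⟩
  have h6 : ((Z2 \ Y) \ C').card < X.card := by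
    refine card_lt_card ⟨hsub, fun h1 => ?_⟩
    have h2 := h1 hv'X
    rw [mem_sdiff] at h2
    exact h2.2 (mem_comp_self hv'vs)
  omega

/-- the possible shapes -/
lemma shape (S : Stk s t vs es F N R) {v : V} {Z : Finset V} {f : E}
    (hZ : OneX s t vs es F N v f Z) (ho : Odd (Z ∩ R.T).card) (h3 : (Z ∩ R.T).card ≤ 3) :
    (∃ l l' τ, R.Leaf l l' τ ∧ Z ∩ R.T = {l} ∧ f = τ) ∨
      (Z ∩ R.T = {R.a, R.p, R.q} ∧ f = R.e) ∨ (Z ∩ R.T = {R.b, R.p', R.q'} ∧ f = R.e) := by
  obtain ⟨⟨hab, hap, haq, hap', haq'⟩, ⟨hbp, hbq, hbp', hbq'⟩, ⟨hpq, hpp', hpq'⟩, ⟨hqp', hqq'⟩,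
    hpq2⟩ := nodup S
  have hT : ∀ w, w ∈ R.T ↔ w = R.a ∨ w = R.b ∨ w = R.p ∨ w = R.q ∨ w = R.p' ∨ w = R.q' := by
    intro w
    unfold Tree.T
    simp only [mem_insert, mem_singleton]
  have inF : ∀ g ∈ es, ∀ x y, Ends s t g x y → x ∈ R.T → x ≠ y → g ∈ F := by
    intro g hg x y hE hx hxy
    refine S.full x hx g hg ?_
    rw [hE.cr, mem_singleton, mem_singleton]
    exact fun h => hxy (h.1 rfl).symm
  have key : ∀ g ∈ es, ∀ x y, Ends s t g x y → x ∈ R.T → x ≠ y → ¬ (x ∈ Z ↔ y ∈ Z) → g = f := by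
    intro g hg x y hE hx hxy hn
    refine hZ.2.2 g (mem_filter.2 ⟨hg, Or.inl (inF g hg x y hE hx hxy)⟩) ?_
    rw [hE.cr]
    exact hn
  have haT : R.a ∈ R.T := (hT _).2 (Or.inl rfl)
  have hbT : R.b ∈ R.T := (hT _).2 (Or.inr (Or.inl rfl))
  have k0 := key _ S.m0 _ _ S.E0 haT hab
  have k1 := key _ S.m1 _ _ S.E1 haT hap
  have k2 := key _ S.m2 _ _ S.E2 haT haq
  have k3 := key _ S.m3 _ _ S.E3 hbT hbp'
  have k4 := key _ S.m4 _ _ S.E4 hbT hbq'
  -- the five edges are different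
  have dif : ∀ {g g' : E} {x y z w : V}, Ends s t g x y → Ends s t g' z w →
      ¬ ((x = z ∧ y = w) ∨ (x = w ∧ y = z)) → g ≠ g' := by
    intro g g' x y z w h1 h2 hn hgg
    subst hgg
    apply hn
    rcases h1 with ⟨a1, a2⟩ | ⟨a1, a2⟩ <;> rcases h2 with ⟨a3, a4⟩ | ⟨a3, a4⟩
    · exact Or.inl ⟨a1.symm.trans a3, a2.symm.trans a4⟩
    · exact Or.inr ⟨a1.symm.trans a3, a2.symm.trans a4⟩
    · exact Or.inr ⟨a2.symm.trans a4, a1.symm.trans a3⟩
    · exact Or.inl ⟨a2.symm.trans a4, a1.symm.trans a3⟩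
  have d01 : R.e ≠ R.e1 := dif S.E0 S.E1 (by tauto)
  have d02 : R.e ≠ R.e2 := dif S.E0 S.E2 (by tauto)
  have d03 : R.e ≠ R.e3 := dif S.E0 S.E3 (by tauto)
  have d04 : R.e ≠ R.e4 := dif S.E0 S.E4 (by tauto)
  have d12 : R.e1 ≠ R.e2 := dif S.E1 S.E2 (by tauto)
  have d13 : R.e1 ≠ R.e3 := dif S.E1 S.E3 (by tauto)
  have d14 : R.e1 ≠ R.e4 := dif S.E1 S.E4 (by tauto)
  have d23 : R.e2 ≠ R.e3 := dif S.E2 S.E3 (by tauto)
  have d24 : R.e2 ≠ R.e4 := dif S.E2 S.E4 (by tauto)
  have d34 : R.e3 ≠ R.e4 := dif S.E3 S.E4 (by tauto)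
  have hpT : R.p ∈ R.T := (hT _).2 (Or.inr (Or.inr (Or.inl rfl)))
  have hqT : R.q ∈ R.T := (hT _).2 (Or.inr (Or.inr (Or.inr (Or.inl rfl))))
  have hp'T : R.p' ∈ R.T := (hT _).2 (Or.inr (Or.inr (Or.inr (Or.inr (Or.inl rfl)))))
  have hq'T : R.q' ∈ R.T := (hT _).2 (Or.inr (Or.inr (Or.inr (Or.inr (Or.inr rfl)))))
  have one : ∀ l ∈ R.T, l ∈ Z → (∀ w ∈ R.T, w ≠ l → w ∉ Z) → Z ∩ R.T = {l} := by
    intro l hlT hlZ hw
    ext w
    rw [mem_inter, mem_singleton]
    constructor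
    · rintro ⟨h1, h2⟩
      by_contra h3
      exact hw w h2 h3 h1
    · rintro rfl
      exact ⟨hlZ, hlT⟩
  by_cases ha : R.a ∈ Z
  · by_cases hb : R.b ∈ Z
    · exfalso
      have four : ∀ x y, x ∈ Z → y ∈ Z → x ∈ R.T → y ∈ R.T → x ≠ y → R.a ≠ x → R.a ≠ y →
          R.b ≠ x → R.b ≠ y → False := by
        intro x y hx hy hxT hyT hxy h1 h2 h4 h5
        have hsub : ({R.a, R.b, x, y} : Finset V) ⊆ Z ∩ R.T := by
          intro w hw
          simp only [mem_insert, mem_singleton] at hw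
          rw [mem_inter]
          rcases hw with rfl | rfl | rfl | rfl
          · exact ⟨ha, haT⟩
          · exact ⟨hb, hbT⟩
          · exact ⟨hx, hxT⟩
          · exact ⟨hy, hyT⟩
        have hc := card_le_card hsub
        rw [card_insert_of_notMem (by simp [hab, h1, h2]), card_insert_of_notMem
          (by simp [h4, h5]), card_pair hxy] at hc
        omega
      by_cases hp : R.p ∈ Z
      · by_cases hq : R.q ∈ Z
        · exact four _ _ hp hq hpT hqT hpq hap haq hbp hbq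
        · have e2 := k2 (fun h => hq (h.1 ha))
          by_cases hp' : R.p' ∈ Z
          · by_cases hq' : R.q' ∈ Z
            · exact four _ _ hp' hq' hp'T hq'T hpq2 hap' haq' hbp' hbq'
            · exact d24 (e2.trans (k4 (fun h => hq' (h.1 hb))).symm)
          · exact d23 (e2.trans (k3 (fun h => hp' (h.1 hb))).symm)
      · have e1 := k1 (fun h => hp (h.1 ha))
        by_cases hp' : R.p' ∈ Z
        · by_cases hq' : R.q' ∈ Z
          · exact four _ _ hp' hq' hp'T hq'T hpq2 hap' haq' hbp' hbq'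
          · exact d14 (e1.trans (k4 (fun h => hq' (h.1 hb))).symm)
        · exact d13 (e1.trans (k3 (fun h => hp' (h.1 hb))).symm)
    · have e0 := k0 (fun h => hb (h.1 ha))
      have hp : R.p ∈ Z := by
        by_contra hp
        exact d01 (e0.trans (k1 (fun h => hp (h.1 ha))).symm)
      have hq : R.q ∈ Z := by
        by_contra hq
        exact d02 (e0.trans (k2 (fun h => hq (h.1 ha))).symm)
      have hp' : R.p' ∉ Z := fun hp' => d03 (e0.trans (k3 (fun h => hb (h.2 hp'))).symm)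
      have hq' : R.q' ∉ Z := fun hq' => d04 (e0.trans (k4 (fun h => hb (h.2 hq'))).symm)
      refine Or.inr (Or.inl ⟨?_, e0.symm⟩)
      ext w
      rw [mem_inter]
      simp only [mem_insert, mem_singleton]
      constructor
      · rintro ⟨h1, h2⟩
        rcases (hT w).1 h2 with h | h | h | h | h | h
        · exact Or.inl h
        · exact absurd (h ▸ h1) hb
        · exact Or.inr (Or.inl h)
        · exact Or.inr (Or.inr h)
        · exact absurd (h ▸ h1) hp'
        · exact absurd (h ▸ h1) hq'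
      · rintro (h | h | h)
        · exact ⟨h ▸ ha, h ▸ haT⟩
        · exact ⟨h ▸ hp, h ▸ hpT⟩
        · exact ⟨h ▸ hq, h ▸ hqT⟩
  · by_cases hb : R.b ∈ Z
    · have e0 := k0 (fun h => ha (h.2 hb))
      have hp : R.p ∉ Z := fun hp => d01 (e0.trans (k1 (fun h => ha (h.2 hp))).symm)
      have hq : R.q ∉ Z := fun hq => d02 (e0.trans (k2 (fun h => ha (h.2 hq))).symm)
      have hp' : R.p' ∈ Z := by
        by_contra hp'
        exact d03 (e0.trans (k3 (fun h => hp' (h.1 hb))).symm)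
      have hq' : R.q' ∈ Z := by
        by_contra hq'
        exact d04 (e0.trans (k4 (fun h => hq' (h.1 hb))).symm)
      refine Or.inr (Or.inr ⟨?_, e0.symm⟩)
      ext w
      rw [mem_inter]
      simp only [mem_insert, mem_singleton]
      constructor
      · rintro ⟨h1, h2⟩
        rcases (hT w).1 h2 with h | h | h | h | h | h
        · exact absurd (h ▸ h1) ha
        · exact Or.inl h
        · exact absurd (h ▸ h1) hp
        · exact absurd (h ▸ h1) hq
        · exact Or.inr (Or.inl h)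
        · exact Or.inr (Or.inr h)
      · rintro (h | h | h)
        · exact ⟨h ▸ hb, h ▸ hbT⟩
        · exact ⟨h ▸ hp', h ▸ hp'T⟩
        · exact ⟨h ▸ hq', h ▸ hq'T⟩
    · left
      by_cases hp : R.p ∈ Z
      · have e1 := k1 (fun h => ha (h.2 hp))
        have hq : R.q ∉ Z := fun h0 => d12 (e1.trans (k2 (fun h => ha (h.2 h0))).symm)
        have hp' : R.p' ∉ Z := fun h0 => d13 (e1.trans (k3 (fun h => hb (h.2 h0))).symm)
        have hq' : R.q' ∉ Z := fun h0 => d14 (e1.trans (k4 (fun h => hb (h.2 h0))).symm)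
        refine ⟨R.p, R.a, R.e1, Or.inl ⟨rfl, rfl, rfl⟩, one _ hpT hp ?_, e1.symm⟩
        intro w hw hne
        rcases (hT w).1 hw with h | h | h | h | h | h
        · exact h ▸ ha
        · exact h ▸ hb
        · exact absurd h hne
        · exact h ▸ hq
        · exact h ▸ hp'
        · exact h ▸ hq'
      · by_cases hq : R.q ∈ Z
        · have e2 := k2 (fun h => ha (h.2 hq))
          have hp' : R.p' ∉ Z := fun h0 => d23 (e2.trans (k3 (fun h => hb (h.2 h0))).symm)
          have hq' : R.q' ∉ Z := fun h0 => d24 (e2.trans (k4 (fun h => hb (h.2 h0))).symm)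
          refine ⟨R.q, R.a, R.e2, Or.inr (Or.inl ⟨rfl, rfl, rfl⟩), one _ hqT hq ?_, e2.symm⟩
          intro w hw hne
          rcases (hT w).1 hw with h | h | h | h | h | h
          · exact h ▸ ha
          · exact h ▸ hb
          · exact h ▸ hp
          · exact absurd h hne
          · exact h ▸ hp'
          · exact h ▸ hq'
        · by_cases hp' : R.p' ∈ Z
          · have e3 := k3 (fun h => hb (h.2 hp'))
            have hq' : R.q' ∉ Z := fun h0 => d34 (e3.trans (k4 (fun h => hb (h.2 h0))).symm)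
            refine ⟨R.p', R.b, R.e3, Or.inr (Or.inr (Or.inl ⟨rfl, rfl, rfl⟩)),
              one _ hp'T hp' ?_, e3.symm⟩
            intro w hw hne
            rcases (hT w).1 hw with h | h | h | h | h | h
            · exact h ▸ ha
            · exact h ▸ hb
            · exact h ▸ hp
            · exact h ▸ hq
            · exact absurd h hne
            · exact h ▸ hq'
          · by_cases hq' : R.q' ∈ Z
            · have e4 := k4 (fun h => hb (h.2 hq'))
              refine ⟨R.q', R.b, R.e4, Or.inr (Or.inr (Or.inr ⟨rfl, rfl, rfl⟩)),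
                one _ hq'T hq' ?_, e4.symm⟩
              intro w hw hne
              rcases (hT w).1 hw with h | h | h | h | h | h
              · exact h ▸ ha
              · exact h ▸ hb
              · exact h ▸ hp
              · exact h ▸ hq
              · exact h ▸ hp'
              · exact absurd h hne
            · exfalso
              have h0 : Z ∩ R.T = ∅ := by
                rw [eq_empty_iff_forall_notMem]
                intro w hw
                rw [mem_inter] at hw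
                rcases (hT w).1 hw.2 with h | h | h | h | h | h
                · exact ha (h ▸ hw.1)
                · exact hb (h ▸ hw.1)
                · exact hp (h ▸ hw.1)
                · exact hq (h ▸ hw.1)
                · exact hp' (h ▸ hw.1)
                · exact hq' (h ▸ hw.1)
              rw [h0, card_empty] at ho
              exact absurd ho (by decide)

end DAll

open DAll

variable {V E : Type*} {s t : E → V} {vs : Finset V} {es F N : Finset E} {R : Tree V E}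

/-- **The stuck situation when every circuit has a blocking set.** -/
theorem rot_all (S : Stk s t vs es F N R) (hne : ∃ v ∈ vs, v ∉ R.T)
    (hall : ∀ v ∈ vs, v ∉ R.T →
      (∃ l l' τ Z, R.Leaf l l' τ ∧ TyT s t vs es F N R v l τ Z) ∨
      (∃ X ⊆ vs, X ∩ R.T = {R.a, R.p, R.q} ∧
        ∀ g ∈ eH s es F N (comp s t vs es F v), cr s t X g → g = R.e))
    (step : ∀ l l' τ, R.Leaf l l' τ → ∀ F', Hyp s t vs es F' →
      (∃ g ∈ es, cr s t {l} g ∧ g ∉ F') → Concl s t vs es F' R.e) :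
    Concl s t vs es F R.e := by
  obtain ⟨⟨hab, hap, haq, hap', haq'⟩, ⟨hbp, hbq, hbp', hbq'⟩, ⟨hpq, hpp', hpq'⟩, ⟨hqp', hqq'⟩,
    hpq2⟩ := nodup S
  have haT : R.a ∈ R.T := by simp [Tree.T]
  obtain ⟨v, hv, hvT, Z, ⟨ho, h3, f, hf⟩, hZT⟩ := desc_all S hne (by
    intro v hv hvT
    rcases hall v hv hvT with ⟨l, l', τ, Z, hl, hZ⟩ | ⟨X, hX, hXT, hXc⟩
    · refine ⟨Z, ?_, ?_, τ, hZ.1, ?_, hZ.2.2⟩
      · rw [hZ.2.1, card_singleton]
        decide
      · rw [hZ.2.1, card_singleton]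
        decide
      · obtain ⟨h1, h2, h3, h4, h5⟩ := TOne.leaf_facts S hl
        refine S.full l h1 τ h4 ?_
        rw [h5.cr, mem_singleton, mem_singleton]
        exact fun h => h3 ((h.2 rfl).symm)
    · have h3 : (X ∩ R.T).card = 3 := by
        rw [hXT, card_insert_of_notMem (by simp [hap, haq]), card_pair hpq]
      refine ⟨X, ?_, ?_, R.e, hX, ?_, hXc⟩
      · rw [h3]
        decide
      · rw [h3]
      · refine S.full R.a haT R.e S.m0 ?_
        rw [S.E0.cr, mem_singleton, mem_singleton]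
        exact fun h => hab (h.1 rfl).symm)
  have hCT := S.comp_disj hv hvT
  have hZC : Z \ comp s t vs es F v = Z ∩ R.T := by
    ext w
    rw [mem_sdiff, mem_inter]
    constructor
    · exact fun h => ⟨h.1, hZT (mem_sdiff.2 h)⟩
    · exact fun h => ⟨h.1, fun h2 => disjoint_left.1 hCT h2 h.2⟩
  rcases shape S hf ho h3 with ⟨l, l', τ, hl, hK, rfl⟩ | ⟨hK, rfl⟩ | ⟨hK, rfl⟩
  · exact t1 S hv hvT hl ⟨hf.1, hK, hf.2.2⟩ (hZC.trans hK) (step l l' f hl)
  · exact rot S hv hvT hf.1 (hZC.trans hK) hf.2.2 (step _ _ _ (Or.inl ⟨rfl, rfl, rfl⟩))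
  · exact rot (R := R.swap) S.swap hv (by rw [R.swap_T]; exact hvT) hf.1 (hZC.trans hK) hf.2.2
      (step _ _ _ (Or.inr (Or.inr (Or.inl ⟨rfl, rfl, rfl⟩))))

end OddSix
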