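import Pool.Agent.Lib.OddSix.Stk
import Pool.Agent.Lib.OddSix.Match

/-! The stuck situation with six vertices only. -/

set_option autoImplicit false

namespace OddSix

open Finset Classical

variable {V E : Type*} {s t : E → V} {vs : Finset V} {es F N : Finset E} {R : Tree V E}

lemma six_ncr {g : E} {x y v : V} (h : Ends s t g x y) (hx : x ≠ v) (hy : y ≠ v) :
    ¬ cr s t {v} g := by
  rw [h.cr]
  simp [hx, hy]

lemma six_crl {g : E} {x y : V} (h : Ends s t g x y) (hxy : x ≠ y) : cr s t {x} g := by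
  rw [h.cr]
  simp [hxy.symm]

lemma six_crr {g : E} {x y : V} (h : Ends s t g x y) (hxy : x ≠ y) : cr s t {y} g := by
  rw [h.cr]
  simp [hxy]

lemma six_one {A : Finset E} {X : Finset V} {g : E} (hg : g ∈ A) (hc : cr s t X g)
    (hall : ∀ g' ∈ A, cr s t X g' → g' = g) : cn s t A X = 1 := by
  rw [cn_eq_card, card_eq_one]
  refine ⟨g, ?_⟩
  ext g'
  rw [mem_filter, mem_singleton]
  constructor
  · exact fun h => hall g' h.1 h.2
  · rintro rfl
    exact ⟨hg, hc⟩

/-- six vertices -/
theorem six (S : Stk s t vs es F N R) (hvs : vs = R.T) : Concl s t vs es F R.e := by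
  have h := S.h
  have hnd := S.nd
  have hT : R.T = {R.a, R.b, R.p, R.q, R.p', R.q'} := rfl
  have hmem : ∀ v, v ∈ vs ↔ v = R.a ∨ v = R.b ∨ v = R.p ∨ v = R.q ∨ v = R.p' ∨ v = R.q' := by
    intro v
    rw [hvs, hT]
    simp only [mem_insert, mem_singleton]
  have hc6 : vs.card = 6 := by
    rw [hvs, hT]
    have h1 := List.toFinset_card_of_nodup hnd
    have h2 : ([R.a, R.b, R.p, R.q, R.p', R.q'] : List V).toFinset =
        {R.a, R.b, R.p, R.q, R.p', R.q'} := by
      ext v
      simp only [List.mem_toFinset, List.mem_cons, List.not_mem_nil, or_false, mem_insert,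
        mem_singleton]
    rw [← h2, h1]
    rfl
  simp only [List.nodup_cons, List.mem_cons, List.not_mem_nil, or_false, not_or,
    not_false_eq_true, List.nodup_nil, and_true] at hnd
  obtain ⟨⟨ab, ap, aq, ap', aq'⟩, ⟨bp, bq, bp', bq'⟩, ⟨pq, pp', pq'⟩, ⟨qp', qq'⟩, p'q'⟩ := hnd
  set W : Finset V := {R.p, R.q, R.p', R.q'} with hW
  have hmW : ∀ v, v ∈ W ↔ v = R.p ∨ v = R.q ∨ v = R.p' ∨ v = R.q' := by
    intro v
    rw [hW]
    simp only [mem_insert, mem_singleton]
  set T5 : Finset E := {R.e, R.e1, R.e2, R.e3, R.e4} with hT5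
  have hm5 : ∀ g, g ∈ T5 ↔ g = R.e ∨ g = R.e1 ∨ g = R.e2 ∨ g = R.e3 ∨ g = R.e4 := by
    intro g
    rw [hT5]
    simp only [mem_insert, mem_singleton]
  have hT5es : T5 ⊆ es := by
    intro g hg
    rcases (hm5 g).1 hg with rfl | rfl | rfl | rfl | rfl
    exacts [S.m0, S.m1, S.m2, S.m3, S.m4]
  set D : Finset E := es \ T5 with hD
  have hDes : D ⊆ es := sdiff_subset
  have haW : R.a ∉ W := by
    rw [hmW]
    rintro (k | k | k | k)
    exacts [ap k, aq k, ap' k, aq' k]
  have hbW : R.b ∉ W := by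
    rw [hmW]
    rintro (k | k | k | k)
    exacts [bp k, bq k, bp' k, bq' k]
  have hWvs : W ⊆ vs := by
    intro v hv
    rw [hmem]
    rcases (hmW v).1 hv with k | k | k | k <;> simp [k]
  -- no edge of `D` meets `a` or `b`
  have hna : ∀ g ∈ D, ¬ cr s t {R.a} g := by
    intro g hg hc
    rw [hD, mem_sdiff] at hg
    apply hg.2
    rw [hm5]
    rcases S.alla g hg.1 hc with k | k | k <;> simp [k]
  have hnb : ∀ g ∈ D, ¬ cr s t {R.b} g := by
    intro g hg hc
    rw [hD, mem_sdiff] at hg
    apply hg.2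
    rw [hm5]
    rcases S.allb g hg.1 hc with k | k | k <;> simp [k]
  have hend0 : ∀ (r r' : E → V), (∀ g ∈ D, ∀ v, r g = v → r' g ≠ v → cr s t {v} g) →
      (∀ g ∈ es, r g ∈ vs) → (∀ g ∈ es, r g ≠ r' g) → ∀ g ∈ D, r g ∈ W := by
    intro r r' h1 h2 h3 g hg
    rw [hmW]
    have h4 := h3 g (hDes hg)
    rcases (hmem _).1 (h2 g (hDes hg)) with k | k | k | k | k | k
    · exact absurd (h1 g hg R.a k (fun k' => h4 (k.trans k'.symm))) (hna g hg)
    · exact absurd (h1 g hg R.b k (fun k' => h4 (k.trans k'.symm))) (hnb g hg)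
    · exact Or.inl k
    · exact Or.inr (Or.inl k)
    · exact Or.inr (Or.inr (Or.inl k))
    · exact Or.inr (Or.inr (Or.inr k))
  have hend : ∀ g ∈ D, s g ∈ W ∧ t g ∈ W := by
    intro g hg
    constructor
    · refine hend0 s t ?_ (fun g hg => (h.ends g hg).1) (fun g hg => h.noloop g hg) g hg
      intro g _ v h1 h2
      unfold cr
      simp only [mem_singleton, h1, true_iff]
      exact h2
    · refine hend0 t s ?_ (fun g hg => (h.ends g hg).2) (fun g hg => (h.noloop g hg).symm) g hg
      intro g _ v h1 h2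
      unfold cr
      simp only [mem_singleton, h1, iff_true]
      exact h2
  have hone : ∀ v ∈ W, cn s t T5 {v} = 1 := by
    intro v hv
    rcases (hmW v).1 hv with rfl | rfl | rfl | rfl
    · refine six_one ((hm5 _).2 (by simp)) (six_crr S.E1 ap) fun g hg hc => ?_
      rcases (hm5 g).1 hg with rfl | rfl | rfl | rfl | rfl
      · exact absurd hc (six_ncr S.E0 ap bp)
      · rfl
      · exact absurd hc (six_ncr S.E2 ap (Ne.symm pq))
      · exact absurd hc (six_ncr S.E3 bp (Ne.symm pp'))
      · exact absurd hc (six_ncr S.E4 bp (Ne.symm pq'))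
    · refine six_one ((hm5 _).2 (by simp)) (six_crr S.E2 aq) fun g hg hc => ?_
      rcases (hm5 g).1 hg with rfl | rfl | rfl | rfl | rfl
      · exact absurd hc (six_ncr S.E0 aq bq)
      · exact absurd hc (six_ncr S.E1 aq pq)
      · rfl
      · exact absurd hc (six_ncr S.E3 bq (Ne.symm qp'))
      · exact absurd hc (six_ncr S.E4 bq (Ne.symm qq'))
    · refine six_one ((hm5 _).2 (by simp)) (six_crr S.E3 bp') fun g hg hc => ?_
      rcases (hm5 g).1 hg with rfl | rfl | rfl | rfl | rfl
      · exact absurd hc (six_ncr S.E0 ap' bp')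
      · exact absurd hc (six_ncr S.E1 ap' pp')
      · exact absurd hc (six_ncr S.E2 ap' qp')
      · rfl
      · exact absurd hc (six_ncr S.E4 bp' (Ne.symm p'q'))
    · refine six_one ((hm5 _).2 (by simp)) (six_crr S.E4 bq') fun g hg hc => ?_
      rcases (hm5 g).1 hg with rfl | rfl | rfl | rfl | rfl
      · exact absurd hc (six_ncr S.E0 aq' bq')
      · exact absurd hc (six_ncr S.E1 aq' pq')
      · exact absurd hc (six_ncr S.E2 aq' qq')
      · exact absurd hc (six_ncr S.E3 bq' p'q')
      · rfl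
  have hdeg : ∀ v ∈ W, cn s t D {v} = 2 := by
    intro v hv
    have h1 : cn s t es {v} = cn s t D {v} + cn s t T5 {v} := by
      rw [← cn_union sdiff_disjoint, sdiff_union_of_subset hT5es]
    rw [h.cubic v (hWvs hv), hone v hv] at h1
    omega
  have hWc : W.card = 4 := by
    have h1 : ({R.a, R.b} : Finset V) ∪ W = vs := by
      ext v
      rw [mem_union, mem_insert, mem_singleton, hmW, hmem]
      tauto
    have h2 : Disjoint ({R.a, R.b} : Finset V) W := by
      rw [disjoint_left]
      intro v hv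
      rw [mem_insert, mem_singleton] at hv
      rcases hv with rfl | rfl
      · exact haW
      · exact hbW
    have h3 := card_union_of_disjoint h2
    rw [h1, hc6, card_pair ab] at h3
    omega
  have hsing : ∀ v ∈ W, ¬ ∀ g ∈ D, ¬ cr s t {v} g := by
    intro v hv hno
    have h1 := hdeg v hv
    rw [cn_eq_zero.2 hno] at h1
    exact absurd h1 (by decide)
  have heven : ∀ Z ⊆ W, (∀ g ∈ D, ¬ cr s t Z g) → Even Z.card := by
    intro Z hZ hno
    have hle := card_le_card hZ
    rw [hWc] at hle
    by_contra ho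
    rw [Nat.not_even_iff_odd] at ho
    obtain ⟨k, hk⟩ := ho
    have hk2 : Z.card = 1 ∨ Z.card = 3 := by omega
    rcases hk2 with h1 | h1
    · obtain ⟨v, rfl⟩ := card_eq_one.1 h1
      exact hsing v (hZ (mem_singleton_self v)) hno
    · have h2 : (W \ Z).card = 1 := by
        rw [card_sdiff_of_subset hZ]
        omega
      obtain ⟨v, hv⟩ := card_eq_one.1 h2
      have hvW : v ∈ W := by
        have : v ∈ W \ Z := by rw [hv]; exact mem_singleton_self v
        exact (mem_sdiff.1 this).1
      refine hsing v hvW fun g hg hc => hno g hg ?_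
      rw [← hv, cr_compl (hend g hg).1 (hend g hg).2] at hc
      exact hc
  obtain ⟨N', hN', hN1⟩ := exists_match hend (fun g hg => h.noloop g (hDes hg)) hdeg heven
  have heD : R.e ∉ N' := by
    intro h1
    have h2 := hN' h1
    rw [hD, mem_sdiff] at h2
    exact h2.2 ((hm5 _).2 (Or.inl rfl))
  have hMes : insert R.e N' ⊆ es := insert_subset S.m0 (hN'.trans hDes)
  have hpm : ∀ v ∈ vs, cn s t (insert R.e N') {v} = 1 := by
    intro v hv
    rw [cn_insert heD]
    by_cases hvW : v ∈ W
    · have h1 : ci s t {v} R.e = 0 := by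
        rw [ci_eq_zero]
        exact six_ncr S.E0 (fun k => haW (k ▸ hvW)) (fun k => hbW (k ▸ hvW))
      rw [h1, hN1 v hvW]
    · have hv2 : v = R.a ∨ v = R.b := by
        rw [hmem] at hv
        rw [hmW] at hvW
        tauto
      rcases hv2 with rfl | rfl
      · have h1 : ci s t {R.a} R.e = 1 := ci_eq_one.2 (six_crl S.E0 ab)
        rw [h1, cn_eq_zero.2 fun g hg => hna g (hN' hg)]
      · have h1 : ci s t {R.b} R.e = 1 := ci_eq_one.2 (six_crr S.E0 ab)
        rw [h1, cn_eq_zero.2 fun g hg => hnb g (hN' hg)]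
  refine ⟨insert R.e N', hMes, mem_insert_self _ _, hpm, ?_⟩
  -- three edges
  have hM3 : (insert R.e N').card = 3 := by
    have h1 := sum_cn (fun g hg => h.noloop g (hMes hg)) vs (A := insert R.e N') (s := s) (t := t)
    rw [sum_congr rfl hpm, sum_const, smul_eq_mul, hc6] at h1
    have h2 : cn s t (insert R.e N') vs = 0 := by
      rw [cn_eq_zero]
      intro g hg hc
      have := h.ends g (hMes hg)
      exact hc ⟨fun _ => this.2, fun _ => this.1⟩
    have h3 : inn s t (insert R.e N') vs = (insert R.e N').card := by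
      unfold inn
      rw [← card_filter]
      congr 1
      exact filter_true_of_mem fun g hg => h.ends g (hMes hg)
    omega
  intro Z hZ hZo
  by_contra hcon
  have hall : ∀ g ∈ es, cr s t Z g → g ∈ insert R.e N' := by
    intro g hg hc
    by_contra hn
    exact hcon ⟨g, hg, hc, fun h' => hn h'.1⟩
  have hle : cn s t es Z ≤ cn s t (insert R.e N') Z := by
    rw [cn_eq_card, cn_eq_card]
    refine card_le_card fun g hg => ?_
    rw [mem_filter] at hg ⊢
    exact ⟨hall g hg.1 hg.2, hg.2⟩
  have hle3 : cn s t (insert R.e N') Z ≤ 3 := by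
    rw [cn_eq_card, ← hM3]
    exact card_le_card (filter_subset _ _)
  have h3 := h.oddcut Z hZ hZo
  have hcle := card_le_card hZ
  rw [hc6] at hcle
  obtain ⟨k, hk⟩ := hZo
  have hk2 : Z.card = 1 ∨ Z.card = 3 ∨ Z.card = 5 := by omega
  rcases hk2 with h1 | h1 | h1
  · obtain ⟨v, rfl⟩ := card_eq_one.1 h1
    rw [hpm v (hZ (mem_singleton_self v))] at hle
    omega
  · exact S.hcut Z hZ (by rw [h1]; decide) (by omega) (by omega) (by omega)
  · have h2 : (vs \ Z).card = 1 := by
      rw [card_sdiff_of_subset hZ]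
      omega
    obtain ⟨v, hv⟩ := card_eq_one.1 h2
    have hvv : v ∈ vs := by
      have : v ∈ vs \ Z := by rw [hv]; exact mem_singleton_self v
      exact (mem_sdiff.1 this).1
    have e1 : cn s t es Z = cn s t es {v} := by rw [← hv, cn_compl h.ends]
    have e2 : cn s t (insert R.e N') Z = cn s t (insert R.e N') {v} := by
      rw [← hv, cn_compl fun g hg => h.ends g (hMes hg)]
    rw [e1, e2, hpm v hvv, h.cubic v hvv] at hle
    omega

end OddSix
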