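import Pool.Agent.Lib.OddSix.Stk

/-! A set crossed by the prescribed edge only: two edges of `N` are crossed over. -/

set_option autoImplicit false

namespace OddSix

open Finset Classical

variable {V E : Type*} {s t : E → V} {vs : Finset V} {es F N : Finset E} {R : Tree V E}

/-! ### the graph without the other half of the circuit -/

private lemma te_mem {C : Finset V} {g : E} (hg : g ∈ es) (h : g ∈ F ∨ g ∈ N ∨ s g ∉ C) :
    g ∈ eH s es F N C := mem_filter.2 ⟨hg, h⟩

private lemma te_sub {C : Finset V} : eH s es F N C ⊆ es := filter_subset _ _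

private lemma te_both (S : Stk s t vs es F N R) {v : V} {g : E} (hg : g ∈ es) (hF : g ∉ F) :
    s g ∈ comp s t vs es F v ↔ t g ∈ comp s t vs es F v := by
  by_contra h
  exact hF ((comp_closed S.h.ends v).2 g hg h)

private lemma te_touch {g : E} {u : V} : cr s t {u} g → s g = u ∨ t g = u := by
  intro h
  unfold cr at h
  rw [mem_singleton, mem_singleton] at h
  by_contra h1
  rw [not_or] at h1
  exact h ⟨fun h2 => absurd h2 h1.1, fun h2 => absurd h2 h1.2⟩

private lemma te_F (S : Stk s t vs es F N R) {u : V} (hu : u ∈ vs) (huT : u ∉ R.T) :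
    cn s t F {u} = 1 := by
  have h1 := S.h.cubic u hu
  have h2 := S.Nv u hu huT
  have h3 := S.h.join u hu
  have h4 : cn s t (F ∪ N) {u} ≤ 3 := by
    rw [← h1]
    exact cn_mono (union_subset S.h.sub S.Nsub) _
  rw [cn_union S.NF.symm] at h4
  obtain ⟨k, hk⟩ := h3
  omega

private lemma te_two (S : Stk s t vs es F N R) {v : V} (hv : v ∈ vs) (hvT : v ∉ R.T) {u : V}
    (hu : u ∈ comp s t vs es F v) : cn s t (eH s es F N (comp s t vs es F v)) {u} = 2 := by
  have hus := comp_sub v hu
  have huT := disjoint_left.1 (S.comp_disj hv hvT) hu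
  have h1 := te_F S hus huT
  have h2 := S.Nv u hus huT
  have h3 : cn s t (eH s es F N (comp s t vs es F v)) {u} = cn s t (F ∪ N) {u} := by
    rw [cn_eq_card, cn_eq_card]
    congr 1
    ext g
    unfold eH
    simp only [mem_filter, mem_union]
    constructor
    · rintro ⟨⟨h4, h5⟩, h6⟩
      refine ⟨?_, h6⟩
      rcases h5 with h5 | h5 | h5
      · exact Or.inl h5
      · exact Or.inr h5
      · by_cases h7 : g ∈ F
        · exact Or.inl h7
        · exfalso
          rcases te_touch h6 with h8 | h8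
          · exact h5 (h8 ▸ hu)
          · exact h5 ((te_both S h4 h7).2 (h8 ▸ hu))
    · rintro ⟨h4, h5⟩
      refine ⟨?_, h5⟩
      rcases h4 with h4 | h4
      · exact ⟨S.h.sub h4, Or.inl h4⟩
      · exact ⟨S.Nsub h4, Or.inr (Or.inl h4)⟩
  rw [h3, cn_union S.NF.symm, h1, h2]

private lemma te_three (S : Stk s t vs es F N R) {v : V} {u : V} (hus : u ∈ vs)
    (hu : u ∉ comp s t vs es F v) : cn s t (eH s es F N (comp s t vs es F v)) {u} = 3 := by
  rw [← S.h.cubic u hus, cn_eq_card, cn_eq_card]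
  congr 1
  ext g
  unfold eH
  simp only [mem_filter]
  constructor
  · rintro ⟨⟨h4, h5⟩, h6⟩
    exact ⟨h4, h6⟩
  · rintro ⟨h4, h5⟩
    refine ⟨⟨h4, ?_⟩, h5⟩
    by_contra h6
    rw [not_or, not_or, not_not] at h6
    rcases te_touch h5 with h7 | h7
    · exact hu (h7 ▸ h6.2.2)
    · exact hu (h7 ▸ (te_both S h4 h6.1).1 h6.2.2)

/-- parity -/
private lemma te_par (S : Stk s t vs es F N R) {v : V} (hv : v ∈ vs) (hvT : v ∉ R.T)
    {Z : Finset V} (hZ : Z ⊆ vs) :
    Odd (cn s t (eH s es F N (comp s t vs es F v)) Z) ↔ Odd (Z \ comp s t vs es F v).card := by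
  have h1 := sum_cn (s := s) (t := t) (A := eH s es F N (comp s t vs es F v))
    (fun e he => S.h.noloop e (te_sub he)) Z
  have h2 : ∑ u ∈ Z, cn s t (eH s es F N (comp s t vs es F v)) {u} =
      3 * (Z \ comp s t vs es F v).card + 2 * (Z ∩ comp s t vs es F v).card := by
    rw [← Finset.sum_inter_add_sum_sdiff Z (comp s t vs es F v), add_comm]
    congr 1
    · rw [Finset.sum_congr rfl (g := fun _ => 3), Finset.sum_const, smul_eq_mul, Nat.mul_comm]
      intro u hu
      rw [mem_sdiff] at hu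
      exact te_three S (hZ hu.1) hu.2
    · rw [Finset.sum_congr rfl (g := fun _ => 2), Finset.sum_const, smul_eq_mul, Nat.mul_comm]
      intro u hu
      exact te_two S hv hvT (mem_inter.1 hu).2
  rw [h2] at h1
  constructor
  · intro h3
    by_contra h4
    rw [Nat.not_odd_iff_even] at h4
    obtain ⟨a, ha⟩ := h3
    obtain ⟨b, hb⟩ := h4
    omega
  · intro h3
    by_contra h4
    rw [Nat.not_odd_iff_even] at h4
    obtain ⟨a, ha⟩ := h3
    obtain ⟨b, hb⟩ := h4
    omega

/-- parity, if no edge of `N` outside the circuit crosses -/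
private lemma te_parT (S : Stk s t vs es F N R) {v : V} (hv : v ∈ vs) (hvT : v ∉ R.T)
    {Z : Finset V} (hZ : Z ⊆ vs)
    (hN : ∀ g ∈ N, s g ∉ comp s t vs es F v → ¬ cr s t Z g) :
    Odd (Z \ comp s t vs es F v).card ↔ Odd (Z ∩ R.T).card := by
  set C := comp s t vs es F v with hC
  have hd : Disjoint C R.T := S.comp_disj hv hvT
  have h1 : Even ((Z \ C) \ R.T).card := by
    rw [← Nat.not_odd_iff_even]
    intro h2
    have h3 : Odd (cn s t N ((Z \ C) \ R.T)) := by
      rw [odd_cn fun e he => S.h.noloop e (S.Nsub he)]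
      · exact h2
      · intro u hu
        rw [mem_sdiff, mem_sdiff] at hu
        rw [S.Nv u (hZ hu.1.1) hu.2]
        decide
    have h4 : cn s t N ((Z \ C) \ R.T) = 0 := by
      rw [cn_eq_zero]
      intro g hg hc
      have hge := S.Nsub hg
      have hgF : g ∉ F := disjoint_left.1 S.NF hg
      have hT : ∀ u ∈ R.T, ¬ cr s t {u} g := fun u hu h5 => hgF (S.full u hu g hge h5)
      have hsT : s g ∉ R.T := by
        intro h5
        refine hT _ h5 ?_
        unfold cr
        rw [mem_singleton, mem_singleton]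
        intro h6
        exact S.h.noloop g hge (h6.1 rfl).symm
      have htT : t g ∉ R.T := by
        intro h5
        refine hT _ h5 ?_
        unfold cr
        rw [mem_singleton, mem_singleton]
        intro h6
        exact S.h.noloop g hge (h6.2 rfl)
      have hb := te_both S (v := v) hge hgF
      rw [← hC] at hb
      unfold cr at hc
      simp only [mem_sdiff, hsT, htT, not_false_eq_true, and_true] at hc
      by_cases h5 : s g ∈ C
      · exact hc (by simp [h5, hb.1 h5])
      · have h6 : t g ∉ C := fun h6 => h5 (hb.2 h6)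
        refine hN g hg h5 ?_
        unfold cr
        simpa [h5, h6] using hc
    rw [h4] at h3
    exact absurd h3 (by decide)
  have h2 : (Z \ C).card = (Z ∩ R.T).card + ((Z \ C) \ R.T).card := by
    rw [← Finset.card_inter_add_card_sdiff (Z \ C) R.T]
    congr 2
    ext u
    simp only [mem_inter, mem_sdiff]
    constructor
    · rintro ⟨⟨h3, -⟩, h4⟩
      exact ⟨h3, h4⟩
    · rintro ⟨h3, h4⟩
      exact ⟨⟨h3, fun h5 => disjoint_left.1 hd h5 h4⟩, h4⟩
  rw [h2, Nat.odd_add]
  constructor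
  · intro h3
    exact h3.2 h1
  · intro h3
    exact ⟨fun _ => h1, fun _ => h3⟩

/-- if only `f` and an edge `g1` of `N` in the circuit may cross, then only `f` crosses -/
private lemma te_one (S : Stk s t vs es F N R) {v : V} (hv : v ∈ vs) (hvT : v ∉ R.T)
    {Z : Finset V} (hZ : Z ⊆ vs) (ho : Odd (Z ∩ R.T).card) {f g1 : E} (hf : f ∈ F)
    (hfc : cr s t Z f) (hg1 : g1 ∈ eP s N (comp s t vs es F v))
    (hc : ∀ g ∈ eH s es F N (comp s t vs es F v), cr s t Z g → g = f ∨ g = g1) :
    ∀ g ∈ eH s es F N (comp s t vs es F v), cr s t Z g → g = f := by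
  have hfH : f ∈ eH s es F N (comp s t vs es F v) := te_mem (S.h.sub hf) (Or.inl hf)
  have hg1' := mem_filter.1 hg1
  have hgF : g1 ∉ F := disjoint_left.1 S.NF hg1'.1
  have hne : f ≠ g1 := fun h => hgF (h ▸ hf)
  have h1 : Odd (cn s t (eH s es F N (comp s t vs es F v)) Z) := by
    rw [te_par S hv hvT hZ, te_parT S hv hvT hZ]
    · exact ho
    · intro g hg hs hcr
      rcases hc g (te_mem (S.Nsub hg) (Or.inr (Or.inl hg))) hcr with h | h
      · exact disjoint_left.1 S.NF hg (h ▸ hf)
      · exact hs (h ▸ hg1'.2)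
  intro g hg hcr
  rcases hc g hg hcr with h | h
  · exact h
  · exfalso
    rw [h] at hg hcr
    have h2 : (eH s es F N (comp s t vs es F v)).filter (cr s t Z) = {f, g1} := by
      ext g'
      rw [mem_filter, mem_insert, mem_singleton]
      constructor
      · rintro ⟨h3, h4⟩
        exact hc g' h3 h4
      · rintro (h3 | h3)
        · rw [h3]
          exact ⟨hfH, hfc⟩
        · rw [h3]
          exact ⟨hg, hcr⟩
    rw [cn_eq_card, h2, card_pair hne] at h1
    exact absurd h1 (by decide)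

/-- a minimal set -/
private lemma te_min {Q : Finset V → Prop} {X : Finset V} (hX : X ⊆ vs) (h : Q X) :
    ∃ X0 ⊆ vs, Q X0 ∧ ∀ X' ⊆ X0, Q X' → X' = X0 := by
  obtain ⟨X0, h1, h2⟩ := Finset.exists_min_image (vs.powerset.filter Q) Finset.card
    ⟨X, mem_filter.2 ⟨mem_powerset.2 hX, h⟩⟩
  rw [mem_filter, mem_powerset] at h1
  refine ⟨X0, h1.1, h1.2, fun X' h3 h4 => ?_⟩
  exact eq_of_subset_of_card_le h3
    (h2 X' (mem_filter.2 ⟨mem_powerset.2 (h3.trans h1.1), h4⟩))

/-- the two ends of the edge of `N` at a vertex of the circuit, inside a set which that edge does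
not cross -/
private lemma te_edge (S : Stk s t vs es F N R) {v : V} (hv : v ∈ vs) (hvT : v ∉ R.T)
    {X : Finset V} {x : V} (hx : x ∈ X) (hxC : x ∈ comp s t vs es F v)
    (hc : ∀ g ∈ eP s N (comp s t vs es F v), ¬ cr s t X g) :
    ∃ (g : E) (y : V), g ∈ eP s N (comp s t vs es F v) ∧ Ends s t g x y ∧ y ∈ X ∧
      y ∈ comp s t vs es F v := by
  have hxT := disjoint_left.1 (S.comp_disj hv hvT) hxC
  obtain ⟨g, hg, hgc, -⟩ := cn_eq_one_unique' (S.Nv x (comp_sub v hxC) hxT)
  have hge := S.Nsub hg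
  have hgF : g ∉ F := disjoint_left.1 S.NF hg
  have hb := te_both S (v := v) hge hgF
  rcases te_touch hgc with h1 | h1
  · have hsC : s g ∈ comp s t vs es F v := h1 ▸ hxC
    have hP : g ∈ eP s N (comp s t vs es F v) := mem_filter.2 ⟨hg, hsC⟩
    refine ⟨g, t g, hP, Or.inl ⟨h1, rfl⟩, ?_, hb.1 hsC⟩
    have h2 := hc g hP
    unfold cr at h2
    rw [not_not] at h2
    exact h2.1 (h1 ▸ hx)
  · have htC : t g ∈ comp s t vs es F v := h1 ▸ hxC
    have hsC := hb.2 htC
    have hP : g ∈ eP s N (comp s t vs es F v) := mem_filter.2 ⟨hg, hsC⟩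
    refine ⟨g, s g, hP, Or.inr ⟨rfl, h1⟩, ?_, hsC⟩
    have h2 := hc g hP
    unfold cr at h2
    rw [not_not] at h2
    exact h2.2 (h1 ▸ hx)


/-- a set with odd `T`-part crossed by one edge only meets the circuit -/
private lemma te_meets (S : Stk s t vs es F N R) {v : V} (hv : v ∈ vs) (hvT : v ∉ R.T)
    {Z : Finset V} (hZ : Z ⊆ vs) (ho : Odd (Z ∩ R.T).card) {f : E} (hf : f ∈ F)
    (hc : ∀ g ∈ eH s es F N (comp s t vs es F v), cr s t Z g → g = f) :
    ∃ x ∈ Z, x ∈ comp s t vs es F v := by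
  by_contra hno
  have hno' : ∀ x ∈ Z, x ∉ comp s t vs es F v := fun x hx hx' => hno ⟨x, hx, hx'⟩
  have h1 : Z \ comp s t vs es F v = Z := by
    ext u
    rw [mem_sdiff]
    exact ⟨fun h => h.1, fun h => ⟨h, hno' u h⟩⟩
  have h2 : Odd Z.card := by
    have h3 := (te_parT S hv hvT hZ (fun g hg _ hcr =>
      disjoint_left.1 S.NF hg ((hc g (te_mem (S.Nsub hg) (Or.inr (Or.inl hg))) hcr).symm ▸ hf))).2
      ho
    rwa [h1] at h3
  have h3 := S.h.oddcut Z hZ h2
  have h4 : cn s t es Z ≤ 1 := by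
    rw [cn_eq_card]
    have h5 : es.filter (cr s t Z) ⊆ {f} := by
      intro g hg
      rw [mem_filter] at hg
      rw [mem_singleton]
      by_cases h6 : g ∈ F ∨ g ∈ N ∨ s g ∉ comp s t vs es F v
      · exact hc g (te_mem hg.1 h6) hg.2
      · exfalso
        rw [not_or, not_or, not_not] at h6
        have h7 := (te_both S (v := v) hg.1 h6.1).1 h6.2.2
        exact hg.2 ⟨fun h8 => absurd h6.2.2 (hno' _ h8), fun h8 => absurd h7 (hno' _ h8)⟩
    exact (card_le_card h5).trans (card_singleton f).le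
  omega

/-! ### crossing over two edges -/

private structure TSw (s t s' t' : E → V) (g1 g2 : E) (x1 y1 x2 y2 : V) : Prop where
  ne : g1 ≠ g2
  e1 : Ends s t g1 x1 y1
  e2 : Ends s t g2 x2 y2
  n1 : Ends s' t' g1 x1 x2
  n2 : Ends s' t' g2 y1 y2
  o : ∀ g, g ≠ g1 → g ≠ g2 → s' g = s g ∧ t' g = t g
  d1 : x1 ≠ y1
  d2 : x2 ≠ y2
  d3 : x1 ≠ x2
  d4 : y1 ≠ y2

private lemma te_ci {s t : E → V} {g : E} {p q u : V} (h : Ends s t g p q) (hpq : p ≠ q) :
    ci s t {u} g = (if p = u then 1 else 0) + (if q = u then 1 else 0) := by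
  unfold ci
  rw [if_congr (h.cr {u}) rfl rfl]
  simp only [mem_singleton]
  by_cases h1 : p = u
  · have h2 : ¬ q = u := fun h2 => hpq (h1.trans h2.symm)
    simp [h1, h2]
  · by_cases h2 : q = u
    · simp [h1, h2]
    · simp [h1, h2]

private lemma TSw.cr {s' t' : E → V} {g1 g2 : E} {x1 y1 x2 y2 : V}
    (W : TSw s t s' t' g1 g2 x1 y1 x2 y2) {g : E} (h1 : g ≠ g1) (h2 : g ≠ g2) (Z : Finset V) :
    cr s' t' Z g ↔ cr s t Z g := by
  obtain ⟨h3, h4⟩ := W.o g h1 h2
  unfold OddSix.cr
  rw [h3, h4]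

private lemma TSw.cn0 {s' t' : E → V} {g1 g2 : E} {x1 y1 x2 y2 : V}
    (W : TSw s t s' t' g1 g2 x1 y1 x2 y2) {A : Finset E} (h1 : g1 ∉ A) (h2 : g2 ∉ A)
    (Z : Finset V) : cn s' t' A Z = cn s t A Z := by
  unfold cn
  refine Finset.sum_congr rfl fun g hg => ?_
  unfold ci
  rw [if_congr (W.cr (fun h => h1 (h ▸ hg)) (fun h => h2 (h ▸ hg)) Z) rfl rfl]

private lemma TSw.cn2 {s' t' : E → V} {g1 g2 : E} {x1 y1 x2 y2 : V}
    (W : TSw s t s' t' g1 g2 x1 y1 x2 y2) {A : Finset E} (h1 : g1 ∈ A) (h2 : g2 ∈ A)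
    (u : V) : cn s' t' A {u} = cn s t A {u} := by
  have hA : A = insert g1 (insert g2 (A \ {g1, g2})) := by
    ext g
    simp only [mem_insert, mem_sdiff, mem_singleton]
    constructor
    · intro h
      by_cases h3 : g = g1
      · exact Or.inl h3
      · by_cases h4 : g = g2
        · exact Or.inr (Or.inl h4)
        · exact Or.inr (Or.inr ⟨h, by tauto⟩)
    · rintro (h | h | h)
      · exact h ▸ h1
      · exact h ▸ h2
      · exact h.1
  have k1 : g1 ∉ insert g2 (A \ {g1, g2}) := by
    simp [W.ne]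
  have k2 : g2 ∉ A \ {g1, g2} := by simp
  have k3 : g1 ∉ A \ {g1, g2} := by simp
  rw [hA, cn_insert k1, cn_insert k2, cn_insert k1, cn_insert k2, W.cn0 k3 k2, te_ci W.n1 W.d3,
    te_ci W.n2 W.d4, te_ci W.e1 W.d1, te_ci W.e2 W.d2]
  omega

/-- the new graph satisfies the hypotheses -/
private lemma te_hyp (S : Stk s t vs es F N R) {v : V} (hv : v ∈ vs) (hvT : v ∉ R.T)
    {s' t' : E → V} {g1 g2 : E} {x1 y1 x2 y2 : V} (W : TSw s t s' t' g1 g2 x1 y1 x2 y2)
    (hg1 : g1 ∈ eP s N (comp s t vs es F v)) (hg2 : g2 ∈ eP s N (comp s t vs es F v))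
    (hx1 : x1 ∈ comp s t vs es F v) (hy1 : y1 ∈ comp s t vs es F v)
    (hx2 : x2 ∈ comp s t vs es F v) (hy2 : y2 ∈ comp s t vs es F v)
    (hcut : ∀ X ⊆ vs, Odd (X \ comp s t vs es F v).card →
      3 ≤ cn s' t' (eH s es F N (comp s t vs es F v)) X) :
    Hyp2 s' t' vs (eH s es F N (comp s t vs es F v)) F (eP s N (comp s t vs es F v))
      (comp s t vs es F v) R.T := by
  have hPN : ∀ g ∈ eP s N (comp s t vs es F v), g ∈ N := fun g hg => (mem_filter.1 hg).1
  have hPs : ∀ g ∈ eP s N (comp s t vs es F v), s g ∈ comp s t vs es F v :=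
    fun g hg => (mem_filter.1 hg).2
  have hPF : ∀ g ∈ eP s N (comp s t vs es F v), g ∉ F :=
    fun g hg => disjoint_left.1 S.NF (hPN g hg)
  have hPt : ∀ g ∈ eP s N (comp s t vs es F v), t g ∈ comp s t vs es F v :=
    fun g hg => (te_both S (S.Nsub (hPN g hg)) (hPF g hg)).1 (hPs g hg)
  have hPH : eP s N (comp s t vs es F v) ⊆ eH s es F N (comp s t vs es F v) :=
    fun g hg => te_mem (S.Nsub (hPN g hg)) (Or.inr (Or.inl (hPN g hg)))
  have hnew : ∀ g ∈ eP s N (comp s t vs es F v),
      s' g ∈ comp s t vs es F v ∧ t' g ∈ comp s t vs es F v := by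
    intro g hg
    by_cases h1 : g = g1
    · rw [h1]
      rcases W.n1 with ⟨h2, h3⟩ | ⟨h2, h3⟩ <;> rw [h2, h3]
      · exact ⟨hx1, hx2⟩
      · exact ⟨hx2, hx1⟩
    · by_cases h2 : g = g2
      · rw [h2]
        rcases W.n2 with ⟨h2, h3⟩ | ⟨h2, h3⟩ <;> rw [h2, h3]
        · exact ⟨hy1, hy2⟩
        · exact ⟨hy2, hy1⟩
      · rw [(W.o g h1 h2).1, (W.o g h1 h2).2]
        exact ⟨hPs g hg, hPt g hg⟩
  refine ⟨?_, ?_, comp_sub v, ?_, ?_, ?_, hPH, fun g hg => te_mem (S.h.sub hg) (Or.inl hg), ?_,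
    hnew, ?_, hcut, ?_, ?_⟩
  · intro g hg
    by_cases h0 : g ∈ eP s N (comp s t vs es F v)
    · exact ⟨comp_sub v (hnew g h0).1, comp_sub v (hnew g h0).2⟩
    · have h1 : g ≠ g1 := fun h => h0 (h ▸ hg1)
      have h2 : g ≠ g2 := fun h => h0 (h ▸ hg2)
      rw [(W.o g h1 h2).1, (W.o g h1 h2).2]
      exact S.h.ends g (te_sub hg)
  · intro g hg
    by_cases h1 : g = g1
    · rw [h1]
      rcases W.n1 with ⟨h2, h3⟩ | ⟨h2, h3⟩ <;> rw [h2, h3]
      · exact W.d3
      · exact W.d3.symm
    · by_cases h2 : g = g2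
      · rw [h2]
        rcases W.n2 with ⟨h2, h3⟩ | ⟨h2, h3⟩ <;> rw [h2, h3]
        · exact W.d4
        · exact W.d4.symm
      · rw [(W.o g h1 h2).1, (W.o g h1 h2).2]
        exact S.h.noloop g (te_sub hg)
  · intro u hu huC
    rw [W.cn2 (hPH hg1) (hPH hg2)]
    exact te_three S hu huC
  · intro u hu
    rw [W.cn2 (hPH hg1) (hPH hg2)]
    exact te_two S hv hvT hu
  · intro u hu
    rw [W.cn2 hg1 hg2, ← S.Nv u (comp_sub v hu) (disjoint_left.1 (S.comp_disj hv hvT) hu),
      cn_eq_card, cn_eq_card]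
    congr 1
    ext g
    unfold eP
    simp only [mem_filter]
    constructor
    · rintro ⟨⟨h4, h5⟩, h6⟩
      exact ⟨h4, h6⟩
    · rintro ⟨h4, h5⟩
      refine ⟨⟨h4, ?_⟩, h5⟩
      rcases te_touch h5 with h7 | h7
      · rw [h7]
        exact hu
      · exact (te_both S (S.Nsub h4) (disjoint_left.1 S.NF h4)).2 (h7 ▸ hu)
  · rw [disjoint_left]
    exact hPF
  · intro u hu
    rw [W.cn0 (hPF g1 hg1) (hPF g2 hg2)]
    exact S.h.join u hu
  · unfold Tree.T
    exact card_le_six
  · intro X hX ho hc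
    have h1 : Odd (X ∩ R.T).card := by
      rw [← te_parT S hv hvT hX]
      · exact ho
      · intro g hg hs hcr
        have h0 : g ∉ eP s N (comp s t vs es F v) := fun h => hs (hPs g h)
        have h1 : g ≠ g1 := fun h => h0 (h ▸ hg1)
        have h2 : g ≠ g2 := fun h => h0 (h ▸ hg2)
        rcases hc g (te_mem (S.Nsub hg) (Or.inr (Or.inl hg))) ((W.cr h1 h2 X).2 hcr) with h | h
        · exact disjoint_left.1 S.NF hg h
        · exact h0 h
    rw [← card_pos]
    exact h1.pos

/-- a perfect matching of the new graph -/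
private lemma te_concl (S : Stk s t vs es F N R) {v : V} (hv : v ∈ vs)
    {s' t' : E → V} {g1 g2 : E} {x1 y1 x2 y2 : V} (W : TSw s t s' t' g1 g2 x1 y1 x2 y2)
    (hx1 : x1 ∈ comp s t vs es F v) (hy1 : y1 ∈ comp s t vs es F v)
    (hx2 : x2 ∈ comp s t vs es F v) (hy2 : y2 ∈ comp s t vs es F v)
    {M : Finset E} (hM : M ⊆ eH s es F N (comp s t vs es F v)) (he : R.e ∈ M)
    (h1M : g1 ∈ M) (h2M : g2 ∈ M) (hM1 : ∀ u ∈ vs, cn s' t' M {u} = 1)
    (hgood : ∀ Z ⊆ vs, Odd (Z \ comp s t vs es F v).card →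
      ∃ g ∈ eH s es F N (comp s t vs es F v), cr s' t' Z g ∧ ¬ (g ∈ M ∧ g ∈ F)) :
    Concl s t vs es F R.e := by
  refine ⟨M, hM.trans te_sub, he, fun u hu => ?_, ?_⟩
  · rw [← W.cn2 h1M h2M]
    exact hM1 u hu
  · -- first the sets disjoint from the circuit
    have key : ∀ Z ⊆ vs, Odd Z.card → Disjoint (comp s t vs es F v) Z →
        ∃ g ∈ es, cr s t Z g ∧ ¬ (g ∈ M ∧ g ∈ F) := by
      intro Z hZ ho hd
      have h1 : Z \ comp s t vs es F v = Z := by
        rw [Finset.sdiff_eq_self_iff_disjoint]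
        exact hd.symm
      obtain ⟨g, hg, hc, hn⟩ := hgood Z hZ (by rw [h1]; exact ho)
      have hnot : ∀ {x y : V}, Ends s' t' g x y → x ∈ comp s t vs es F v →
          y ∈ comp s t vs es F v → False := by
        intro x y hE hx hy
        rw [hE.cr] at hc
        exact hc ⟨fun h => absurd h (disjoint_left.1 hd hx), fun h => absurd h (disjoint_left.1 hd hy)⟩
      by_cases k1 : g = g1
      · exact (hnot (k1 ▸ W.n1) hx1 hx2).elim
      · by_cases k2 : g = g2
        · exact (hnot (k2 ▸ W.n2) hy1 hy2).elim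
        · exact ⟨g, te_sub hg, (W.cr k1 k2 Z).1 hc, hn⟩
    intro Z hZ ho
    by_contra hcon
    have hcon' : ∀ g ∈ es, cr s t Z g → g ∈ M ∧ g ∈ F := by
      intro g hg hc
      by_contra h
      exact hcon ⟨g, hg, hc, h⟩
    have hcl : Cl s t vs es F Z := ⟨hZ, fun g hg hc => (hcon' g hg hc).2⟩
    rcases comp_or S.h.ends hv hcl with h | h
    · obtain ⟨g, hg, hc, hn⟩ := key (vs \ Z) sdiff_subset (by
        rw [card_sdiff_of_subset hZ]
        have h1 := S.h.even_card
        have h2 := card_le_card hZ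
        obtain ⟨a, ha⟩ := h1
        obtain ⟨b, hb⟩ := ho
        exact ⟨a - b - 1, by omega⟩) (by
        rw [disjoint_left]
        intro u hu hu'
        exact (mem_sdiff.1 hu').2 (h hu))
      rw [cr_compl (S.h.ends g hg).1 (S.h.ends g hg).2] at hc
      exact hcon ⟨g, hg, hc, hn⟩
    · exact hcon (key Z hZ ho h)


/-! ### classification of the blocking sets -/

private lemma te_part {Z A : Finset V} {T : Finset V} (hA : A ⊆ T)
    (h : ∀ x ∈ T, (x ∈ Z ↔ x ∈ A)) : Z ∩ T = A := by
  ext u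
  rw [mem_inter]
  constructor
  · rintro ⟨h1, h2⟩
    exact (h u h2).1 h1
  · intro h1
    exact ⟨(h u (hA h1)).2 h1, hA h1⟩

private lemma te_ends {g : E} {x y x' y' : V} (h : Ends s t g x y) (h' : Ends s t g x' y') :
    (x = x' ∧ y = y') ∨ (x = y' ∧ y = x') := by
  rcases h with ⟨h1, h2⟩ | ⟨h1, h2⟩ <;> rcases h' with ⟨h3, h4⟩ | ⟨h3, h4⟩
  · exact Or.inl ⟨h1.symm.trans h3, h2.symm.trans h4⟩
  · exact Or.inr ⟨h1.symm.trans h3, h2.symm.trans h4⟩
  · exact Or.inr ⟨h2.symm.trans h4, h1.symm.trans h3⟩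
  · exact Or.inl ⟨h2.symm.trans h4, h1.symm.trans h3⟩

/-- the edges outside `F` and outside the circuit cross every set an even number of times -/
private lemma te_even (S : Stk s t vs es F N R) {v : V} {Z : Finset V} (hZ : Z ⊆ vs) :
    Even (cn s t (es.filter fun g => g ∉ F ∧ s g ∉ comp s t vs es F v) Z) := by
  have h1 := sum_cn (s := s) (t := t)
    (A := es.filter fun g => g ∉ F ∧ s g ∉ comp s t vs es F v)
    (fun e he => S.h.noloop e (mem_filter.1 he).1) Z
  have h2 : Even (∑ u ∈ Z,
      cn s t (es.filter fun g => g ∉ F ∧ s g ∉ comp s t vs es F v) {u}) := by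
    refine Finset.even_sum _ fun u hu => ?_
    have hus := hZ hu
    by_cases huC : u ∈ comp s t vs es F v
    · have h3 : cn s t (es.filter fun g => g ∉ F ∧ s g ∉ comp s t vs es F v) {u} = 0 := by
        rw [cn_eq_zero]
        intro g hg hc
        rw [mem_filter] at hg
        rcases te_touch hc with h4 | h4
        · exact hg.2.2 (h4 ▸ huC)
        · exact hg.2.2 ((te_both S hg.1 hg.2.1).2 (h4 ▸ huC))
      rw [h3]
      exact Even.zero
    · by_cases huT : u ∈ R.T
      · have h3 : cn s t (es.filter fun g => g ∉ F ∧ s g ∉ comp s t vs es F v) {u} = 0 := by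
          rw [cn_eq_zero]
          intro g hg hc
          rw [mem_filter] at hg
          exact hg.2.1 (S.full u huT g hg.1 hc)
        rw [h3]
        exact Even.zero
      · have h3 : cn s t (es.filter fun g => g ∉ F ∧ s g ∉ comp s t vs es F v) {u} =
            cn s t (es.filter fun g => ¬ g ∈ F) {u} := by
          rw [cn_eq_card, cn_eq_card]
          congr 1
          ext g
          simp only [mem_filter]
          constructor
          · rintro ⟨⟨h4, h5, h6⟩, h7⟩
            exact ⟨⟨h4, h5⟩, h7⟩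
          · rintro ⟨⟨h4, h5⟩, h7⟩
            refine ⟨⟨h4, h5, fun h8 => ?_⟩, h7⟩
            rcases te_touch h7 with h9 | h9
            · exact huC (h9 ▸ h8)
            · exact huC (h9 ▸ (te_both S h4 h5).1 h8)
        have h4 := cn_filter_add s t es (fun g => g ∈ F) {u}
        have h5 : es.filter (fun g => g ∈ F) = F := by
          ext g
          rw [mem_filter]
          exact ⟨fun h => h.2, fun h => ⟨S.h.sub h, h⟩⟩
        rw [h5, te_F S hus huT, S.h.cubic u hus] at h4
        rw [h3]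
        exact ⟨1, by omega⟩
  rw [h1] at h2
  obtain ⟨k, hk⟩ := h2
  exact ⟨k - inn s t (es.filter fun g => g ∉ F ∧ s g ∉ comp s t vs es F v) Z, by omega⟩

private lemma te_cls (S : Stk s t vs es F N R) {v : V} (hv : v ∈ vs) (hvT : v ∉ R.T)
    {s' t' : E → V} {g1 g2 : E} {x1 y1 x2 y2 : V} (W : TSw s t s' t' g1 g2 x1 y1 x2 y2)
    (hg1 : g1 ∈ eP s N (comp s t vs es F v)) (hg2 : g2 ∈ eP s N (comp s t vs es F v))
    (hends : ∀ g ∈ eH s es F N (comp s t vs es F v), s' g ∈ vs ∧ t' g ∈ vs)
    (hloop : ∀ g ∈ eH s es F N (comp s t vs es F v), s' g ≠ t' g)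
    {X : Finset V} (hX : X ⊆ vs) (ho : Odd (X \ comp s t vs es F v).card)
    (hlt : cn s' t' (eH s es F N (comp s t vs es F v)) X < 3) :
    (∃ Z ⊆ vs, Z ∩ R.T = {R.a, R.p, R.q} ∧
      ∀ g ∈ eH s es F N (comp s t vs es F v), cr s' t' Z g → g = R.e) ∨
    (∃ (l l' : V) (τ : E), ∃ Z ⊆ vs, R.Leaf l l' τ ∧ Z ∩ R.T = {l} ∧
      ∀ g ∈ eH s es F N (comp s t vs es F v), cr s' t' Z g → g = τ) := by
  have hPN : ∀ g ∈ eP s N (comp s t vs es F v), g ∈ N := fun g hg => (mem_filter.1 hg).1
  have hPs : ∀ g ∈ eP s N (comp s t vs es F v), s g ∈ comp s t vs es F v :=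
    fun g hg => (mem_filter.1 hg).2
  have hPF : ∀ g ∈ eP s N (comp s t vs es F v), g ∉ F :=
    fun g hg => disjoint_left.1 S.NF (hPN g hg)
  have hPH : eP s N (comp s t vs es F v) ⊆ eH s es F N (comp s t vs es F v) :=
    fun g hg => te_mem (S.Nsub (hPN g hg)) (Or.inr (Or.inl (hPN g hg)))
  -- parity
  have p1 : Odd (cn s' t' (eH s es F N (comp s t vs es F v)) X) := by
    have h1 := sum_cn (s := s') (t := t') (A := eH s es F N (comp s t vs es F v)) hloop X
    have h2 : ∑ u ∈ X, cn s' t' (eH s es F N (comp s t vs es F v)) {u} =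
        3 * (X \ comp s t vs es F v).card + 2 * (X ∩ comp s t vs es F v).card := by
      rw [← Finset.sum_inter_add_sum_sdiff X (comp s t vs es F v), add_comm]
      congr 1
      · rw [Finset.sum_congr rfl (g := fun _ => 3), Finset.sum_const, smul_eq_mul, Nat.mul_comm]
        intro u hu
        rw [mem_sdiff] at hu
        rw [W.cn2 (hPH hg1) (hPH hg2)]
        exact te_three S (hX hu.1) hu.2
      · rw [Finset.sum_congr rfl (g := fun _ => 2), Finset.sum_const, smul_eq_mul, Nat.mul_comm]
        intro u hu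
        rw [W.cn2 (hPH hg1) (hPH hg2)]
        exact te_two S hv hvT (mem_inter.1 hu).2
    rw [h2] at h1
    by_contra h4
    rw [Nat.not_odd_iff_even] at h4
    obtain ⟨a, ha⟩ := ho
    obtain ⟨b, hb⟩ := h4
    omega
  have p2 : cn s' t' (eH s es F N (comp s t vs es F v)) X = 1 := by
    obtain ⟨k, hk⟩ := p1
    omega
  obtain ⟨h, hh, hhc, huniq⟩ := cn_eq_one_unique' p2
  -- no edge outside `F` and outside the circuit crosses
  have hA : ∀ g ∈ es, g ∉ F → s g ∉ comp s t vs es F v → ¬ cr s t X g := by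
    intro g hg hgF hgs hc
    have q0 : ∀ g' ∈ es, g' ∉ F → s g' ∉ comp s t vs es F v → (cr s' t' X g' ↔ cr s t X g') := by
      intro g' h1 h2 h3
      have h0 : g' ∉ eP s N (comp s t vs es F v) := fun h => h3 (hPs g' h)
      have k1 : g' ≠ g1 := by
        intro h4
        rw [h4] at h0
        exact h0 hg1
      have k2 : g' ≠ g2 := by
        intro h4
        rw [h4] at h0
        exact h0 hg2
      exact W.cr k1 k2 X
    have q1 : (es.filter fun g => g ∉ F ∧ s g ∉ comp s t vs es F v).filter (cr s t X) = {h} := by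
      ext g'
      rw [mem_filter, mem_filter, mem_singleton]
      constructor
      · rintro ⟨⟨h1, h2, h3⟩, h4⟩
        exact huniq g' (te_mem h1 (Or.inr (Or.inr h3))) ((q0 g' h1 h2 h3).2 h4)
      · intro h1
        have h2 : g = h := huniq g (te_mem hg (Or.inr (Or.inr hgs))) ((q0 g hg hgF hgs).2 hc)
        rw [h1, ← h2]
        exact ⟨⟨hg, hgF, hgs⟩, hc⟩
    have q2 := te_even S (v := v) hX
    rw [cn_eq_card, q1, card_singleton] at q2
    exact absurd q2 (by decide)
  have hT : Odd (X ∩ R.T).card := by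
    rw [← te_parT S hv hvT hX]
    · exact ho
    · intro g hg hs
      exact hA g (S.Nsub hg) (disjoint_left.1 S.NF hg) hs
  -- the tree
  have nd := S.nd
  simp only [List.nodup_cons, List.mem_cons, List.not_mem_nil, or_false, not_or,
      not_false_eq_true, List.nodup_nil, and_true] at nd
  obtain ⟨⟨nab, nap, naq, nap', naq'⟩, ⟨nbp, nbq, nbp', nbq'⟩, ⟨npq, npp', npq'⟩,
    ⟨nqp', nqq'⟩, np'q'⟩ := nd
  have hTa : R.a ∈ R.T := by unfold Tree.T; simp
  have hTb : R.b ∈ R.T := by unfold Tree.T; simp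
  have hTp : R.p ∈ R.T := by unfold Tree.T; simp
  have hTq : R.q ∈ R.T := by unfold Tree.T; simp
  have hTp' : R.p' ∈ R.T := by unfold Tree.T; simp
  have hTq' : R.q' ∈ R.T := by unfold Tree.T; simp
  have key : ∀ {τ : E} {x y : V}, Ends s t τ x y → τ ∈ es → x ∈ R.T → x ≠ y →
      (x ∈ X ↔ y ∈ X) ∨ τ = h := by
    intro τ x y hE hτ hx hxy
    have h1 : τ ∈ F := by
      refine S.full x hx τ hτ ?_
      rw [hE.cr]
      rw [mem_singleton, mem_singleton]
      intro h2
      exact hxy (h2.1 rfl).symm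
    by_cases h2 : (x ∈ X ↔ y ∈ X)
    · exact Or.inl h2
    · right
      refine huniq τ (te_mem hτ (Or.inl h1)) ?_
      rw [W.cr (fun h => hPF g1 hg1 (h ▸ h1)) (fun h => hPF g2 hg2 (h ▸ h1)), hE.cr]
      exact h2
  have k0 := key S.E0 S.m0 hTa nab
  have k1 := key S.E1 S.m1 hTa nap
  have k2 := key S.E2 S.m2 hTa naq
  have k3 := key S.E3 S.m3 hTb nbp'
  have k4 := key S.E4 S.m4 hTb nbq'
  have dis : ∀ {τ τ' : E} {x y x' y' : V}, Ends s t τ x y → Ends s t τ' x' y' → y' ≠ y → y' ≠ x →
      τ ≠ τ' := by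
    intro τ τ' x y x' y' h1 h2 h3 h4 h5
    rw [h5] at h1
    rcases te_ends h1 h2 with ⟨h6, h7⟩ | ⟨h6, h7⟩
    · exact h3 h7.symm
    · exact h4 h6.symm
  have d01 := dis S.E0 S.E1 (Ne.symm nbp) (Ne.symm nap)
  have d02 := dis S.E0 S.E2 (Ne.symm nbq) (Ne.symm naq)
  have d03 := dis S.E0 S.E3 (Ne.symm nbp') (Ne.symm nap')
  have d04 := dis S.E0 S.E4 (Ne.symm nbq') (Ne.symm naq')
  have d12 := dis S.E1 S.E2 (Ne.symm npq) (Ne.symm naq)
  have d13 := dis S.E1 S.E3 (Ne.symm npp') (Ne.symm nap')
  have d14 := dis S.E1 S.E4 (Ne.symm npq') (Ne.symm naq')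
  have d23 := dis S.E2 S.E3 (Ne.symm nqp') (Ne.symm nap')
  have d24 := dis S.E2 S.E4 (Ne.symm nqq') (Ne.symm naq')
  have d34 := dis S.E3 S.E4 (Ne.symm np'q') (Ne.symm nbq')
  have memT : ∀ {P : V → Prop}, P R.a → P R.b → P R.p → P R.q → P R.p' → P R.q' →
      ∀ x ∈ R.T, P x := by
    intro P h1 h2 h3 h4 h5 h6 x hx
    unfold Tree.T at hx
    simp only [mem_insert, mem_singleton] at hx
    rcases hx with h | h | h | h | h | h <;> rw [h]
    · exact h1
    · exact h2
    · exact h3
    · exact h4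
    · exact h5
    · exact h6
  -- the set or its complement
  have hcompl : ∀ {x : V}, x ∈ R.T → (x ∈ vs \ X ↔ x ∉ X) := by
    intro x hx
    rw [mem_sdiff]
    exact ⟨fun h => h.2, fun h => ⟨S.sub hx, h⟩⟩
  have hcX : ∀ g ∈ eH s es F N (comp s t vs es F v), cr s' t' (vs \ X) g → g = h := by
    intro g hg hc
    rw [cr_compl (hends g hg).1 (hends g hg).2] at hc
    exact huniq g hg hc
  have fin : ∀ (A : Finset V) (f : E), A ⊆ R.T → f = h →
      ((∀ x ∈ R.T, (x ∈ X ↔ x ∈ A)) ∨ (∀ x ∈ R.T, (x ∈ X ↔ x ∉ A))) →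
      ∃ Z ⊆ vs, Z ∩ R.T = A ∧ ∀ g ∈ eH s es F N (comp s t vs es F v), cr s' t' Z g → g = f := by
    intro A f hAT hf hor
    rcases hor with h1 | h1
    · exact ⟨X, hX, te_part hAT h1, fun g hg hc => (huniq g hg hc).trans hf.symm⟩
    · refine ⟨vs \ X, sdiff_subset, te_part hAT fun x hx => ?_,
        fun g hg hc => (hcX g hg hc).trans hf.symm⟩
      rw [hcompl hx, h1 x hx, not_not]
  have leaf : ∀ {l l' : V} {τ : E}, R.Leaf l l' τ → l ∈ R.T → τ = h →
      (∀ x ∈ R.T, x ≠ l → ¬ (x ∈ X ↔ l ∈ X)) →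
      ∃ (l l' : V) (τ : E), ∃ Z ⊆ vs, R.Leaf l l' τ ∧ Z ∩ R.T = {l} ∧
        ∀ g ∈ eH s es F N (comp s t vs es F v), cr s' t' Z g → g = τ := by
    intro l l' τ hL hl hτ hx
    obtain ⟨Z, h1, h2, h3⟩ := fin {l} τ (singleton_subset_iff.2 hl) hτ (by
      by_cases h4 : l ∈ X
      · left
        intro x hxT
        rw [mem_singleton]
        constructor
        · intro h5
          by_contra h6
          exact hx x hxT h6 ⟨fun _ => h4, fun _ => h5⟩
        · intro h5
          rw [h5]
          exact h4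
      · right
        intro x hxT
        rw [mem_singleton]
        constructor
        · intro h5 h6
          exact h4 (h6 ▸ h5)
        · intro h5
          by_contra h6
          exact hx x hxT h5 ⟨fun h => absurd h h6, fun h => absurd h h4⟩)
    exact ⟨l, l', τ, Z, h1, hL, h2, h3⟩
  by_cases c0 : R.e = h
  · left
    have j1 := k1.resolve_right fun h => d01 (c0.trans h.symm)
    have j2 := k2.resolve_right fun h => d02 (c0.trans h.symm)
    have j3 := k3.resolve_right fun h => d03 (c0.trans h.symm)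
    have j4 := k4.resolve_right fun h => d04 (c0.trans h.symm)
    have j0 : ¬ (R.a ∈ X ↔ R.b ∈ X) := by
      rw [← S.E0.cr, ← W.cr (fun h => hPF g1 hg1 (h ▸ S.full R.a hTa R.e S.m0
        ((S.E0.cr _).2 (by simp [Ne.symm nab]))))
        (fun h => hPF g2 hg2 (h ▸ S.full R.a hTa R.e S.m0
        ((S.E0.cr _).2 (by simp [Ne.symm nab])))), c0]
      exact hhc
    refine fin {R.a, R.p, R.q} R.e ?_ c0 ?_
    · intro x hx
      simp only [mem_insert, mem_singleton] at hx
      rcases hx with h | h | h <;> rw [h] <;> assumption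
    · by_cases ca : R.a ∈ X
      · left
        have cb : R.b ∉ X := fun h => j0 ⟨fun _ => h, fun _ => ca⟩
        refine memT ?_ ?_ ?_ ?_ ?_ ?_
        · simp [ca]
        · simp [cb, Ne.symm nab, nbp, nbq]
        · simp [j1.1 ca]
        · simp [j2.1 ca]
        · have c1 : R.p' ∉ X := fun h => cb (j3.2 h)
          simp [c1, Ne.symm nap', Ne.symm npp', Ne.symm nqp']
        · have c1 : R.q' ∉ X := fun h => cb (j4.2 h)
          simp [c1, Ne.symm naq', Ne.symm npq', Ne.symm nqq']
      · right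
        have cb : R.b ∈ X := by
          by_contra h
          exact j0 ⟨fun h' => absurd h' ca, fun h' => absurd h' h⟩
        refine memT ?_ ?_ ?_ ?_ ?_ ?_
        · simp [ca]
        · simp [cb, Ne.symm nab, nbp, nbq]
        · have c1 : R.p ∉ X := fun h => ca (j1.2 h)
          simp [c1]
        · have c1 : R.q ∉ X := fun h => ca (j2.2 h)
          simp [c1]
        · simp [j3.1 cb, Ne.symm nap', Ne.symm npp', Ne.symm nqp']
        · simp [j4.1 cb, Ne.symm naq', Ne.symm npq', Ne.symm nqq']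
  · right
    have j0 := k0.resolve_right c0
    have cross : ∀ {τ : E} {x y : V}, Ends s t τ x y → τ ∈ es → x ∈ R.T → x ≠ y → τ = h →
        ¬ (x ∈ X ↔ y ∈ X) := by
      intro τ x y hE hτ hx hxy hτh
      have h1 : τ ∈ F := by
        refine S.full x hx τ hτ ?_
        rw [hE.cr]
        rw [mem_singleton, mem_singleton]
        intro h2
        exact hxy (h2.1 rfl).symm
      rw [← hE.cr, ← W.cr (fun h => hPF g1 hg1 (h ▸ h1)) (fun h => hPF g2 hg2 (h ▸ h1)), hτh]
      exact hhc
    by_cases c1 : R.e1 = h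
    · have j2 := k2.resolve_right fun h => d12 (c1.trans h.symm)
      have j3 := k3.resolve_right fun h => d13 (c1.trans h.symm)
      have j4 := k4.resolve_right fun h => d14 (c1.trans h.symm)
      have i1 := cross S.E1 S.m1 hTa nap c1
      refine leaf (l := R.p) (l' := R.a) (τ := R.e1) (Or.inl ⟨rfl, rfl, rfl⟩) hTp c1
        (memT ?_ ?_ ?_ ?_ ?_ ?_)
      · exact fun _ => i1
      · exact fun _ => by rw [← j0]; exact i1
      · exact fun h => absurd rfl h
      · exact fun _ => by rw [← j2]; exact i1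
      · exact fun _ => by rw [← j3, ← j0]; exact i1
      · exact fun _ => by rw [← j4, ← j0]; exact i1
    · have j1 := k1.resolve_right c1
      by_cases c2 : R.e2 = h
      · have j3 := k3.resolve_right fun h => d23 (c2.trans h.symm)
        have j4 := k4.resolve_right fun h => d24 (c2.trans h.symm)
        have i1 := cross S.E2 S.m2 hTa naq c2
        refine leaf (l := R.q) (l' := R.a) (τ := R.e2) (Or.inr (Or.inl ⟨rfl, rfl, rfl⟩)) hTq c2
          (memT ?_ ?_ ?_ ?_ ?_ ?_)
        · exact fun _ => i1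
        · exact fun _ => by rw [← j0]; exact i1
        · exact fun _ => by rw [← j1]; exact i1
        · exact fun h => absurd rfl h
        · exact fun _ => by rw [← j3, ← j0]; exact i1
        · exact fun _ => by rw [← j4, ← j0]; exact i1
      · have j2 := k2.resolve_right c2
        by_cases c3 : R.e3 = h
        · have j4 := k4.resolve_right fun h => d34 (c3.trans h.symm)
          have i1 := cross S.E3 S.m3 hTb nbp' c3
          refine leaf (l := R.p') (l' := R.b) (τ := R.e3)
            (Or.inr (Or.inr (Or.inl ⟨rfl, rfl, rfl⟩))) hTp' c3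
            (memT ?_ ?_ ?_ ?_ ?_ ?_)
          · exact fun _ => by rw [j0]; exact i1
          · exact fun _ => i1
          · exact fun _ => by rw [← j1, j0]; exact i1
          · exact fun _ => by rw [← j2, j0]; exact i1
          · exact fun h => absurd rfl h
          · exact fun _ => by rw [← j4]; exact i1
        · have j3 := k3.resolve_right c3
          by_cases c4 : R.e4 = h
          · have i1 := cross S.E4 S.m4 hTb nbq' c4
            refine leaf (l := R.q') (l' := R.b) (τ := R.e4)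
              (Or.inr (Or.inr (Or.inr ⟨rfl, rfl, rfl⟩))) hTq' c4
              (memT ?_ ?_ ?_ ?_ ?_ ?_)
            · exact fun _ => by rw [j0]; exact i1
            · exact fun _ => i1
            · exact fun _ => by rw [← j1, j0]; exact i1
            · exact fun _ => by rw [← j2, j0]; exact i1
            · exact fun _ => by rw [← j3]; exact i1
            · exact fun h => absurd rfl h
          · exfalso
            have j4 := k4.resolve_right c4
            by_cases ca : R.a ∈ X
            · have h1 : X ∩ R.T = R.T := by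
                rw [inter_eq_right]
                intro x hx
                revert x
                exact memT ca (j0.1 ca) (j1.1 ca) (j2.1 ca) (j3.1 (j0.1 ca)) (j4.1 (j0.1 ca))
              rw [h1] at hT
              have h2 : R.T.card = 6 := by
                unfold Tree.T
                rw [card_insert_of_notMem, card_insert_of_notMem, card_insert_of_notMem,
                  card_insert_of_notMem, card_insert_of_notMem, card_singleton]
                all_goals simp [nab, nap, naq, nap', naq', nbp, nbq, nbp', nbq', npq, npp', npq',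
                  nqp', nqq', np'q']
              rw [h2] at hT
              exact absurd hT (by decide)
            · have h1 : X ∩ R.T = ∅ := by
                rw [← disjoint_iff_inter_eq_empty, disjoint_right]
                intro x hx
                revert x
                have cb := fun h => ca (j0.2 h)
                exact memT ca cb (fun h => ca (j1.2 h)) (fun h => ca (j2.2 h))
                  (fun h => cb (j3.2 h)) (fun h => cb (j4.2 h))
              rw [h1] at hT
              simp at hT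


/-! ### the theorem -/

/-- a set which is crossed by the prescribed edge only -/
theorem typeE (S : Stk s t vs es F N R) {v : V} (hv : v ∈ vs) (hvT : v ∉ R.T)
    (hs : ∀ s' t' : E → V, Hyp2 s' t' vs (eH s es F N (comp s t vs es F v)) F
      (eP s N (comp s t vs es F v)) (comp s t vs es F v) R.T →
      s' R.e ∉ comp s t vs es F v → t' R.e ∉ comp s t vs es F v →
      Concl2 s' t' vs (eH s es F N (comp s t vs es F v)) F (comp s t vs es F v) R.e)
    (hno : ¬ ∃ (l l' : V) (τ : E) (Z : Finset V), R.Leaf l l' τ ∧ TyT s t vs es F N R v l τ Z)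
    {X : Finset V} (hX : X ⊆ vs) (hXT : X ∩ R.T = {R.a, R.p, R.q})
    (hXc : ∀ g ∈ eH s es F N (comp s t vs es F v), cr s t X g → g = R.e) :
    Concl s t vs es F R.e := by
  have nd := S.nd
  simp only [List.nodup_cons, List.mem_cons, List.not_mem_nil, or_false, not_or,
      not_false_eq_true, List.nodup_nil, and_true] at nd
  obtain ⟨⟨nab, nap, naq, nap', naq'⟩, ⟨nbp, nbq, nbp', nbq'⟩, ⟨npq, npp', npq'⟩,
    ⟨nqp', nqq'⟩, np'q'⟩ := nd
  have hTa : R.a ∈ R.T := by unfold Tree.T; simp
  have hTb : R.b ∈ R.T := by unfold Tree.T; simp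
  have hCT : ∀ u ∈ comp s t vs es F v, u ∉ R.T := fun u hu =>
    disjoint_left.1 (S.comp_disj hv hvT) hu
  have heF : R.e ∈ F := S.full R.a hTa R.e S.m0 ((S.E0.cr _).2 (by simp [Ne.symm nab]))
  have hPN : ∀ g ∈ eP s N (comp s t vs es F v), g ∈ N := fun g hg => (mem_filter.1 hg).1
  have hPF : ∀ g ∈ eP s N (comp s t vs es F v), g ∉ F :=
    fun g hg => disjoint_left.1 S.NF (hPN g hg)
  have hPH : eP s N (comp s t vs es F v) ⊆ eH s es F N (comp s t vs es F v) :=
    fun g hg => te_mem (S.Nsub (hPN g hg)) (Or.inr (Or.inl (hPN g hg)))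
  have c3 : ∀ {x y z : V}, x ≠ y → x ≠ z → y ≠ z → Odd (({x, y, z} : Finset V)).card := by
    intro x y z h1 h2 h3
    rw [card_insert_of_notMem, card_pair h3]
    · decide
    · simp [h1, h2]
  have oddA : Odd (({R.a, R.p, R.q} : Finset V)).card := c3 nap naq npq
  have oddB : Odd (({R.b, R.p', R.q'} : Finset V)).card := c3 nbp' nbq' np'q'
  have TA : R.T \ {R.a, R.p, R.q} = {R.b, R.p', R.q'} := by
    ext u
    unfold Tree.T
    simp only [mem_sdiff, mem_insert, mem_singleton, not_or]
    constructor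
    · rintro ⟨h1, h2, h3, h4⟩
      tauto
    · rintro (h | h | h) <;> rw [h]
      · exact ⟨by tauto, Ne.symm nab, nbp, nbq⟩
      · exact ⟨by tauto, Ne.symm nap', Ne.symm npp', Ne.symm nqp'⟩
      · exact ⟨by tauto, Ne.symm naq', Ne.symm npq', Ne.symm nqq'⟩
  -- minimal sets
  obtain ⟨X0, hX0, ⟨hX0T, hX0c⟩, hX0m⟩ := te_min (vs := vs) (Q := fun X => X ∩ R.T = {R.a, R.p, R.q} ∧
    ∀ g ∈ eH s es F N (comp s t vs es F v), cr s t X g → g = R.e) hX ⟨hXT, hXc⟩
  obtain ⟨Y0, hY0, ⟨hY0T, hY0c⟩, hY0m⟩ := te_min (vs := vs) (X := vs \ X)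
    (Q := fun Y => Y ∩ R.T = {R.b, R.p', R.q'} ∧
    ∀ g ∈ eH s es F N (comp s t vs es F v), cr s t Y g → g = R.e) sdiff_subset ⟨by
      rw [← TA, ← hXT]
      ext u
      simp only [mem_inter, mem_sdiff, not_and]
      constructor
      · rintro ⟨⟨h1, h2⟩, h3⟩
        exact ⟨h3, fun h4 => absurd h4 h2⟩
      · rintro ⟨h1, h2⟩
        exact ⟨⟨S.sub h1, fun h3 => h2 h3 h1⟩, h1⟩, by
      intro g hg hc
      rw [cr_compl (S.h.ends g (te_sub hg)).1 (S.h.ends g (te_sub hg)).2] at hc
      exact hXc g hg hc⟩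
  have memX : ∀ u ∈ R.T, (u ∈ X0 ↔ u ∈ ({R.a, R.p, R.q} : Finset V)) := by
    intro u hu
    rw [← hX0T, mem_inter]
    exact ⟨fun h => ⟨h, hu⟩, fun h => h.1⟩
  have memY : ∀ u ∈ R.T, (u ∈ Y0 ↔ u ∈ ({R.b, R.p', R.q'} : Finset V)) := by
    intro u hu
    rw [← hY0T, mem_inter]
    exact ⟨fun h => ⟨h, hu⟩, fun h => h.1⟩
  have memXY : ∀ u ∈ R.T, (u ∈ Y0 ↔ u ∉ X0) := by
    intro u hu
    rw [memX u hu, memY u hu, ← TA, mem_sdiff]
    exact ⟨fun h => h.2, fun h => ⟨hu, h⟩⟩
  have crsd : ∀ {A B : Finset V} {g : E}, cr s t (A \ B) g → cr s t A g ∨ cr s t B g := by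
    intro A B g h
    unfold cr at h ⊢
    simp only [mem_sdiff] at h
    tauto
  have crin : ∀ {A B : Finset V} {g : E}, cr s t (A ∩ B) g → cr s t A g ∨ cr s t B g := by
    intro A B g h
    unfold cr at h ⊢
    simp only [mem_inter] at h
    tauto
  have hdis : Disjoint X0 Y0 := by
    have h1 : X0 \ Y0 = X0 := by
      refine hX0m _ sdiff_subset ⟨?_, ?_⟩
      · rw [← hX0T]
        ext u
        simp only [mem_inter, mem_sdiff]
        constructor
        · rintro ⟨⟨h1, -⟩, h3⟩
          exact ⟨h1, h3⟩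
        · rintro ⟨h1, h2⟩
          exact ⟨⟨h1, fun h3 => (memXY u h2).1 h3 h1⟩, h2⟩
      · intro g hg hc
        rcases crsd hc with h | h
        · exact hX0c g hg h
        · exact hY0c g hg h
    rw [← h1]
    exact sdiff_disjoint
  -- the two edges
  obtain ⟨x1, hx1X, hx1C⟩ := te_meets S hv hvT hX0 (by rw [hX0T]; exact oddA) heF hX0c
  obtain ⟨x2, hx2Y, hx2C⟩ := te_meets S hv hvT hY0 (by rw [hY0T]; exact oddB) heF hY0c
  obtain ⟨g1, y1, hg1, hE1, hy1X, hy1C⟩ := te_edge S hv hvT hx1X hx1C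
    (fun g hg hc => hPF g hg ((hX0c g (hPH hg) hc).symm ▸ heF))
  obtain ⟨g2, y2, hg2, hE2, hy2Y, hy2C⟩ := te_edge S hv hvT hx2Y hx2C
    (fun g hg hc => hPF g hg ((hY0c g (hPH hg) hc).symm ▸ heF))
  have hnl : ∀ {g : E} {x y : V}, g ∈ es → Ends s t g x y → x ≠ y := by
    intro g x y hg hE hxy
    have h1 := S.h.noloop g hg
    rcases hE with ⟨h2, h3⟩ | ⟨h2, h3⟩
    · exact h1 (h2.trans (hxy.trans h3.symm))
    · exact h1 (h2.trans (hxy.symm.trans h3.symm))
  have hxne : ∀ {x y : V}, x ∈ X0 → y ∈ Y0 → x ≠ y := fun hx hy h =>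
    disjoint_left.1 hdis hx (h.symm ▸ hy)
  have hg12 : g1 ≠ g2 := by
    intro h
    rw [h] at hE1
    rcases te_ends hE1 hE2 with ⟨h1, -⟩ | ⟨h1, -⟩
    · exact hxne hx1X hx2Y h1
    · exact hxne hx1X hy2Y h1
  obtain ⟨s', hs'⟩ : ∃ s', s' = Function.update (Function.update s g1 x1) g2 y1 := ⟨_, rfl⟩
  obtain ⟨t', ht'⟩ : ∃ t', t' = Function.update (Function.update t g1 x2) g2 y2 := ⟨_, rfl⟩
  have W : TSw s t s' t' g1 g2 x1 y1 x2 y2 := by
    refine ⟨hg12, hE1, hE2, ?_, ?_, ?_, hnl (S.Nsub (hPN g1 hg1)) hE1,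
      hnl (S.Nsub (hPN g2 hg2)) hE2, hxne hx1X hx2Y, hxne hy1X hy2Y⟩
    · rw [hs', ht']
      left
      rw [Function.update_of_ne hg12, Function.update_self, Function.update_of_ne hg12,
        Function.update_self]
      exact ⟨rfl, rfl⟩
    · rw [hs', ht']
      left
      rw [Function.update_self, Function.update_self]
      exact ⟨rfl, rfl⟩
    · intro g h1 h2
      rw [hs', ht', Function.update_of_ne h2, Function.update_of_ne h1, Function.update_of_ne h2,
        Function.update_of_ne h1]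
      exact ⟨rfl, rfl⟩
  have hPne : ∀ {g : E}, g ∉ eP s N (comp s t vs es F v) → g ≠ g1 ∧ g ≠ g2 := by
    intro g hg
    constructor
    · intro h
      rw [h] at hg
      exact hg hg1
    · intro h
      rw [h] at hg
      exact hg hg2
  have hFne : ∀ {g : E}, g ∈ F → g ≠ g1 ∧ g ≠ g2 := by
    intro g hg
    exact hPne fun h => hPF g h hg
  by_cases hcut : ∀ X ⊆ vs, Odd (X \ comp s t vs es F v).card →
      3 ≤ cn s' t' (eH s es F N (comp s t vs es F v)) X
  · -- the new graph
    have hH := te_hyp S hv hvT W hg1 hg2 hx1C hy1C hx2C hy2C hcut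
    have hends := W.o R.e (hFne heF).1 (hFne heF).2
    have hab : s R.e ∈ R.T ∧ t R.e ∈ R.T := by
      rcases S.E0 with ⟨h1, h2⟩ | ⟨h1, h2⟩ <;> rw [h1, h2]
      · exact ⟨hTa, hTb⟩
      · exact ⟨hTb, hTa⟩
    obtain ⟨M, hM, heM, hM1, hgood⟩ := hs s' t' hH
      (by rw [hends.1]; exact fun h => hCT _ h hab.1)
      (by rw [hends.2]; exact fun h => hCT _ h hab.2)
    -- the other edges at `x1`, `y1`
    have hJ : ∀ {x : V}, x ∈ comp s t vs es F v → ∃ j ∈ F, ∀ g ∈ F, cr s t {x} g → g = j := by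
      intro x hx
      obtain ⟨j, hj, -, hj2⟩ := cn_eq_one_unique' (te_F S (comp_sub v hx) (hCT x hx))
      exact ⟨j, hj, hj2⟩
    obtain ⟨j1, hj1, hj1u⟩ := hJ hx1C
    obtain ⟨j2, hj2, hj2u⟩ := hJ hy1C
    -- the edges of `H` at a vertex of the circuit
    have hNone : ∀ {x : V} {g0 g : E}, x ∈ comp s t vs es F v → g0 ∈ N → cr s t {x} g0 →
        g ∈ N → cr s t {x} g → g = g0 := by
      intro x g0 g hx h1 h2 h3 h4
      obtain ⟨n, -, -, hn⟩ := cn_eq_one_unique' (S.Nv x (comp_sub v hx) (hCT x hx))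
      rw [hn g h3 h4, hn g0 h1 h2]
    have hHx : ∀ {x : V} {g : E}, x ∈ comp s t vs es F v →
        g ∈ eH s es F N (comp s t vs es F v) → cr s t {x} g → g ∈ F ∨ g ∈ N := by
      intro x g hx hg hc
      by_cases hgF : g ∈ F
      · exact Or.inl hgF
      · right
        have h1 := mem_filter.1 hg
        rcases h1.2 with h2 | h2 | h2
        · exact absurd h2 hgF
        · exact h2
        · exfalso
          rcases te_touch hc with h3 | h3
          · exact h2 (h3 ▸ hx)
          · exact h2 ((te_both S h1.1 hgF).2 (h3 ▸ hx))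
    have hcx : ∀ {g : E} {x y : V}, Ends s t g x y → x ≠ y → cr s t {x} g := by
      intro g x y hE hxy
      rw [hE.cr, mem_singleton, mem_singleton]
      intro h
      exact hxy (h.1 rfl).symm
    have hEsymm : ∀ {g : E} {x y : V}, Ends s t g x y → Ends s t g y x := by
      intro g x y hE
      rcases hE with h | h
      · exact Or.inr h
      · exact Or.inl h
    have hcx1 : cr s t {x1} g1 := hcx hE1 W.d1
    have hcy1 : cr s t {y1} g1 := hcx (hEsymm hE1) W.d1.symm
    have hc2 : ∀ {x : V}, x ∈ X0 → ¬ cr s t {x} g2 := by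
      intro x hx
      rw [hE2.cr, mem_singleton, mem_singleton, not_not]
      exact ⟨fun h => absurd h.symm (hxne hx hx2Y), fun h => absurd h.symm (hxne hx hy2Y)⟩
    -- not both
    have nb : ¬ (j1 ∈ M ∧ j2 ∈ M) := by
      rintro ⟨m1, m2⟩
      have hSs : X0 \ {x1, y1} ⊆ vs := sdiff_subset.trans hX0
      have hSc : (X0 \ {x1, y1}) \ comp s t vs es F v = X0 \ comp s t vs es F v := by
        ext u
        simp only [mem_sdiff, mem_insert, mem_singleton, not_or]
        constructor
        · rintro ⟨⟨h1, -⟩, h2⟩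
          exact ⟨h1, h2⟩
        · rintro ⟨h1, h2⟩
          exact ⟨⟨h1, fun h => h2 (h.symm ▸ hx1C), fun h => h2 (h.symm ▸ hy1C)⟩, h2⟩
      have hodd : Odd ((X0 \ {x1, y1}) \ comp s t vs es F v).card := by
        rw [hSc, te_parT S hv hvT hX0, hX0T]
        · exact oddA
        · intro g hg _ hcr
          exact disjoint_left.1 S.NF hg
            ((hX0c g (te_mem (S.Nsub hg) (Or.inr (Or.inl hg))) hcr).symm ▸ heF)
      obtain ⟨g, hg, hc, hn⟩ := hgood _ hSs hodd
      by_cases k1 : g = g1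
      · rw [k1, W.n1.cr] at hc
        refine hc ⟨fun h => ?_, fun h => ?_⟩
        · simp at h
        · exact absurd (mem_sdiff.1 h).1 (fun h' => disjoint_left.1 hdis h' hx2Y)
      · by_cases k2 : g = g2
        · rw [k2, W.n2.cr] at hc
          refine hc ⟨fun h => ?_, fun h => ?_⟩
          · simp at h
          · exact absurd (mem_sdiff.1 h).1 (fun h' => disjoint_left.1 hdis h' hy2Y)
        · rw [W.cr k1 k2] at hc
          have h4 : cr s t X0 g ∨ cr s t {x1} g ∨ cr s t {y1} g := by
            unfold cr at hc ⊢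
            simp only [mem_sdiff, mem_insert, mem_singleton, not_or] at hc ⊢
            have e1 : s g = x1 → s g ∈ X0 := fun h => h ▸ hx1X
            have e2 : s g = y1 → s g ∈ X0 := fun h => h ▸ hy1X
            have e3 : t g = x1 → t g ∈ X0 := fun h => h ▸ hx1X
            have e4 : t g = y1 → t g ∈ X0 := fun h => h ▸ hy1X
            by_contra hcon
            rw [not_or, not_or, not_not, not_not, not_not] at hcon
            obtain ⟨q1, q2, q3⟩ := hcon
            apply hc
            rw [q1, q2, q3]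
          rcases h4 with h4 | h4 | h4
          · rw [hX0c g hg h4] at hn
            exact hn ⟨heM, heF⟩
          · rcases hHx hx1C hg h4 with h5 | h5
            · rw [hj1u g h5 h4] at hn
              exact hn ⟨m1, hj1⟩
            · exact k1 (hNone hx1C (hPN g1 hg1) hcx1 h5 h4)
          · rcases hHx hy1C hg h4 with h5 | h5
            · rw [hj2u g h5 h4] at hn
              exact hn ⟨m2, hj2⟩
            · exact k1 (hNone hy1C (hPN g1 hg1) hcy1 h5 h4)
    -- the edge of `M` at `x1`, `y1`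
    have a1 : g1 ∈ M ∨ j1 ∈ M := by
      obtain ⟨m, hm, hmc, -⟩ := cn_eq_one_unique' (hM1 x1 (comp_sub v hx1C))
      by_cases k1 : m = g1
      · exact Or.inl (k1 ▸ hm)
      · have k2 : m ≠ g2 := by
          intro h
          rw [h, W.n2.cr, mem_singleton, mem_singleton] at hmc
          exact hmc ⟨fun h => absurd h.symm W.d1, fun h => absurd h.symm (hxne hx1X hy2Y)⟩
        rw [W.cr k1 k2] at hmc
        rcases hHx hx1C (hM hm) hmc with h5 | h5
        · exact Or.inr (hj1u m h5 hmc ▸ hm)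
        · exact absurd (hNone hx1C (hPN g1 hg1) hcx1 h5 hmc) k1
    have a2 : g2 ∈ M ∨ j2 ∈ M := by
      obtain ⟨m, hm, hmc, -⟩ := cn_eq_one_unique' (hM1 y1 (comp_sub v hy1C))
      by_cases k1 : m = g2
      · exact Or.inl (k1 ▸ hm)
      · have k2 : m ≠ g1 := by
          intro h
          rw [h, W.n1.cr, mem_singleton, mem_singleton] at hmc
          exact hmc ⟨fun h => absurd h W.d1, fun h => absurd h.symm (hxne hy1X hx2Y)⟩
        rw [W.cr k2 k1] at hmc
        rcases hHx hy1C (hM hm) hmc with h5 | h5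
        · exact Or.inr (hj2u m h5 hmc ▸ hm)
        · exact absurd (hNone hy1C (hPN g1 hg1) hcy1 h5 hmc) k2
    -- parity
    have hpar : Odd (cn s' t' M X0) := by
      rw [odd_cn fun g hg => hH.noloop g (hM hg)]
      · have h1 : Odd (X0 \ comp s t vs es F v).card := by
          rw [te_parT S hv hvT hX0, hX0T]
          · exact oddA
          · intro g hg _ hcr
            exact disjoint_left.1 S.NF hg
              ((hX0c g (te_mem (S.Nsub hg) (Or.inr (Or.inl hg))) hcr).symm ▸ heF)
        have h2 : Even (X0 ∩ comp s t vs es F v).card := by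
          rw [← Nat.not_odd_iff_even]
          intro h3
          have h4 : Odd (cn s t (eP s N (comp s t vs es F v)) (X0 ∩ comp s t vs es F v)) := by
            rw [odd_cn fun g hg => S.h.noloop g (S.Nsub (hPN g hg))]
            · exact h3
            · intro u hu
              have h5 := hH.pone u (mem_inter.1 hu).2
              rw [W.cn2 hg1 hg2] at h5
              rw [h5]
              decide
          have h5 : cn s t (eP s N (comp s t vs es F v)) (X0 ∩ comp s t vs es F v) = 0 := by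
            rw [cn_eq_zero]
            intro g hg hc
            rcases crin hc with h | h
            · exact hPF g hg ((hX0c g (hPH hg) h).symm ▸ heF)
            · exact hPF g hg ((comp_closed S.h.ends v).2 g (S.Nsub (hPN g hg)) h)
          rw [h5] at h4
          exact absurd h4 (by decide)
        rw [← Finset.card_inter_add_card_sdiff X0 (comp s t vs es F v), Nat.odd_add']
        exact ⟨fun _ => h2, fun _ => h1⟩
      · intro u hu
        rw [hM1 u (hX0 hu)]
        decide
    have hcX' : ∀ g ∈ M, cr s' t' X0 g → g = R.e ∨ g = g1 ∨ g = g2 := by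
      intro g hg hc
      by_cases k1 : g = g1
      · exact Or.inr (Or.inl k1)
      · by_cases k2 : g = g2
        · exact Or.inr (Or.inr k2)
        · rw [W.cr k1 k2] at hc
          exact Or.inl (hX0c g (hM hg) hc)
    have hce : cr s' t' X0 R.e := by
      rw [W.cr (hFne heF).1 (hFne heF).2, S.E0.cr, memX R.a hTa, memX R.b hTb]
      simp [Ne.symm nab, nbp, nbq]
    have hcg1 : cr s' t' X0 g1 := by
      rw [W.n1.cr]
      intro h
      exact disjoint_left.1 hdis (h.1 hx1X) hx2Y
    have hcg2 : cr s' t' X0 g2 := by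
      rw [W.n2.cr]
      intro h
      exact disjoint_left.1 hdis (h.1 hy1X) hy2Y
    have a3 : g1 ∈ M ↔ g2 ∈ M := by
      constructor
      · intro h1
        by_contra h2
        have h3 : M.filter (cr s' t' X0) = {R.e, g1} := by
          ext g
          rw [mem_filter, mem_insert, mem_singleton]
          constructor
          · rintro ⟨h4, h5⟩
            rcases hcX' g h4 h5 with h6 | h6 | h6
            · exact Or.inl h6
            · exact Or.inr h6
            · exact absurd (h6 ▸ h4) h2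
          · rintro (h4 | h4) <;> rw [h4]
            · exact ⟨heM, hce⟩
            · exact ⟨h1, hcg1⟩
        rw [cn_eq_card, h3, card_pair (hFne heF).1] at hpar
        exact absurd hpar (by decide)
      · intro h1
        by_contra h2
        have h3 : M.filter (cr s' t' X0) = {R.e, g2} := by
          ext g
          rw [mem_filter, mem_insert, mem_singleton]
          constructor
          · rintro ⟨h4, h5⟩
            rcases hcX' g h4 h5 with h6 | h6 | h6
            · exact Or.inl h6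
            · exact absurd (h6 ▸ h4) h2
            · exact Or.inr h6
          · rintro (h4 | h4) <;> rw [h4]
            · exact ⟨heM, hce⟩
            · exact ⟨h1, hcg2⟩
        rw [cn_eq_card, h3, card_pair (hFne heF).2] at hpar
        exact absurd hpar (by decide)
    have b1 : g1 ∈ M := by
      by_contra h
      exact nb ⟨a1.resolve_left h, a2.resolve_left fun h' => h (a3.2 h')⟩
    exact te_concl S hv W hx1C hy1C hx2C hy2C hM heM b1 (a3.1 b1) hM1 hgood
  · -- a small cut of the new graph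
    exfalso
    push Not at hcut
    obtain ⟨X', hX', ho', hlt⟩ := hcut
    have hends' : ∀ g ∈ eH s es F N (comp s t vs es F v), s' g ∈ vs ∧ t' g ∈ vs := by
      intro g hg
      by_cases k1 : g = g1
      · rw [k1]
        rcases W.n1 with ⟨h2, h3⟩ | ⟨h2, h3⟩ <;> rw [h2, h3]
        · exact ⟨comp_sub v hx1C, comp_sub v hx2C⟩
        · exact ⟨comp_sub v hx2C, comp_sub v hx1C⟩
      · by_cases k2 : g = g2
        · rw [k2]
          rcases W.n2 with ⟨h2, h3⟩ | ⟨h2, h3⟩ <;> rw [h2, h3]
          · exact ⟨comp_sub v hy1C, comp_sub v hy2C⟩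
          · exact ⟨comp_sub v hy2C, comp_sub v hy1C⟩
        · rw [(W.o g k1 k2).1, (W.o g k1 k2).2]
          exact S.h.ends g (te_sub hg)
    have hloop' : ∀ g ∈ eH s es F N (comp s t vs es F v), s' g ≠ t' g := by
      intro g hg
      by_cases k1 : g = g1
      · rw [k1]
        rcases W.n1 with ⟨h2, h3⟩ | ⟨h2, h3⟩ <;> rw [h2, h3]
        · exact W.d3
        · exact W.d3.symm
      · by_cases k2 : g = g2
        · rw [k2]
          rcases W.n2 with ⟨h2, h3⟩ | ⟨h2, h3⟩ <;> rw [h2, h3]
          · exact W.d4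
          · exact W.d4.symm
        · rw [(W.o g k1 k2).1, (W.o g k1 k2).2]
          exact S.h.noloop g (te_sub hg)
    -- the two edges and the two minimal sets
    have g1Y : ∀ {A : Finset V}, A ⊆ Y0 → ¬ cr s t A g1 := by
      intro A hA
      rw [hE1.cr, not_not]
      exact ⟨fun h => absurd (hA h) (disjoint_left.1 hdis hx1X),
        fun h => absurd (hA h) (disjoint_left.1 hdis hy1X)⟩
    have g2X : ∀ {A : Finset V}, A ⊆ X0 → ¬ cr s t A g2 := by
      intro A hA
      rw [hE2.cr, not_not]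
      exact ⟨fun h => absurd hx2Y (disjoint_left.1 hdis (hA h)),
        fun h => absurd hy2Y (disjoint_left.1 hdis (hA h))⟩
    rcases te_cls S hv hvT W hg1 hg2 hends' hloop' hX' ho' hlt with
      ⟨Z, hZ, hZT, hZc⟩ | ⟨l, l', τ, Z, hZ, hL, hZT, hZc⟩
    · have hZc' : ∀ g ∈ eH s es F N (comp s t vs es F v), g ≠ g1 → g ≠ g2 → cr s t Z g →
          g = R.e := by
        intro g hg k1 k2 hc
        exact hZc g hg ((W.cr k1 k2 Z).2 hc)
      have memZ : ∀ u ∈ R.T, (u ∈ Z ↔ u ∈ X0) := by
        intro u hu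
        rw [memX u hu, ← hZT, mem_inter]
        exact ⟨fun h => ⟨h, hu⟩, fun h => h.1⟩
      -- inside `X0`
      have i1 : (X0 ∩ Z) ∩ R.T = {R.a, R.p, R.q} := by
        rw [← hX0T]
        ext u
        simp only [mem_inter]
        constructor
        · rintro ⟨⟨h1, -⟩, h2⟩
          exact ⟨h1, h2⟩
        · rintro ⟨h1, h2⟩
          exact ⟨⟨h1, (memZ u h2).2 h1⟩, h2⟩
      have i2 : cr s t (X0 ∩ Z) R.e := by
        rw [S.E0.cr]
        intro h
        have h1 : R.a ∈ X0 := (memX R.a hTa).2 (by simp)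
        have h2 := (mem_inter.1 (h.1 (mem_inter.2 ⟨h1, (memZ R.a hTa).2 h1⟩))).1
        rw [memX R.b hTb] at h2
        simp [Ne.symm nab, nbp, nbq] at h2
      have i3 : X0 ∩ Z = X0 := by
        refine hX0m _ inter_subset_left ⟨i1, ?_⟩
        refine te_one S hv hvT (inter_subset_left.trans hX0) (by rw [i1]; exact oddA) heF i2 hg1 ?_
        intro g hg hc
        by_cases k1 : g = g1
        · exact Or.inr k1
        · left
          have k2 : g ≠ g2 := by
            intro h
            rw [h] at hc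
            exact g2X inter_subset_left hc
          rcases crin hc with h | h
          · exact hX0c g hg h
          · exact hZc' g hg k1 k2 h
      have j1 : (Y0 \ Z) ∩ R.T = {R.b, R.p', R.q'} := by
        rw [← hY0T]
        ext u
        simp only [mem_inter, mem_sdiff]
        constructor
        · rintro ⟨⟨h1, -⟩, h2⟩
          exact ⟨h1, h2⟩
        · rintro ⟨h1, h2⟩
          exact ⟨⟨h1, fun h3 => (memXY u h2).1 h1 ((memZ u h2).1 h3)⟩, h2⟩
      have j2 : cr s t (Y0 \ Z) R.e := by
        rw [S.E0.cr]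
        intro h
        have h1 : R.b ∈ Y0 := (memY R.b hTb).2 (by simp)
        have h2 : R.b ∉ Z := fun h3 => (memXY R.b hTb).1 h1 ((memZ R.b hTb).1 h3)
        have h3 := (mem_sdiff.1 (h.2 (mem_sdiff.2 ⟨h1, h2⟩))).1
        rw [memY R.a hTa] at h3
        simp [nab, nap', naq'] at h3
      have j3 : Y0 \ Z = Y0 := by
        refine hY0m _ sdiff_subset ⟨j1, ?_⟩
        refine te_one S hv hvT (sdiff_subset.trans hY0) (by rw [j1]; exact oddB) heF j2 hg2 ?_
        intro g hg hc
        by_cases k2 : g = g2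
        · exact Or.inr k2
        · left
          have k1 : g ≠ g1 := by
            intro h
            rw [h] at hc
            exact g1Y sdiff_subset hc
          rcases crsd hc with h | h
          · exact hY0c g hg h
          · exact hZc' g hg k1 k2 h
      have k1 : x1 ∈ Z := by
        rw [← i3] at hx1X
        exact (mem_inter.1 hx1X).2
      have k2 : x2 ∉ Z := by
        rw [← j3] at hx2Y
        exact (mem_sdiff.1 hx2Y).2
      have k3 := hZc g1 (hPH hg1) (by
        rw [W.n1.cr]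
        intro h
        exact k2 (h.1 k1))
      exact hPF g1 hg1 (k3.symm ▸ heF)
    · have hZc' : ∀ g ∈ eH s es F N (comp s t vs es F v), g ≠ g1 → g ≠ g2 → cr s t Z g →
          g = τ := by
        intro g hg k1 k2 hc
        exact hZc g hg ((W.cr k1 k2 Z).2 hc)
      -- the leaf
      have hTp : R.p ∈ R.T := by unfold Tree.T; simp
      have hTq : R.q ∈ R.T := by unfold Tree.T; simp
      have hTp' : R.p' ∈ R.T := by unfold Tree.T; simp
      have hTq' : R.q' ∈ R.T := by unfold Tree.T; simp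
      have hl : l ∈ R.T ∧ l ≠ R.a ∧ l ≠ R.b ∧ l' ∈ R.T ∧ l ≠ l' ∧ τ ∈ es ∧ Ends s t τ l l' := by
        rcases hL with ⟨h1, h2, h3⟩ | ⟨h1, h2, h3⟩ | ⟨h1, h2, h3⟩ | ⟨h1, h2, h3⟩ <;>
          rw [h1, h2, h3]
        · exact ⟨hTp, Ne.symm nap, Ne.symm nbp, hTa, Ne.symm nap, S.m1, S.E1.symm⟩
        · exact ⟨hTq, Ne.symm naq, Ne.symm nbq, hTa, Ne.symm naq, S.m2, S.E2.symm⟩
        · exact ⟨hTp', Ne.symm nap', Ne.symm nbp', hTb, Ne.symm nbp', S.m3, S.E3.symm⟩
        · exact ⟨hTq', Ne.symm naq', Ne.symm nbq', hTb, Ne.symm nbq', S.m4, S.E4.symm⟩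
      obtain ⟨hlT, hla, hlb, hl'T, hll', hτ, hEτ⟩ := hl
      have hτF : τ ∈ F := S.full l hlT τ hτ (by
        rw [hEτ.cr, mem_singleton, mem_singleton]
        intro h
        exact hll' (h.1 rfl).symm)
      have hZT' : ∀ u ∈ R.T, (u ∈ Z ↔ u = l) := by
        intro u hu
        rw [← mem_singleton, ← hZT, mem_inter]
        exact ⟨fun h => ⟨h, hu⟩, fun h => h.1⟩
      have haZ : R.a ∉ Z := fun h => hla ((hZT' _ hTa).1 h).symm
      have hbZ : R.b ∉ Z := fun h => hlb ((hZT' _ hTb).1 h).symm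
      have main : ∀ (A : Finset V) (g0 : E), A ⊆ vs → l ∈ A → g0 ∈ eP s N (comp s t vs es F v) →
          (∀ g ∈ eH s es F N (comp s t vs es F v), cr s t A g → g = R.e) →
          (∀ g ∈ eH s es F N (comp s t vs es F v), cr s t (A ∩ Z) g → g ≠ g0 →
            g ≠ g1 ∧ g ≠ g2) → False := by
        intro A g0 hA hlA hg0 hAc hA0
        have i1 : (A ∩ Z) ∩ R.T = {l} := by
          ext u
          simp only [mem_inter, mem_singleton]
          constructor
          · rintro ⟨⟨-, h1⟩, h2⟩
            exact (hZT' u h2).1 h1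
          · intro h
            rw [h]
            exact ⟨⟨hlA, (hZT' l hlT).2 rfl⟩, hlT⟩
        have i2 : cr s t (A ∩ Z) τ := by
          rw [hEτ.cr]
          intro h
          have h1 := (mem_inter.1 (h.1 (mem_inter.2 ⟨hlA, (hZT' l hlT).2 rfl⟩))).2
          exact hll' ((hZT' l' hl'T).1 h1).symm
        have i0 : ¬ cr s t (A ∩ Z) R.e := by
          rw [S.E0.cr, not_not]
          exact ⟨fun h => absurd (mem_inter.1 h).2 haZ, fun h => absurd (mem_inter.1 h).2 hbZ⟩
        refine hno ⟨l, l', τ, A ∩ Z, hL, inter_subset_left.trans hA, i1, ?_⟩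
        refine te_one S hv hvT (inter_subset_left.trans hA) (by rw [i1, card_singleton]; decide)
          hτF i2 hg0 ?_
        intro g hg hc
        by_cases k0 : g = g0
        · exact Or.inr k0
        · left
          obtain ⟨k1, k2⟩ := hA0 g hg hc k0
          rcases crin hc with h | h
          · exfalso
            rw [hAc g hg h] at hc
            exact i0 hc
          · exact hZc' g hg k1 k2 h
      by_cases hlX : l ∈ X0
      · refine main X0 g1 hX0 hlX hg1 hX0c ?_
        intro g _ hc h0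
        refine ⟨h0, fun h => ?_⟩
        rw [h] at hc
        exact g2X inter_subset_left hc
      · refine main Y0 g2 hY0 ((memXY l hlT).2 hlX) hg2 hY0c ?_
        intro g _ hc h0
        refine ⟨fun h => ?_, h0⟩
        rw [h] at hc
        exact g1Y inter_subset_left hc

end OddSix
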